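import Pool.Agent.R211.CE.Per

/-!
The Morrey bound of a field whose direction lies in a cone, by its integral over a ball.
-/

open MeasureTheory Set Metric Filter Topology
open scoped ContDiff RealInnerProductSpace
open H459R3.NS Pool.Agent.R210 Pool.Agent.R211.CD

namespace Pool.Agent.R211.CE

/-- **The Morrey bound by the integral over a ball.** -/
theorem flux_ball2 {w : E → E} (hw : ContDiff ℝ 1 w)
    (hdiv : ∀ y, dvE w y = 0) {x e : E} {R κ σ : ℝ} (hR : 0 < R)
    (hκ : 0 ≤ κ) (hσ : 0 < σ) (hσ1 : σ ≤ 1) (he : ‖e‖ = 1)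
    (hpt : ∀ y ∈ ball x R, σ * ‖w y‖ - κ ≤ ⟪e, w y⟫) {r : ℝ} (hr : 0 < r) (hrR : r ≤ R / 2) :
    ∫ y in ball x r, ‖w y‖
      ≤ Cf / σ ^ 2 * r * (κ * R ^ 2 + (R * ∫ y in ball x R, ‖w y‖) / R ^ 2) := by
  have hB := one_le_HB
  have hv := v3_pos
  have hh0 : 0 < hh (1 / 4) := hh_pos (by norm_num)
  set ρ : ℝ := 4 * r / σ with hρd
  have hρ : 0 < ρ := by positivity
  have hσρ : σ * ρ = 4 * r := by rw [hρd]; field_simp
  set b : ℝ := 2 / σ with hb
  set φ := tps b R ρ x e with hφ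
  have hφs : ContDiff ℝ ∞ φ := tps_smooth hρ b R x e
  have hφc : HasCompactSupport φ := tps_compact b hR ρ x e
  have hfd0 : ∀ y, y ∉ ball x R → ∀ v, fderiv ℝ φ y v = 0 := by
    intro y hy v
    rw [hφ, tps_fderiv hρ, dZ_zero hR hy, ze_sub_zero hR hy]
    ring
  have hfdc : Continuous fun y => fderiv ℝ φ y := hφs.continuous_fderiv (by norm_num)
  have h0 : ∫ y in ball x R, fderiv ℝ φ y (w y) = 0 := by
    rw [setIntegral_eq_integral_of_forall_compl_eq_zero fun y hy => hfd0 y hy _]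
    exact int_dv_zero hw hdiv hφs hφc
  have hAc := As_cont hρ b R x e
  have hA0 := As_nonneg hρ b R x e
  have hwc := hw.continuous.norm
  have iA : IntegrableOn (As b R ρ x e) (ball x R) := intOn_ball hAc x R
  have iWA : IntegrableOn (fun y => ‖w y‖ * As b R ρ x e y) (ball x R) :=
    intOn_ball (hwc.mul hAc) x R
  have iw : IntegrableOn (fun y => fderiv ℝ φ y (w y)) (ball x R) :=
    intOn_ball (hfdc.clm_apply hw.continuous) x R
  have hZc : Continuous fun y => dZ R x y (w y) := by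
    unfold dZ
    have hz : Continuous fun y : E => y - x := continuous_id.sub continuous_const
    have h1 : Continuous fun y : E => ‖y - x‖ ^ 2 / R ^ 2 := (hz.norm.pow 2).div_const _
    have h2 : Continuous fun y : E => deriv hh (‖y - x‖ ^ 2 / R ^ 2) := dhh_cont.comp h1
    exact h2.mul ((continuous_const.mul (hz.inner hw.continuous)).div_const _)
  have iG : IntegrableOn (fun y => Gs b ρ x e y * dZ R x y (w y)) (ball x R) :=
    intOn_ball ((Gs_smooth hρ b x e).continuous.mul hZc) x R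
  have j1 : IntegrableOn (fun y => σ / 2 * (‖w y‖ * As b R ρ x e y)) (ball x R) :=
    iWA.const_mul _
  have j2 : IntegrableOn (fun y => κ * As b R ρ x e y) (ball x R) := iA.const_mul _
  have h3 : ∫ y in ball x R, (Gs b ρ x e y * dZ R x y (w y)
      + (σ / 2 * (‖w y‖ * As b R ρ x e y) - κ * As b R ρ x e y))
      ≤ ∫ y in ball x R, fderiv ℝ φ y (w y) := by
    refine setIntegral_mono_on (iG.add (j1.sub j2)) iw measurableSet_ball fun y hy => ?_
    have h4 := tps_ge hρ hσ hb R x (y := y) (hpt y hy)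
    rw [← hφ] at h4
    refine le_trans (le_of_eq ?_) h4
    ring
  have j3 : IntegrableOn (fun y => σ / 2 * (‖w y‖ * As b R ρ x e y) - κ * As b R ρ x e y)
    (ball x R) := j1.sub j2
  rw [integral_add iG j3, integral_sub j1 j2, integral_const_mul, integral_const_mul,
    h0] at h3
  have hG : |∫ y in ball x R, Gs b ρ x e y * dZ R x y (w y)|
      ≤ 24 * HB / R ^ 2 * (R * ∫ y in ball x R, ‖w y‖) := by
    rw [← Real.norm_eq_abs, ← mul_assoc, ← integral_const_mul]
    have iN : IntegrableOn (fun y => 24 * HB / R ^ 2 * R * ‖w y‖) (ball x R) :=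
      (intOn_ball hwc x R).const_mul _
    refine norm_integral_le_of_norm_le iN ?_
    refine (ae_restrict_mem measurableSet_ball).mono fun y hy => ?_
    have hyR : ‖y - x‖ ≤ R := by
      rw [mem_ball, dist_eq_norm] at hy
      exact hy.le
    have a1 := Gs_le hρ b x he y
    have a2 : dZ R x y (w y) = Hh R x y * ⟪y - x, w y⟫ := by
      unfold dZ Hh
      ring
    have a3 : |dZ R x y (w y)| ≤ 2 * HB / R ^ 2 * (R * ‖w y‖) := by
      rw [a2, abs_mul]
      refine mul_le_mul (Hh_le hR x y) ?_ (abs_nonneg _) (by positivity)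
      exact (abs_real_inner_le_norm _ _).trans
        (mul_le_mul_of_nonneg_right hyR (norm_nonneg _))
    rw [Real.norm_eq_abs, abs_mul]
    have a4 : 0 ≤ HB / R ^ 2 * (R * ‖w y‖) := by positivity
    calc |Gs b ρ x e y| * |dZ R x y (w y)| ≤ 1 * (2 * HB / R ^ 2 * (R * ‖w y‖)) :=
          mul_le_mul a1 a3 (abs_nonneg _) zero_le_one
      _ = 2 * (HB / R ^ 2 * (R * ‖w y‖)) := by ring
      _ ≤ 24 * (HB / R ^ 2 * (R * ‖w y‖)) := by linarith
      _ = _ := by ring
  have h2 := int_As hρ hσ hσ1 hb hR x he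
  have h4 : hh (1 / 4) ^ 2 / (2 * ρ) * ∫ y in ball x r, ‖w y‖
      ≤ ∫ y in ball x R, ‖w y‖ * As b R ρ x e y := by
    have hsub : ball x r ⊆ ball x R := ball_subset_ball (by linarith)
    have h5 : ∫ y in ball x r, ‖w y‖ * As b R ρ x e y
        ≤ ∫ y in ball x R, ‖w y‖ * As b R ρ x e y :=
      setIntegral_mono_set iWA (Filter.Eventually.of_forall fun y =>
        mul_nonneg (norm_nonneg _) (hA0 y)) hsub.eventuallyLE
    refine le_trans ?_ h5
    rw [← integral_const_mul]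
    have iW : IntegrableOn (fun y => ‖w y‖) (ball x r) := intOn_ball hwc x r
    refine setIntegral_mono_on (iW.const_mul _) (iWA.mono_set hsub)
      measurableSet_ball fun y hy => ?_
    rw [mem_ball, dist_eq_norm] at hy
    have h6 := As_ge hρ hσ hσ1 hb hR (by rw [hσρ]; linarith) x he (y := y) (by rw [hσρ]; linarith)
    rw [mul_comm]
    exact mul_le_mul_of_nonneg_left h6 (norm_nonneg _)
  exact flux_alg hR hr hκ (by linarith) hv hh0 (mul_nonneg hR.le (integral_nonneg fun y => norm_nonneg _)) hσ h2 h3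
    hG h4 hρd

/-- The constant of the Morrey bound. -/
noncomputable def CM (σ : ℝ) : ℝ := CL σ + 3 * Cf / σ ^ 2

theorem CM_pos {σ : ℝ} (hσ : 0 < σ) : 0 < CM σ := by
  have h1 := CL_pos hσ
  have h2 := Cf_pos
  unfold CM
  positivity

theorem Cone.mono {w : V → V} {K σ R r : ℝ} (h : Cone w K σ R) (hr : r ≤ R) : Cone w K σ r :=
  fun x => by
    obtain ⟨e, he, h1⟩ := h x
    exact ⟨e, he, fun y hy hyK => h1 y (hy.trans_le hr) hyK⟩

section

variable {v : V → V} (hv : ∀ i, SP (fun x => v x i))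

include hv in
/-- The Morrey bound by the integral over a ball. -/
theorem mor_w {K R σ Γ : ℝ} (hK : 0 ≤ K) (hR0 : 0 < R) (hσ : 0 < σ) (hσ1 : σ ≤ 1)
    (h : Cone (cu v) K σ R) (x : V) (hΓ : (∫ y in eb x R, en (cu v y)) + K * R ^ 3 ≤ Γ * R)
    {τ : ℝ} (hτ : 0 < τ) (hτR : τ ≤ R / 2) :
    ∫ y in eb x τ, en (cu v y) ≤ CM σ * Γ * τ := by
  have hCf := Cf_pos
  have hCL := CL_pos hσ
  have hcu := sp_cu hv
  have hw : ContDiff ℝ 1 (lift (cu v)) := (lift_smooth hcu).of_le (by norm_cast)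
  have hdv : ∀ y, dvE (lift (cu v)) y = 0 := fun y => by rw [dvE_lift hcu, dv_cu hv]
  have hball : ∀ (x : E) (r : ℝ), 0 < r → ∀ F : V → ℝ, ∫ y in ball x r, F (WithLp.ofLp y)
      = ∫ y in eb (WithLp.ofLp x) r, F y := fun x r hr F => int_ball_lift x hr
  set X : E := WithLp.toLp 2 x with hX
  obtain ⟨e, he, hcone⟩ := h x
  have hpt : ∀ y ∈ ball X R, σ * ‖lift (cu v) y‖ - 2 * K
      ≤ ⟪(WithLp.toLp 2 e : E), lift (cu v) y⟫ := by
    intro y hy
    have he1 : ‖(WithLp.toLp 2 e : E)‖ = 1 := by rw [norm_toLp, he]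
    rcases lt_or_ge K ‖lift (cu v) y‖ with hh1 | hh1
    · have h2 : en (WithLp.ofLp y - x) < R := by
        rw [mem_ball, dist_eq_norm] at hy
        rw [← norm_toLp]
        exact hy
      rw [norm_lift] at hh1 ⊢
      have h3 := hcone _ h2 hh1
      have h4 : ⟪(WithLp.toLp 2 e : E), lift (cu v) y⟫ = ∑ i, e i * cu v (WithLp.ofLp y) i :=
        inner_lift e (cu v (WithLp.ofLp y))
      rw [h4]
      linarith
    · have h2 := (abs_le.1 (abs_real_inner_le_norm (WithLp.toLp 2 e : E) (lift (cu v) y))).1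
      rw [he1, one_mul] at h2
      have h3 : σ * ‖lift (cu v) y‖ ≤ 1 * ‖lift (cu v) y‖ :=
        mul_le_mul_of_nonneg_right hσ1 (norm_nonneg _)
      linarith
  have h2 := flux_ball2 hw hdv (x := X) (e := WithLp.toLp 2 e) hR0
    (κ := 2 * K) (by positivity) hσ hσ1 (by rw [norm_toLp, he]) hpt hτ hτR
  have e2 : ∀ τ, 0 < τ → ∫ y in ball X τ, ‖lift (cu v) y‖ = ∫ y in eb x τ, en (cu v y) := by
    intro τ hτ
    rw [← hball X τ hτ fun y => en (cu v y)]
    simp_rw [norm_lift]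
  rw [e2 τ hτ, e2 R hR0] at h2
  refine h2.trans ?_
  have hI : 0 ≤ ∫ y in eb x R, en (cu v y) := integral_nonneg fun y => en_nonneg _
  have hK3 : 0 ≤ K * R ^ 3 := by positivity
  have hΓ0 : 0 ≤ Γ := by
    by_contra hc
    push Not at hc
    have : Γ * R < 0 := mul_neg_of_neg_of_pos hc hR0
    linarith
  have h3 : 2 * K * R ^ 2 + (R * ∫ y in eb x R, en (cu v y)) / R ^ 2 ≤ 3 * Γ := by
    have a1 : (R * ∫ y in eb x R, en (cu v y)) / R ^ 2 ≤ Γ := by
      rw [div_le_iff₀ (by positivity)]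
      nlinarith
    have a2 : K * R ^ 2 ≤ Γ := by
      have : K * R ^ 2 * R ≤ Γ * R := by nlinarith
      exact le_of_mul_le_mul_right this hR0
    linarith
  calc Cf / σ ^ 2 * τ * (2 * K * R ^ 2 + (R * ∫ y in eb x R, en (cu v y)) / R ^ 2)
      ≤ Cf / σ ^ 2 * τ * (3 * Γ) := mul_le_mul_of_nonneg_left h3 (by positivity)
    _ = 3 * Cf / σ ^ 2 * (Γ * τ) := by ring
    _ ≤ CM σ * (Γ * τ) := by
        refine mul_le_mul_of_nonneg_right ?_ (by positivity)
        unfold CM
        linarith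
    _ = _ := by ring

include hv in
/-- The bound of the averages at the scales below the fine scale. -/
theorem avg_w {K R η σ Q Γ : ℝ} (hK : 0 < K) (hη : 0 < η) (hηR : η ≤ R) (hR1 : R ≤ 1)
    (hσ : 0 < σ) (hσ1 : σ ≤ 1) (hQ : energy v ≤ Q) (h : Cone (cu v) K σ R) (x : V)
    (hΓ : (∫ y in eb x η, en (cu v y)) + K * η ^ 3 ≤ Γ * η) {τ : ℝ} (hτ : 0 < τ)
    (hτη : τ ≤ η / 2) :
    ∫ z in U1, en (cu v (x - τ • z)) ≤ CM σ * min Γ (LL Q K R) / τ ^ 2 := by
  have hR0 : 0 < R := hη.trans_le hηR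
  have hCf := Cf_pos
  have hL := LL_pos (Q := Q) hK hR0
  have hCM := CM_pos hσ
  have h1 : ∫ y in eb x τ, en (cu v y) ≤ CM σ * min Γ (LL Q K R) * τ := by
    rcases min_cases Γ (LL Q K R) with hm | hm
    · rw [hm.1]
      exact mor_w hv hK.le hη hσ hσ1 (h.mono hηR) x hΓ hτ hτη
    · rw [hm.1]
      refine (mor_en hv hK.le hR0 hR1 hσ hσ1 hQ h hτ (by linarith) x).trans ?_
      refine mul_le_mul_of_nonneg_right (mul_le_mul_of_nonneg_right ?_ hL.le) hτ.le
      unfold CM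
      have : 0 ≤ 3 * Cf / σ ^ 2 := by positivity
      linarith
  rw [int_U1_scale (f := fun y => en (cu v y)) hτ x]
  have h2 := mul_le_mul_of_nonneg_left h1 (by positivity : 0 ≤ τ⁻¹ ^ 3)
  refine h2.trans (le_of_eq ?_)
  field_simp

end

end Pool.Agent.R211.CE
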