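import Pool.Agent.R211.CE.Near2
import Pool.Agent.R211.CE.Flux2

/-!
The averages over large balls are bounded by the averages over small balls; the intermediate
scales.
-/

open MeasureTheory Set Filter Topology
open scoped ContDiff
open H459R3.NS Pool.Agent.R210 Pool.Agent.R211.CD

namespace Pool.Agent.R211.CE

theorem en_tri (a b : V) : en (a + b) ≤ en a + en b := by
  rw [← norm_toLp, ← norm_toLp, ← norm_toLp, WithLp.toLp_add]
  exact norm_add_le _ _

theorem vU_pos1 : 0 < vU := by
  unfold vU
  refine ENNReal.toReal_pos ?_ U1_fin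
  refine (isOpen_U1.measure_pos volume ⟨0, ?_⟩).ne'
  show rsq (0 : V) < 1
  unfold rsq
  simp

/-- The averages over large balls. -/
theorem cover {f : V → ℝ} (hf : Continuous f) (hf0 : ∀ y, 0 ≤ f y) {r t A : ℝ} (hr : 0 < r)
    (hrt : r ≤ t) (hA : ∀ x, ∫ z in U1, f (x - r • z) ≤ A) (x : V) :
    ∫ z in U1, f (x - t • z) ≤ 8 * A := by
  have ht : 0 < t := hr.trans_le hrt
  have hv := vU_pos1
  have hA0 : 0 ≤ A := (integral_nonneg fun z => hf0 _).trans (hA x)
  have hs : 0 < t + r := by positivity
  set F : V × V → ℝ := fun p => f (x - (t + r) • p.1 - r • p.2) with hF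
  have hFc : Continuous F := hf.comp (by fun_prop)
  have h1 : IntegrableOn F (U1 ×ˢ U1) ((volume : Measure V).prod volume) := by
    refine (hFc.continuousOn.integrableOn_compact
      ((isCompact_closedBall (0 : V) 1).prod (isCompact_closedBall (0 : V) 1))).mono_set ?_
    exact prod_mono U1_sub U1_sub
  unfold IntegrableOn at h1
  rw [← Measure.prod_restrict] at h1
  have hvc : ∀ c : ℝ, ∫ _ in U1, c = vU * c := by
    intro c
    rw [setIntegral_const, smul_eq_mul]
    rfl
  have hci : ∀ c : ℝ, IntegrableOn (fun _ : V => c) U1 := fun c => int_U1 continuous_const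
  set I := ∫ y in eb x t, f y with hI
  -- the upper bound
  have h2 : ∫ y in U1, ∫ z in U1, F (y, z) ≤ vU * A := by
    rw [← hvc]
    exact integral_mono h1.integral_prod_left (hci A) fun y => hA (x - (t + r) • y)
  -- the lower bound
  have h3 : vU * ((t + r)⁻¹ ^ 3 * I) ≤ ∫ z in U1, ∫ y in U1, F (y, z) := by
    rw [← hvc]
    refine setIntegral_mono_on (hci _) h1.integral_prod_right measurable_U1 fun z hz => ?_
    have e1 : ∫ y in U1, F (y, z) = ∫ y in U1, f ((x - r • z) - (t + r) • y) := by
      congr 1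
      funext y
      simp only [hF]
      congr 1
      abel
    rw [e1, int_U1_scale hs]
    refine mul_le_mul_of_nonneg_left ?_ (by positivity)
    rw [hI]
    have hio : IntegrableOn f (eb (x - r • z) (t + r)) := by
      refine (hf.continuousOn.integrableOn_compact
        (isCompact_closedBall (x - r • z) (t + r))).mono_set fun y hy => ?_
      rw [Metric.mem_closedBall, dist_eq_norm]
      refine (pi_norm_le_iff_of_nonneg hs.le).2 fun i => ?_
      rw [Real.norm_eq_abs]
      have h4 := sq_le_rsq (y - (x - r • z)) i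
      have h5 : rsq (y - (x - r • z)) < (t + r) ^ 2 := hy
      exact abs_le_of_sq_le_sq (by linarith) hs.le
    refine setIntegral_mono_set hio (Filter.Eventually.of_forall fun y => hf0 y)
      (LE.le.eventuallyLE fun y hy => ?_)
    have h4 : rsq (y - x) < t ^ 2 := hy
    show rsq (y - (x - r • z)) < (t + r) ^ 2
    have h5 : en (y - x) < t := by
      rw [← en_sq] at h4
      exact lt_of_pow_lt_pow_left₀ 2 ht.le h4
    have h6 : en (r • z) ≤ r := by
      rw [en_smul, abs_of_pos hr]
      have h7 : en z ≤ 1 := by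
        unfold en
        rw [Real.sqrt_le_one]
        exact le_of_lt hz
      exact mul_le_of_le_one_right hr.le h7
    have e2 : y - (x - r • z) = (y - x) + r • z := by abel
    rw [e2, ← en_sq]
    refine pow_lt_pow_left₀ ?_ (en_nonneg _) two_ne_zero
    exact (en_tri _ _).trans_lt (by linarith)
  have h4 : ∫ y in U1, ∫ z in U1, F (y, z) = ∫ z in U1, ∫ y in U1, F (y, z) :=
    integral_integral_swap (f := fun y z => F (y, z)) h1
  rw [h4] at h2
  have h5 : (t + r)⁻¹ ^ 3 * I ≤ A := le_of_mul_le_mul_left (h3.trans h2) hv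
  rw [int_U1_scale ht, ← hI]
  have h6 : I ≤ (t + r) ^ 3 * A := by
    have e : I = (t + r) ^ 3 * ((t + r)⁻¹ ^ 3 * I) := by field_simp
    rw [e]
    exact mul_le_mul_of_nonneg_left h5 (by positivity)
  have h7 : (t + r) ^ 3 ≤ 8 * t ^ 3 := by
    have : (t + r) ^ 3 ≤ (2 * t) ^ 3 := pow_le_pow_left₀ hs.le (by linarith) 3
    linarith
  calc t⁻¹ ^ 3 * I ≤ t⁻¹ ^ 3 * ((8 * t ^ 3) * A) :=
        mul_le_mul_of_nonneg_left (h6.trans (mul_le_mul_of_nonneg_right h7 hA0)) (by positivity)
    _ = 8 * A := by field_simp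

/-- The integral of the bound over the intermediate scales. -/
theorem int_mid {A B ρ T : ℝ} (hA : 0 < A) (hB : 0 < B) (hρ : 0 < ρ) (hρT : ρ ≤ T) :
    IntervalIntegrable (fun t : ℝ => 2 * (A * B) / (t * (A * t ^ 2 + B))) volume ρ T ∧
    ∫ t in ρ..T, 2 * (A * B) / (t * (A * t ^ 2 + B)) ≤ A * Real.log (1 + B / (A * ρ ^ 2)) := by
  have hT : 0 < T := hρ.trans_le hρT
  have hpos : ∀ t ∈ uIcc ρ T, 0 < t := by
    intro t ht
    rw [uIcc_of_le hρT] at ht
    exact hρ.trans_le ht.1
  have hd : ∀ t ∈ uIcc ρ T, HasDerivAt (fun t : ℝ => A * (2 * Real.log t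
      - Real.log (A * t ^ 2 + B))) (2 * (A * B) / (t * (A * t ^ 2 + B))) t := by
    intro t ht
    have h0 := hpos t ht
    have h1 : HasDerivAt (fun t : ℝ => A * t ^ 2 + B) (A * (2 * t)) t := by
      have := ((hasDerivAt_pow 2 t).const_mul A).add_const B
      refine this.congr_deriv ?_
      norm_num
    have h2 := (Real.hasDerivAt_log h0.ne').const_mul 2
    have h3 := h1.log (by positivity)
    refine ((h2.sub h3).const_mul A).congr_deriv ?_
    field_simp
    ring
  have hc : ContinuousOn (fun t : ℝ => 2 * (A * B) / (t * (A * t ^ 2 + B))) (uIcc ρ T) := by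
    refine ContinuousOn.div continuousOn_const (by fun_prop) fun t ht => ?_
    have := hpos t ht
    positivity
  refine ⟨hc.intervalIntegrable, ?_⟩
  rw [intervalIntegral.integral_eq_sub_of_hasDerivAt hd hc.intervalIntegrable]
  have h1 : 2 * Real.log T - Real.log (A * T ^ 2 + B) ≤ -Real.log A := by
    have e1 : 2 * Real.log T = Real.log (T ^ 2) := by rw [Real.log_pow]; norm_num
    rw [e1]
    have h2 : Real.log A + Real.log (T ^ 2) ≤ Real.log (A * T ^ 2 + B) := by
      rw [← Real.log_mul hA.ne' (by positivity)]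
      exact Real.log_le_log (by positivity) (by linarith)
    linarith
  have h2 : -(2 * Real.log ρ - Real.log (A * ρ ^ 2 + B)) - Real.log A
      = Real.log (1 + B / (A * ρ ^ 2)) := by
    have e1 : 2 * Real.log ρ = Real.log (ρ ^ 2) := by rw [Real.log_pow]; norm_num
    have e2 : 1 + B / (A * ρ ^ 2) = (A * ρ ^ 2 + B) / (A * ρ ^ 2) := by field_simp
    rw [e1, e2, Real.log_div (by positivity) (by positivity), Real.log_mul hA.ne' (by positivity)]
    ring
  have h3 := mul_le_mul_of_nonneg_left h1 hA.le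
  rw [← h2]
  linarith

section

variable {w : V → V} (hw : ∀ i, SP (fun x => w x i))

include hw in
/-- The intermediate scales. -/
theorem mid_int2 {ρ T A B : ℝ} (hρ : 0 < ρ) (hρT : ρ ≤ T) (hA : 0 < A) (hB : 0 < B)
    (hbA : ∀ x, ∫ z in U1, en (w (x - ρ • z)) ≤ A)
    (hbB : ∀ x t, 0 < t → t ≤ T → ∫ z in U1, en (w (x - t • z)) ≤ B / t ^ 2) :
    |∫ t in ρ..T, t * ∫ x in cube, Zf w w t x|
      ≤ 3 * BB * (∫ x in cube, rsq (w x)) * (8 * A * Real.log (1 + B / (8 * A * ρ ^ 2))) := by
  have hBB := one_le_BB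
  set Y := ∫ x in cube, rsq (w x) with hY
  have hY0 : 0 ≤ Y := integral_nonneg fun x => rsq_nonneg _
  have hi := int_mid (A := 8 * A) (B := B) (by positivity) hB hρ hρT
  have h1 : ∀ t, ρ < t → t ≤ T → |t * ∫ x in cube, Zf w w t x|
      ≤ 3 * BB * Y * (2 * (8 * A * B) / (t * (8 * A * t ^ 2 + B))) := by
    intro t ht htT
    have ht0 : 0 < t := hρ.trans ht
    have h2 : Continuous fun x : V => ((t, x) : ℝ × V) := by fun_prop
    have h3 := (Zf_cont hw hw).comp h2
    have hZ : Continuous fun x => Zf w w t x := h3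
    set D : ℝ := 2 * (8 * A * B) / (8 * A * t ^ 2 + B) with hD
    have hav : ∀ x, ∫ z in U1, en (w (x - t • z)) ≤ D := by
      intro x
      have a1 := cover (f_cont hw) (fun y => en_nonneg _) hρ ht.le hbA x
      have a2 := hbB x t ht0 htT
      set m := ∫ z in U1, en (w (x - t • z)) with hm
      rw [le_div_iff₀ (by positivity)] at a2
      rw [hD, le_div_iff₀ (by positivity)]
      nlinarith
    rw [← integral_const_mul, ← Real.norm_eq_abs]
    have e1 : 3 * BB * Y * (2 * (8 * A * B) / (t * (8 * A * t ^ 2 + B)))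
        = ∫ x in cube, 3 * BB * (D * t⁻¹) * rsq (w x) := by
      rw [integral_const_mul, ← hY, hD]
      field_simp
    rw [e1]
    refine norm_integral_le_of_norm_le (integrableOn_cube
      (continuous_const.mul (rsqw_cont hw))) (Filter.Eventually.of_forall fun x => ?_)
    rw [Real.norm_eq_abs, abs_mul, abs_of_pos ht0]
    have h4 := Zf_far hw (a := 1) (Λ := D * t ^ 2) ht0 zero_le_one x (by
      rw [mul_div_assoc, div_self (by positivity), mul_one]; exact hav x) fun y _ => by
      rw [one_mul]; exact en_cross_le _ _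
    refine h4.trans (le_of_eq ?_)
    field_simp
  rw [← Real.norm_eq_abs]
  refine (intervalIntegral.norm_integral_le_of_norm_le hρT
    (Filter.Eventually.of_forall fun t ht => h1 t ht.1 ht.2) (hi.1.const_mul _)).trans ?_
  rw [intervalIntegral.integral_const_mul]
  exact mul_le_mul_of_nonneg_left hi.2 (by positivity)

end

end Pool.Agent.R211.CE
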