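import Pool.Agent.H459R3.NS.Lp
import Pool.Agent.H459R3.NS.Gron

/-!
The cubic bound of the production of enstrophy and the rate of blow-up of the enstrophy.
-/

open MeasureTheory Set Metric Filter Topology
open scoped ContDiff ENNReal
open H459R3.NS

namespace Pool.Agent.R211.CE

theorem six_le : ∃ C : ℝ, 0 ≤ C ∧ ∀ g : V → ℝ, SP g → ∫ x in cube, g x = 0 →
    eLpNorm g 6 (volume.restrict cube) ≤ ENNReal.ofReal (C * grd g) := by
  obtain ⟨C, hC0, hC⟩ := sobolev
  refine ⟨C * Real.sqrt 2, by positivity, fun g hg hg0 => ?_⟩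
  refine (hC g hg).trans (ENNReal.ofReal_le_ofReal ?_)
  rw [mul_assoc]
  refine mul_le_mul_of_nonneg_left ?_ hC0
  rw [← grd_sq, ← nrm_sq]
  have hpo := poincare hg hg0
  calc Real.sqrt (grd g ^ 2 + nrm g ^ 2) ≤ Real.sqrt (2 * grd g ^ 2) := by
        refine Real.sqrt_le_sqrt ?_
        have := pow_le_pow_left₀ (nrm_nonneg g) hpo 2
        linarith
    _ = Real.sqrt 2 * grd g := by
        rw [Real.sqrt_mul (by norm_num), Real.sqrt_sq (grd_nonneg g)]

theorem th_six : th 6 = 1 / 2 := by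
  unfold th
  rw [ENNReal.toReal_inv]
  norm_num

/-- The trilinear bound. -/
theorem tri_le : ∃ C : ℝ, 0 ≤ C ∧ ∀ s f g : V → ℝ, SP s → SP f → SP g →
    ∫ x in cube, s x = 0 → ∫ x in cube, g x = 0 →
    |∫ x in cube, s x * (f x * g x)| ≤ C * (grd s * (nrm f * Real.sqrt (nrm g * grd g))) := by
  obtain ⟨C, hC0, hC⟩ := six_le
  obtain ⟨D, hD0, hD⟩ := mul_of_Lp (p := 6) (by norm_num)
  refine ⟨D * C, by positivity, fun s f g hs hf hg hs0 hg0 => ?_⟩
  have h1 := hD s (C * grd s) hs.cont (mul_nonneg hC0 (grd_nonneg s)) (hC s hs hs0) f g hf hg hg0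
  rw [th_six] at h1
  have e1 : nrm g ^ (1 - 1 / 2 : ℝ) * grd g ^ (1 / 2 : ℝ) = Real.sqrt (nrm g * grd g) := by
    rw [Real.sqrt_mul (nrm_nonneg g), Real.sqrt_eq_rpow, Real.sqrt_eq_rpow]
    norm_num
  rw [e1] at h1
  refine h1.trans (le_of_eq ?_)
  ring

/-- The cubic form. -/
theorem cub_le : ∃ C : ℝ, 0 < C ∧ ∀ v : V → V, (∀ i, SP (fun x => v x i)) →
    |cub (fun i y => v y i)| ≤ C * (Real.sqrt (palin v) * (Real.sqrt (enstrophy v)
      * Real.sqrt (Real.sqrt (enstrophy v) * Real.sqrt (palin v)))) := by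
  obtain ⟨C, hC0, hC⟩ := tri_le
  refine ⟨27 * (C * 3) + 1, by positivity, fun v hv => ?_⟩
  set a := Real.sqrt (enstrophy v) with ha
  set b := Real.sqrt (palin v) with hb
  have ha0 : 0 ≤ a := Real.sqrt_nonneg _
  have hb0 : 0 ≤ b := Real.sqrt_nonneg _
  have h1 : ∀ i j, nrm (pd j (fun y => v y i)) ≤ a := by
    intro i j
    refine Real.sqrt_le_sqrt ?_
    unfold enstrophy
    refine le_trans ?_ (Finset.single_le_sum
      (f := fun i => ∑ j, ∫ x in cube, pd j (fun y => v y i) x ^ 2)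
      (fun i _ => Finset.sum_nonneg fun j _ => integral_nonneg fun x => sq_nonneg _)
      (Finset.mem_univ i))
    exact Finset.single_le_sum (f := fun j => ∫ x in cube, pd j (fun y => v y i) x ^ 2)
      (fun j _ => integral_nonneg fun x => sq_nonneg _) (Finset.mem_univ j)
  have h2 : ∀ i m, grd (pd m (fun y => v y i)) ≤ Real.sqrt 3 * b := by
    intro i m
    rw [hb, ← Real.sqrt_mul (by norm_num)]
    unfold grd
    refine Real.sqrt_le_sqrt ?_
    have h3 : ∀ j, ∫ x in cube, pd j (pd m (fun y => v y i)) x ^ 2 ≤ palin v := by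
      intro j
      have h4 := nrm_pd_pd_le (hv i) j m
      have h5 := pow_le_pow_left₀ (nrm_nonneg _) h4 2
      rw [nrm_sq, nrm_sq] at h5
      refine h5.trans ?_
      unfold palin
      exact Finset.single_le_sum (f := fun i => ∫ x in cube, lap (fun y => v y i) x ^ 2)
        (fun i _ => integral_nonneg fun x => sq_nonneg _) (Finset.mem_univ i)
    calc ∑ j, ∫ x in cube, pd j (pd m (fun y => v y i)) x ^ 2 ≤ ∑ _j : Fin 3, palin v :=
          Finset.sum_le_sum fun j _ => h3 j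
      _ = 3 * palin v := by simp
  have h3 : ∀ i j m, |∫ x in cube, pd m (fun y => v y i) x * (pd i (fun y => v y j) x
      * pd m (fun y => v y j) x)| ≤ C * 3 * (b * (a * Real.sqrt (a * b))) := by
    intro i j m
    have h4 := hC _ _ _ ((hv i).pd m) ((hv j).pd i) ((hv j).pd m) (int_pd_zero (hv i) m)
      (int_pd_zero (hv j) m)
    refine h4.trans ?_
    rw [mul_assoc]
    refine mul_le_mul_of_nonneg_left ?_ hC0
    have h5 : Real.sqrt (nrm (pd m (fun y => v y j)) * grd (pd m (fun y => v y j)))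
        ≤ Real.sqrt (Real.sqrt 3) * Real.sqrt (a * b) := by
      rw [← Real.sqrt_mul (by positivity)]
      refine Real.sqrt_le_sqrt ?_
      calc _ ≤ a * (Real.sqrt 3 * b) :=
            mul_le_mul (h1 j m) (h2 j m) (grd_nonneg _) ha0
        _ = _ := by ring
    have h6 : Real.sqrt 3 * Real.sqrt (Real.sqrt 3) ≤ 3 := by
      have a1 : Real.sqrt 3 ≤ 2 := by
        rw [Real.sqrt_le_left (by norm_num)]
        norm_num
      have a2 : Real.sqrt (Real.sqrt 3) ≤ 3 / 2 := by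
        rw [Real.sqrt_le_left (by norm_num)]
        linarith
      calc Real.sqrt 3 * Real.sqrt (Real.sqrt 3) ≤ 2 * (3 / 2) :=
            mul_le_mul a1 a2 (Real.sqrt_nonneg _) (by norm_num)
        _ = 3 := by norm_num
    calc grd (pd m (fun y => v y i)) * (nrm (pd i (fun y => v y j))
          * Real.sqrt (nrm (pd m (fun y => v y j)) * grd (pd m (fun y => v y j))))
        ≤ Real.sqrt 3 * b * (a * (Real.sqrt (Real.sqrt 3) * Real.sqrt (a * b))) :=
          mul_le_mul (h2 i m) (mul_le_mul (h1 j i) h5 (Real.sqrt_nonneg _) ha0)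
            (mul_nonneg (nrm_nonneg _) (Real.sqrt_nonneg _)) (by positivity)
      _ = Real.sqrt 3 * Real.sqrt (Real.sqrt 3) * (b * (a * Real.sqrt (a * b))) := by ring
      _ ≤ 3 * (b * (a * Real.sqrt (a * b))) := mul_le_mul_of_nonneg_right h6 (by positivity)
  set q := b * (a * Real.sqrt (a * b)) with hq
  have hq0 : 0 ≤ q := by positivity
  have h4 : |cub (fun i y => v y i)| ≤ ∑ _i : Fin 3, ∑ _j : Fin 3, ∑ _m : Fin 3, C * 3 * q := by
    unfold cub
    refine (Finset.abs_sum_le_sum_abs _ _).trans (Finset.sum_le_sum fun i _ => ?_)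
    refine (Finset.abs_sum_le_sum_abs _ _).trans (Finset.sum_le_sum fun j _ => ?_)
    refine (Finset.abs_sum_le_sum_abs _ _).trans (Finset.sum_le_sum fun m _ => ?_)
    exact h3 i j m
  refine h4.trans ?_
  simp only [Finset.sum_const, Finset.card_univ, Fintype.card_fin, nsmul_eq_mul]
  push_cast
  nlinarith

/-- Young's inequality. -/
theorem young_cub {ν C a b : ℝ} (hν : 0 < ν) (hC : 0 < C) (ha : 0 ≤ a) (hb : 0 ≤ b) :
    C * (b * (a * Real.sqrt (a * b))) ≤ ν * b ^ 2 + C ^ 4 / ν ^ 3 * (a ^ 2) ^ 3 := by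
  set x := Real.sqrt (a * b) with hx
  have hx0 : 0 ≤ x := Real.sqrt_nonneg _
  have hxx : x ^ 2 = a * b := Real.sq_sqrt (by positivity)
  have e1 : C * (b * (a * x)) = C * x ^ 3 := by
    have : x ^ 3 = x ^ 2 * x := by ring
    rw [this, hxx]
    ring
  rw [e1]
  have p1 : 0 ≤ ν * b ^ 2 := by positivity
  have p2 : 0 ≤ C ^ 4 / ν ^ 3 * (a ^ 2) ^ 3 := by positivity
  rcases le_or_gt (C * a ^ 2) (ν * x) with h | h
  · have h1 : C * x ^ 3 ≤ ν * b ^ 2 := by
      rcases ha.eq_or_lt with h0 | h0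
      · rw [← h0] at hxx
        have hx' : x = 0 := by
          have : x ^ 2 = 0 := by rw [hxx]; ring
          exact pow_eq_zero_iff (two_ne_zero) |>.1 this
        rw [hx']
        simpa using p1
      · have h2 : C * x ^ 3 * a ^ 2 ≤ ν * b ^ 2 * a ^ 2 := by
          calc C * x ^ 3 * a ^ 2 = (C * a ^ 2) * x ^ 3 := by ring
            _ ≤ (ν * x) * x ^ 3 := mul_le_mul_of_nonneg_right h (by positivity)
            _ = ν * (x ^ 2) ^ 2 := by ring
            _ = ν * b ^ 2 * a ^ 2 := by rw [hxx]; ring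
        exact le_of_mul_le_mul_right h2 (by positivity)
    linarith
  · have h1 : C * x ^ 3 ≤ C ^ 4 / ν ^ 3 * (a ^ 2) ^ 3 := by
      have h2 : (ν * x) ^ 3 ≤ (C * a ^ 2) ^ 3 := pow_le_pow_left₀ (by positivity) h.le 3
      have h3 : C ^ 4 / ν ^ 3 * (a ^ 2) ^ 3 = C / ν ^ 3 * (C * a ^ 2) ^ 3 := by ring
      have h4 : C * x ^ 3 = C / ν ^ 3 * (ν * x) ^ 3 := by field_simp
      rw [h3, h4]
      exact mul_le_mul_of_nonneg_left h2 (by positivity)
    linarith

/-- The bound of the production. -/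
theorem prod_cub : ∃ C : ℝ, 0 < C ∧ ∀ ν : ℝ, 0 < ν → ∀ v : V → V, (∀ i, SP (fun x => v x i)) →
    -(2 * cub (fun i y => v y i)) ≤ ν * palin v + C / ν ^ 3 * enstrophy v ^ 3 := by
  obtain ⟨C, hC0, hC⟩ := cub_le
  refine ⟨(2 * C) ^ 4, by positivity, fun ν hν v hv => ?_⟩
  have h1 := (abs_le.1 (hC v hv)).1
  have h2 := young_cub hν (by positivity : 0 < 2 * C) (Real.sqrt_nonneg (enstrophy v))
    (Real.sqrt_nonneg (palin v))
  rw [Real.sq_sqrt (enstrophy_nonneg v), Real.sq_sqrt (palin_nonneg v)] at h2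
  linarith

theorem inv_sq_deriv {y : ℝ} (hy : 0 < y + 1) :
    HasDerivAt (fun y : ℝ => -(1 / (y + 1) ^ 2)) (2 / (y + 1) ^ 3) y := by
  have h1 : HasDerivAt (fun y : ℝ => y + 1) 1 y := (hasDerivAt_id y).add_const 1
  have h2 : HasDerivAt (fun y : ℝ => (y + 1) ^ 2) (2 * (y + 1)) y := by
    have := h1.pow 2
    refine (this : HasDerivAt (fun y : ℝ => (y + 1) ^ 2) _ y).congr_deriv ?_
    simp
  have h3 := (h2.inv (pow_pos hy 2).ne').neg
  have e : (fun y : ℝ => -(1 / (y + 1) ^ 2)) = fun y : ℝ => -((y + 1) ^ 2)⁻¹ := by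
    funext y
    rw [one_div]
  rw [e]
  refine (h3 : HasDerivAt (fun y : ℝ => -((y + 1) ^ 2)⁻¹) _ y).congr_deriv ?_
  field_simp

variable {ν T : ℝ} {u : ℝ → V → V} {p : ℝ → V → ℝ}

/-- The rate of blow-up: if the enstrophy is below the critical rate at one time, then it is
bounded. -/
theorem rate (h : IsSol ν T u p) {Γ : ℝ} (hΓ : 0 ≤ Γ)
    (hcub : ∀ t ∈ Ioo 0 T, -(2 * ν * palin (u t)) - 2 * cub (fun i y => u t y i)
      ≤ Γ * enstrophy (u t) ^ 3) {t0 : ℝ} (ht0 : t0 ∈ Ico 0 T)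
    (hsm : (enstrophy (u t0) + 1) ^ 2 * (2 * Γ * (T - t0)) < 1) :
    ∃ A, ∀ t ∈ Ico 0 T, enstrophy (u t) ≤ A := by
  have hy0 : ∀ s, 0 ≤ enstrophy (u s) := fun s => enstrophy_nonneg _
  -- the time interval up to `t0`
  have hc0 : ContinuousOn (fun s => enstrophy (u s)) (Icc 0 t0) :=
    h.enstrophy_continuousOn.mono fun s hs => ⟨hs.1, hs.2.trans_lt ht0.2⟩
  obtain ⟨A0, hA0⟩ := isCompact_Icc.exists_bound_of_continuousOn hc0
  set z0 : ℝ := 1 / (enstrophy (u t0) + 1) ^ 2 with hz0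
  have hp0 : 0 < enstrophy (u t0) + 1 := by linarith [hy0 t0]
  set d : ℝ := z0 - 2 * Γ * (T - t0) with hd
  have hd0 : 0 < d := by
    rw [hd, hz0, sub_pos, lt_div_iff₀ (by positivity)]
    linarith
  refine ⟨max A0 (1 / Real.sqrt d), fun t ht => ?_⟩
  rcases le_or_gt t t0 with htt | htt
  · have h1 := hA0 t ⟨ht.1, htt⟩
    rw [Real.norm_eq_abs, abs_of_nonneg (hy0 t)] at h1
    exact h1.trans (le_max_left _ _)
  · refine le_trans ?_ (le_max_right _ _)
    set f : ℝ → ℝ := fun s => -(1 / (enstrophy (u s) + 1) ^ 2) with hf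
    have hpos : ∀ s, 0 < enstrophy (u s) + 1 := fun s => by linarith [hy0 s]
    have hc : ContinuousOn f (Icc t0 t) := by
      have h1 : ContinuousOn (fun s => enstrophy (u s)) (Icc t0 t) :=
        h.enstrophy_continuousOn.mono fun s hs => ⟨ht0.1.trans hs.1, hs.2.trans_lt ht.2⟩
      exact (continuousOn_const.div ((h1.add continuousOn_const).pow 2)
        fun s _ => (pow_pos (hpos s) 2).ne').neg
    have hder : ∀ s ∈ Ioo t0 t, HasDerivAt f
        (2 * (-(2 * ν * palin (u s)) - 2 * cub (fun i y => u s y i))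
          / (enstrophy (u s) + 1) ^ 3) s := by
      intro s hs
      have h1 := h.enstrophy_hasDerivAt ⟨ht0.1.trans_lt hs.1, hs.2.trans ht.2⟩
      have h2 := (inv_sq_deriv (hpos s)).comp s h1
      refine (h2 : HasDerivAt f _ s).congr_deriv ?_
      ring
    have hle : ∀ s ∈ Ioo t0 t, 2 * (-(2 * ν * palin (u s)) - 2 * cub (fun i y => u s y i))
          / (enstrophy (u s) + 1) ^ 3 ≤ 2 * Γ := by
      intro s hs
      rw [div_le_iff₀ (pow_pos (hpos s) 3)]
      have h1 := hcub s ⟨ht0.1.trans_lt hs.1, hs.2.trans ht.2⟩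
      have h2 : enstrophy (u s) ^ 3 ≤ (enstrophy (u s) + 1) ^ 3 :=
        pow_le_pow_left₀ (hy0 s) (by linarith) 3
      have h3 := mul_le_mul_of_nonneg_left h2 hΓ
      linarith
    have h1 := intervalIntegral.sub_le_integral_of_hasDeriv_right_of_le htt.le hc
      (fun s hs => (hder s hs).hasDerivWithinAt) (φ := fun _ => 2 * Γ)
      (continuousOn_const.integrableOn_Icc) hle
    rw [intervalIntegral.integral_const, smul_eq_mul] at h1
    have h2 : (t - t0) * (2 * Γ) ≤ 2 * Γ * (T - t0) := by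
      have := ht.2
      nlinarith
    have h3 : d ≤ 1 / (enstrophy (u t) + 1) ^ 2 := by
      simp only [hf] at h1
      rw [hd, hz0]
      linarith
    have h4 : (enstrophy (u t) + 1) ^ 2 ≤ 1 / d := by
      rw [le_div_iff₀ hd0]
      rw [le_div_iff₀ (pow_pos (hpos t) 2)] at h3
      linarith
    have h5 : enstrophy (u t) + 1 ≤ Real.sqrt (1 / d) := by
      refine (le_abs_self _).trans (Real.abs_le_sqrt h4)
    rw [Real.sqrt_div zero_le_one, Real.sqrt_one] at h5
    linarith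

end Pool.Agent.R211.CE
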