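import Pool.Agent.R211.CE.Fix2
import Pool.Agent.R211.CE.Crit

/-!
The criterion at the critical scale, with the linear smallness of the sine.
-/

open MeasureTheory Set Metric Filter Topology
open scoped ContDiff ENNReal
open H459R3.NS Pool.Agent.R210 Pool.Agent.R211.CD

namespace Pool.Agent.R211.CE

variable {ν T : ℝ} {u : ℝ → V → V} {p : ℝ → V → ℝ}

/-- The criterion. -/
theorem crit_en2 {σ : ℝ} (hσ : 0 < σ) (hσ1 : σ ≤ 1) (h : IsSol ν T u p) (hν : 0 < ν) {B c : ℝ}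
    {g : ℝ → ℝ} (hc1 : c ≤ ds σ) (hc2 : D3 σ * c ≤ 1 / 4)
    (hgi : ∀ t ∈ Ioo 0 T, IntervalIntegrable g volume 0 t)
    (hgB : ∀ t ∈ Ioo 0 T, ∫ s in (0 : ℝ)..t, g s ≤ B - c * Real.log (T - t))
    (hosc : ∀ᵐ t ∂volume.restrict (Ioo 0 T), ∃ K R η Γ : ℝ, 0 < K ∧ 0 < η ∧ η ≤ R ∧ R ≤ 1 ∧
      rate1 ν K R η Γ (LL (energy (u 0)) K R) ≤ g t ∧
      Cone (cu (u t)) K σ R ∧
      (∀ x, circ (cu (u t)) K η x ≤ Γ) ∧ SinC (cu (u t)) ν K c η) :
    (∃ A, ∀ t ∈ Ico 0 T, enstrophy (u t) ≤ A) ∧ ∃ M, ∀ t ∈ Ico 0 T, ∀ x i, |u t x i| ≤ M := by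
  classical
  rcases le_or_gt T 0 with hT | hT
  · have : Ico 0 T = ∅ := Ico_eq_empty (by linarith)
    rw [this]
    exact ⟨⟨0, fun t ht => absurd ht (notMem_empty t)⟩, ⟨0, fun t ht => absurd ht (notMem_empty t)⟩⟩
  have hC1 := D3_pos hσ
  set Q := energy (u 0) with hQ
  have hy0 : ∀ s, 0 ≤ enstrophy (u s) := fun s => enstrophy_nonneg _
  set P : ℝ → Prop := fun t => ∃ K R η Γ : ℝ, 0 < K ∧ 0 < η ∧ η ≤ R ∧ R ≤ 1 ∧
      rate1 ν K R η Γ (LL Q K R) ≤ g t ∧ Cone (cu (u t)) K σ R ∧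
      (∀ x, circ (cu (u t)) K η x ≤ Γ) ∧ SinC (cu (u t)) ν K c η with hP
  have hMex : ∀ s, ∃ M : ℝ, s ∈ Ioo 0 T → 0 ≤ M ∧
      -(2 * cub (fun i y => u s y i)) ≤ M * enstrophy (u s) := by
    intro s
    by_cases hs : s ∈ Ioo 0 T
    · obtain ⟨M, hM1, hM2⟩ := cub_bound (v := u s) fun i => h.sp ⟨hs.1.le, hs.2⟩ i
      exact ⟨M, fun _ => ⟨hM1, hM2⟩⟩
    · exact ⟨0, fun h => absurd h hs⟩
  choose M hM using hMex
  set G : ℝ → ℝ := fun s => if P s then D3 σ * g s else M s with hG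
  have hgood : ∀ s ∈ Ioo 0 T, P s → 0 ≤ D3 σ * g s ∧
      -(2 * cub (fun i y => u s y i)) ≤ ν * palin (u s) + D3 σ * g s * enstrophy (u s) := by
    intro s hs hPs
    have hI : s ∈ Ico 0 T := ⟨hs.1.le, hs.2⟩
    obtain ⟨K, R, η, Γ, hK, hη, hηR, hR1, hg1, ho1, hoΓ, ho2⟩ := hPs
    have hR0 : 0 < R := hη.trans_le hηR
    have hL := LL_pos (Q := Q) hK hR0
    have hΓ : 0 < Γ := (circ_pos hK hη 0).trans_le (hoΓ 0)
    have hrt := rt_pos hΓ hL
    have hq : 0 < rate1 ν K R η Γ (LL Q K R) := by unfold rate1; positivity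
    have ho3 : SinC (cu (u s)) ν K (ds σ) η := fun x y hx hy hxy =>
      (ho2 x y hx hy hxy).trans (mul_le_mul_of_nonneg_right
        (mul_le_mul_of_nonneg_right hc1 (sl_pos (div_pos hν (circ_pos hK hη x))).le)
        (mul_nonneg (en_nonneg _) (en_nonneg _)))
    have h1 := fix_en2 hν hK hσ hσ1 (fun i => h.sp hI i) (h.divfree s hI) hη hηR hR1
      (h.energy_le hν hI) ho1 hoΓ ho3
    have h2 : D3 σ * rate1 ν K R η Γ (LL Q K R) ≤ D3 σ * g s :=
      mul_le_mul_of_nonneg_left hg1 hC1.le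
    have h3 : D3 σ * rate1 ν K R η Γ (LL Q K R) * enstrophy (u s)
        ≤ D3 σ * g s * enstrophy (u s) := mul_le_mul_of_nonneg_right h2 (hy0 s)
    exact ⟨mul_nonneg hC1.le (hq.le.trans hg1), by linarith⟩
  -- the growth of the enstrophy
  have hsub : ∀ t ∈ Ioo 0 T, Ioc 0 t ⊆ Ioo 0 T := fun t ht s hs => ⟨hs.1, hs.2.trans_lt ht.2⟩
  have hgr : ∀ t ∈ Ioo 0 T, T - t ≤ 1 → enstrophy (u t)
      ≤ enstrophy (u 0) * Real.exp (D3 σ * B) * Real.exp (-(1 / 4) * Real.log (T - t)) := by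
    intro t ht htT
    have hI : t ∈ Ico 0 T := ⟨ht.1.le, ht.2⟩
    have i1 : IntegrableOn g (Ioc 0 t) :=
      (intervalIntegrable_iff_integrableOn_Ioc_of_le ht.1.le).1 (hgi t ht)
    have i2 : IntegrableOn (fun s => D3 σ * g s) (Ioc 0 t) := i1.const_mul _
    have hgae : (fun s => D3 σ * g s) =ᵐ[volume.restrict (Ioc 0 t)] G := by
      have h1 : ∀ᵐ s ∂volume.restrict (Ioc 0 t), P s :=
        ae_mono (Measure.restrict_mono (hsub t ht) le_rfl) hosc
      filter_upwards [h1] with s hs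
      simp only [hG, if_pos hs]
    have i4 : IntegrableOn G (Icc 0 t) := by
      rw [integrableOn_Icc_iff_integrableOn_Ioc]
      exact i2.congr hgae
    have hlog : Real.log (T - t) ≤ 0 := Real.log_nonpos (by linarith [ht.2]) htT
    have hint : ∫ s in (0 : ℝ)..t, G s ≤ D3 σ * B + (-(1 / 4) * Real.log (T - t)) := by
      rw [intervalIntegral.integral_of_le ht.1.le, ← integral_congr_ae hgae, integral_const_mul]
      have h1 := hgB t ht
      rw [intervalIntegral.integral_of_le ht.1.le] at h1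
      have h2 := mul_le_mul_of_nonneg_left h1 hC1.le
      have h4 : D3 σ * c * (-Real.log (T - t)) ≤ 1 / 4 * (-Real.log (T - t)) :=
        mul_le_mul_of_nonneg_right hc2 (by linarith)
      linarith
    have h1 := h.gron_enstrophy hI (g := G) (fun s hs => ?_) i4 hint fun s hs => ?_
    · rw [Real.exp_add] at h1
      refine h1.trans (le_of_eq ?_)
      ring
    · have hs' : s ∈ Ioo 0 T := ⟨hs.1, hs.2.trans ht.2⟩
      simp only [hG]
      split_ifs with hPs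
      · exact (hgood s hs' hPs).1
      · exact (hM s hs').1
    · have hs' : s ∈ Ioo 0 T := ⟨hs.1, hs.2.trans ht.2⟩
      have hp := mul_nonneg hν.le (palin_nonneg (u s))
      simp only [hG]
      split_ifs with hPs
      · have := (hgood s hs' hPs).2
        linarith
      · have h1 := (hM s hs').2
        linarith
  -- the rate
  obtain ⟨C, hC0, hC⟩ := prod_cub
  set Γ : ℝ := C / ν ^ 3 with hΓ
  have hΓ0 : 0 < Γ := by positivity
  have hcub : ∀ t ∈ Ioo 0 T, -(2 * cub (fun i y => u t y i))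
      ≤ ν * palin (u t) + Γ * enstrophy (u t) ^ 3 := fun t ht =>
    hC ν hν (u t) fun i => h.sp ⟨ht.1.le, ht.2⟩ i
  obtain ⟨δ, hδ0, hδT, hδ1, hδ⟩ := small_time
    (A := enstrophy (u 0) * Real.exp (D3 σ * B)) (Γ := Γ) (T := T)
    hΓ0 hT
  have ht0 : T - δ ∈ Ioo 0 T := ⟨by linarith, by linarith⟩
  have hsm := hδ (enstrophy (u (T - δ))) (hy0 _) (by
    have := hgr (T - δ) ht0 (by linarith)
    rwa [sub_sub_cancel] at this)
  obtain ⟨A, hA⟩ := rate h hΓ0.le (fun t ht => by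
    have h1 := hcub t ht
    have h2 := mul_nonneg hν.le (palin_nonneg (u t))
    linarith) (t0 := T - δ) ⟨ht0.1.le, ht0.2⟩ (by rw [sub_sub_cancel]; exact hsm)
  have hA0 : 0 ≤ A := (hy0 0).trans (hA 0 ⟨le_rfl, hT⟩)
  refine ⟨⟨A, hA⟩, ?_⟩
  have hEc : ∀ t ∈ Ico 0 T, ContinuousOn (fun s => Γ * enstrophy (u s) ^ 2) (Icc 0 t) :=
    fun t ht => continuousOn_const.mul ((h.enstrophy_continuousOn.mono
      fun s hs => ⟨hs.1, hs.2.trans_lt ht.2⟩).pow 2)
  refine (h.gron hν (g := fun s => Γ * enstrophy (u s) ^ 2) (B := Γ * A ^ 2 * T) (δ := 1)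
    one_pos (fun s _ => by positivity) (fun t ht => (hEc t ht).integrableOn_Icc)
    (fun t ht => ?_) fun s hs => ?_).2
  · have h1 : ∀ s ∈ Icc 0 t, Γ * enstrophy (u s) ^ 2 ≤ Γ * A ^ 2 := fun s hs =>
      mul_le_mul_of_nonneg_left (pow_le_pow_left₀ (hy0 s)
        (hA s ⟨hs.1, hs.2.trans_lt ht.2⟩) 2) hΓ0.le
    have i5 : IntervalIntegrable (fun _ : ℝ => Γ * A ^ 2) volume 0 t := intervalIntegrable_const
    have h2 := intervalIntegral.integral_mono_on ht.1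
      ((hEc t ht).intervalIntegrable_of_Icc ht.1) i5 h1
    rw [intervalIntegral.integral_const, smul_eq_mul, sub_zero] at h2
    have h3 : t * (Γ * A ^ 2) ≤ Γ * A ^ 2 * T := by
      rw [mul_comm]
      exact mul_le_mul_of_nonneg_left ht.2.le (by positivity)
    linarith
  · have h1 := hcub s hs
    have e1 : Γ * enstrophy (u s) ^ 2 * enstrophy (u s) = Γ * enstrophy (u s) ^ 3 := by ring
    rw [e1]
    linarith

end Pool.Agent.R211.CE
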