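import Pool.Agent.R211.CE.Exc

/-!
The criterion with an exceptional set of times.
-/

open MeasureTheory Set Metric Filter Topology
open scoped ContDiff ENNReal
open H459R3.NS Pool.Agent.R210 Pool.Agent.R211.CD

namespace Pool.Agent.R211.CE

variable {ν T : ℝ} {u : ℝ → V → V} {p : ℝ → V → ℝ}

/-- The criterion. -/
theorem crit_en3 {σ : ℝ} (hσ : 0 < σ) (hσ1 : σ ≤ 1) (h : IsSol ν T u p) (hν : 0 < ν)
    {B c ε θ : ℝ} {g : ℝ → ℝ} (hc0 : 0 ≤ c) (hc1 : c ≤ ds σ) (hc2 : D3 σ * c ≤ ε) (hε : 0 < ε)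
    (hε4 : ε ≤ 1 / 4) (hεθ : 2 * ε ≤ θ) (hg0 : ∀ t ∈ Ioo 0 T, 0 ≤ g t)
    (hgi : ∀ t ∈ Ioo 0 T, IntervalIntegrable g volume 0 t)
    (hgB : ∀ t ∈ Ioo 0 T, ∫ s in (0 : ℝ)..t, g s ≤ B - c * Real.log (T - t))
    {Z : Set ℝ} (hZ : MeasurableSet Z)
    (hZi : IntegrableOn (fun s => (T - s) ^ (-(2 + θ))) (Z ∩ Ioo 0 T))
    (hosc : ∀ᵐ t ∂volume.restrict (Ioo 0 T), t ∈ Z ∨ ∃ K R η Γ : ℝ, 0 < K ∧ 0 < η ∧ η ≤ R ∧ R ≤ 1 ∧
      rate1 ν K R η Γ (LL (energy (u 0)) K R) ≤ g t ∧ Cone (cu (u t)) K σ R ∧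
      (∀ x, circ (cu (u t)) K η x ≤ Γ) ∧ SinC (cu (u t)) ν K c η) :
    (∃ A, ∀ t ∈ Ico 0 T, enstrophy (u t) ≤ A) ∧ ∃ M, ∀ t ∈ Ico 0 T, ∀ x i, |u t x i| ≤ M := by
  classical
  rcases le_or_gt T 0 with hT | hT
  · have : Ico 0 T = ∅ := Ico_eq_empty (by linarith)
    rw [this]
    exact ⟨⟨0, fun t ht => absurd ht (notMem_empty t)⟩, ⟨0, fun t ht => absurd ht (notMem_empty t)⟩⟩
  have hC1 := D3_pos hσ
  set Q := energy (u 0) with hQ
  have hy0 : ∀ s, 0 ≤ enstrophy (u s) := fun s => enstrophy_nonneg _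
  set P : ℝ → Prop := fun t => ∃ K R η Γ : ℝ, 0 < K ∧ 0 < η ∧ η ≤ R ∧ R ≤ 1 ∧
      rate1 ν K R η Γ (LL Q K R) ≤ g t ∧ Cone (cu (u t)) K σ R ∧
      (∀ x, circ (cu (u t)) K η x ≤ Γ) ∧ SinC (cu (u t)) ν K c η with hP
  have hMex : ∀ s, ∃ M : ℝ, s ∈ Ioo 0 T → 0 ≤ M ∧
      -(2 * cub (fun i y => u s y i)) ≤ M * enstrophy (u s) := by
    intro s
    by_cases hs : s ∈ Ioo 0 T
    · obtain ⟨M, hM1, hM2⟩ := cub_bound (v := u s) fun i => h.sp ⟨hs.1.le, hs.2⟩ i
      exact ⟨M, fun _ => ⟨hM1, hM2⟩⟩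
    · exact ⟨0, fun h => absurd h hs⟩
  choose M hM using hMex
  obtain ⟨C, hC0, hC⟩ := prod_cub
  set Γ0 : ℝ := C / ν ^ 3 with hΓ
  have hΓ0 : 0 < Γ0 := by positivity
  have hcub : ∀ t ∈ Ioo 0 T, -(2 * cub (fun i y => u t y i))
      ≤ ν * palin (u t) + Γ0 * enstrophy (u t) ^ 3 := fun t ht =>
    hC ν hν (u t) fun i => h.sp ⟨ht.1.le, ht.2⟩ i
  have hgood : ∀ s ∈ Ioo 0 T, P s → 0 ≤ D3 σ * g s ∧
      -(2 * cub (fun i y => u s y i)) ≤ ν * palin (u s) + D3 σ * g s * enstrophy (u s) := by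
    intro s hs hPs
    have hI : s ∈ Ico 0 T := ⟨hs.1.le, hs.2⟩
    obtain ⟨K, R, η, Γ, hK, hη, hηR, hR1, hg1, ho1, hoΓ, ho2⟩ := hPs
    have hR0 : 0 < R := hη.trans_le hηR
    have hL := LL_pos (Q := Q) hK hR0
    have hΓ : 0 < Γ := (circ_pos hK hη 0).trans_le (hoΓ 0)
    have hrt := rt_pos hΓ hL
    have hq : 0 < rate1 ν K R η Γ (LL Q K R) := by unfold rate1; positivity
    have ho3 : SinC (cu (u s)) ν K (ds σ) η := fun x y hx hy hxy =>
      (ho2 x y hx hy hxy).trans (mul_le_mul_of_nonneg_right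
        (mul_le_mul_of_nonneg_right hc1 (sl_pos (div_pos hν (circ_pos hK hη x))).le)
        (mul_nonneg (en_nonneg _) (en_nonneg _)))
    have h1 := fix_en2 hν hK hσ hσ1 (fun i => h.sp hI i) (h.divfree s hI) hη hηR hR1
      (h.energy_le hν hI) ho1 hoΓ ho3
    have h2 : D3 σ * rate1 ν K R η Γ (LL Q K R) ≤ D3 σ * g s :=
      mul_le_mul_of_nonneg_left hg1 hC1.le
    have h3 : D3 σ * rate1 ν K R η Γ (LL Q K R) * enstrophy (u s)
        ≤ D3 σ * g s * enstrophy (u s) := mul_le_mul_of_nonneg_right h2 (hy0 s)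
    exact ⟨mul_nonneg hC1.le (hq.le.trans hg1), by linarith⟩
  set G : ℝ → ℝ := fun s => if s ∈ Z then Γ0 * enstrophy (u s) ^ 2
    else if P s then D3 σ * g s else M s with hG
  have hGae : G =ᵐ[volume.restrict (Ioo 0 T)] fun s =>
      Z.indicator (fun s => Γ0 * enstrophy (u s) ^ 2) s + Zᶜ.indicator (fun s => D3 σ * g s) s := by
    filter_upwards [hosc] with s hs
    by_cases hsZ : s ∈ Z
    · simp only [hG, if_pos hsZ]
      rw [indicator_of_mem hsZ, indicator_of_notMem (show s ∉ Zᶜ from fun h => h hsZ), add_zero]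
    · have hPs : P s := hs.resolve_left hsZ
      simp only [hG, if_neg hsZ, if_pos hPs]
      rw [indicator_of_notMem hsZ, indicator_of_mem (show s ∈ Zᶜ from hsZ), zero_add]
  have hZi2 : IntegrableOn (fun s => (T - s) ^ (-(2 + 2 * ε))) (Z ∩ Ioo 0 T) := by
    have hm : MeasurableSet (Z ∩ Ioo 0 T) := hZ.inter measurableSet_Ioo
    refine Integrable.mono' (hZi.const_mul (T ^ (θ - 2 * ε))) ?_ ?_
    · have hc : ContinuousOn (fun s => (T - s) ^ (-(2 + 2 * ε))) (Ioo 0 T) := by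
        refine ContinuousOn.rpow_const (by fun_prop) fun s hs => Or.inl ?_
        have : 0 < T - s := by linarith [hs.2]
        exact this.ne'
      exact (hc.aestronglyMeasurable measurableSet_Ioo).mono_measure
        (Measure.restrict_mono inter_subset_right le_rfl)
    · filter_upwards [ae_restrict_mem hm] with s hs
      have hsT : 0 < T - s := by linarith [hs.2.2]
      rw [Real.norm_eq_abs, abs_of_nonneg (Real.rpow_nonneg hsT.le _)]
      have e1 : (T - s) ^ (-(2 + 2 * ε)) = (T - s) ^ (θ - 2 * ε) * (T - s) ^ (-(2 + θ)) := by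
        rw [← Real.rpow_add hsT]
        congr 1
        ring
      rw [e1]
      refine mul_le_mul_of_nonneg_right ?_ (Real.rpow_nonneg hsT.le _)
      exact Real.rpow_le_rpow hsT.le (by linarith [hs.2.1]) (by linarith)
  obtain ⟨A, δ, hδ, hδT, hA⟩ := exc h hν hT (Γ := Γ0) (ε := ε) (a := fun s => D3 σ * g s) (G := G)
    (B := D3 σ * B + ε * |Real.log T|) hΓ0 hε (fun s hs => mul_nonneg hC1.le (hg0 s hs))
    (fun t ht => ((intervalIntegrable_iff_integrableOn_Ioc_of_le ht.1.le).1 (hgi t ht)).const_mul _)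
    (fun t ht => by
      rw [integral_const_mul]
      have h1 := hgB t ht
      rw [intervalIntegral.integral_of_le ht.1.le] at h1
      have h2 := mul_le_mul_of_nonneg_left h1 hC1.le
      have h3 : D3 σ * c * (-Real.log (T - t))
          ≤ ε * (-Real.log (T - t)) + ε * |Real.log T| := by
        have h6 := le_abs_self (Real.log T)
        rcases le_or_gt (Real.log (T - t)) 0 with h4 | h4
        · have h5 : D3 σ * c * (-Real.log (T - t)) ≤ ε * (-Real.log (T - t)) :=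
            mul_le_mul_of_nonneg_right hc2 (by linarith)
          have h7 : 0 ≤ ε * |Real.log T| := by positivity
          linarith
        · have h5 : 0 ≤ D3 σ * c * Real.log (T - t) := by positivity
          have h7 : Real.log (T - t) ≤ |Real.log T| :=
            (Real.log_le_log (by linarith [ht.2]) (by linarith [ht.1])).trans h6
          have h8 := mul_le_mul_of_nonneg_left h7 hε.le
          linarith
      linarith)
    hZ hZi2 (fun s hs => by
      simp only [hG]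
      split_ifs with h1 h2
      · positivity
      · exact (hgood s hs h2).1
      · exact (hM s hs).1)
    (fun s hs => by
      have hp := mul_nonneg hν.le (palin_nonneg (u s))
      simp only [hG]
      split_ifs with h1 h2
      · have h3 := hcub s hs
        have e1 : Γ0 * enstrophy (u s) ^ 2 * enstrophy (u s) = Γ0 * enstrophy (u s) ^ 3 := by ring
        rw [e1]
        linarith
      · have := (hgood s hs h2).2
        linarith
      · have := (hM s hs).2
        linarith) hGae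
  obtain ⟨d, hd0, hdT, hd1, hd⟩ := small_time (A := A) (Γ := Γ0) (T := min T δ) hΓ0
    (lt_min hT hδ)
  have hdT' : d < T := hdT.trans_le (min_le_left _ _)
  have hdδ : d < δ := hdT.trans_le (min_le_right _ _)
  have ht0 : T - d ∈ Ioo 0 T := ⟨by linarith, by linarith⟩
  have hA0 : 0 ≤ A := by
    have h1 := hA (T - d) (by linarith) ht0.2
    have h2 : 0 < Real.exp (-ε * Real.log (T - (T - d))) := Real.exp_pos _
    by_contra hc
    push Not at hc
    have h3 := mul_neg_of_neg_of_pos hc h2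
    linarith [hy0 (T - d)]
  have hsm := hd (enstrophy (u (T - d))) (hy0 _) (by
    have h1 := hA (T - d) (by linarith) ht0.2
    rw [sub_sub_cancel] at h1
    refine h1.trans (mul_le_mul_of_nonneg_left (Real.exp_le_exp.2 ?_) hA0)
    have h2 : Real.log d ≤ 0 := Real.log_nonpos hd0.le hd1
    nlinarith)
  obtain ⟨A', hA'⟩ := rate h hΓ0.le (fun t ht => by
    have h1 := hcub t ht
    have h2 := mul_nonneg hν.le (palin_nonneg (u t))
    linarith) (t0 := T - d) ⟨ht0.1.le, ht0.2⟩ (by rw [sub_sub_cancel]; exact hsm)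
  have hA'0 : 0 ≤ A' := (hy0 0).trans (hA' 0 ⟨le_rfl, hT⟩)
  refine ⟨⟨A', hA'⟩, ?_⟩
  have hEc : ∀ t ∈ Ico 0 T, ContinuousOn (fun s => Γ0 * enstrophy (u s) ^ 2) (Icc 0 t) :=
    fun t ht => continuousOn_const.mul ((h.enstrophy_continuousOn.mono
      fun s hs => ⟨hs.1, hs.2.trans_lt ht.2⟩).pow 2)
  refine (h.gron hν (g := fun s => Γ0 * enstrophy (u s) ^ 2) (B := Γ0 * A' ^ 2 * T) (δ := 1)
    one_pos (fun s _ => by positivity) (fun t ht => (hEc t ht).integrableOn_Icc)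
    (fun t ht => ?_) fun s hs => ?_).2
  · have h1 : ∀ s ∈ Icc 0 t, Γ0 * enstrophy (u s) ^ 2 ≤ Γ0 * A' ^ 2 := fun s hs =>
      mul_le_mul_of_nonneg_left (pow_le_pow_left₀ (hy0 s)
        (hA' s ⟨hs.1, hs.2.trans_lt ht.2⟩) 2) hΓ0.le
    have i5 : IntervalIntegrable (fun _ : ℝ => Γ0 * A' ^ 2) volume 0 t := intervalIntegrable_const
    have h2 := intervalIntegral.integral_mono_on ht.1
      ((hEc t ht).intervalIntegrable_of_Icc ht.1) i5 h1
    rw [intervalIntegral.integral_const, smul_eq_mul, sub_zero] at h2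
    have h3 : t * (Γ0 * A' ^ 2) ≤ Γ0 * A' ^ 2 * T := by
      rw [mul_comm]
      exact mul_le_mul_of_nonneg_left ht.2.le (by positivity)
    linarith
  · have h1 := hcub s hs
    have e1 : Γ0 * enstrophy (u s) ^ 2 * enstrophy (u s) = Γ0 * enstrophy (u s) ^ 3 := by ring
    rw [e1]
    linarith

end Pool.Agent.R211.CE
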