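import Pool.Agent.R211.CE.Crit2

/-!
The growth of the enstrophy when a set of times is exceptional.
-/

open MeasureTheory Set Metric Filter Topology
open scoped ContDiff ENNReal
open H459R3.NS Pool.Agent.R210 Pool.Agent.R211.CD

namespace Pool.Agent.R211.CE

variable {ν T : ℝ} {u : ℝ → V → V} {p : ℝ → V → ℝ}

/-- The growth of the enstrophy from the time `t0`. -/
theorem gron_from (h : IsSol ν T u p) {g : ℝ → ℝ} {B t0 t : ℝ} (ht0 : 0 ≤ t0) (ht : t0 ≤ t)
    (htT : t < T) (hg0 : ∀ s ∈ Ioo t0 t, 0 ≤ g s) (hgi : IntegrableOn g (Icc t0 t))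
    (hgB : ∫ s in t0..t, g s ≤ B)
    (hd : ∀ s ∈ Ioo t0 t,
      -(2 * ν * palin (u s)) - 2 * cub (fun i y => u s y i) ≤ g s * enstrophy (u s)) :
    enstrophy (u t) ≤ enstrophy (u t0) * Real.exp B := by
  set y : ℝ → ℝ := fun s => enstrophy (u s) with hy
  have hy0 : ∀ s, 0 ≤ y s := fun s => enstrophy_nonneg _
  have hyc : ContinuousOn y (Icc t0 t) :=
    h.enstrophy_continuousOn.mono fun s hs => ⟨ht0.trans hs.1, hs.2.trans_lt htT⟩
  have hlog : ∀ ε : ℝ, 0 < ε → y t + ε ≤ (y t0 + ε) * Real.exp B := by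
    intro ε hε
    have hpos : ∀ s, 0 < y s + ε := fun s => by linarith [hy0 s]
    have hc : ContinuousOn (fun s => Real.log (y s + ε)) (Icc t0 t) :=
      (hyc.add continuousOn_const).log fun s _ => (hpos s).ne'
    have hd' : ∀ s ∈ Ioo t0 t, HasDerivWithinAt (fun s => Real.log (y s + ε))
        ((-(2 * ν * palin (u s)) - 2 * cub (fun i y => u s y i)) / (y s + ε)) (Ioi s) s := by
      intro s hs
      exact (((h.enstrophy_hasDerivAt ⟨ht0.trans_lt hs.1, hs.2.trans htT⟩).add_const ε).log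
        (hpos s).ne').hasDerivWithinAt
    have hle : ∀ s ∈ Ioo t0 t,
        (-(2 * ν * palin (u s)) - 2 * cub (fun i y => u s y i)) / (y s + ε) ≤ g s := by
      intro s hs
      rw [div_le_iff₀ (hpos s)]
      refine (hd s hs).trans ?_
      exact mul_le_mul_of_nonneg_left (by linarith) (hg0 s hs)
    have h1 := intervalIntegral.sub_le_integral_of_hasDeriv_right_of_le ht hc hd' hgi hle
    have h2 : Real.log (y t + ε) ≤ Real.log (y t0 + ε) + B := by linarith
    calc y t + ε = Real.exp (Real.log (y t + ε)) := (Real.exp_log (hpos t)).symm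
      _ ≤ Real.exp (Real.log (y t0 + ε) + B) := Real.exp_le_exp.2 h2
      _ = (y t0 + ε) * Real.exp B := by rw [Real.exp_add, Real.exp_log (hpos t0)]
  have hlim1 : Tendsto (fun ε : ℝ => y t + ε) (𝓝[>] 0) (𝓝 (y t + 0)) :=
    (tendsto_const_nhds.add tendsto_id).mono_left nhdsWithin_le_nhds
  have hlim2 : Tendsto (fun ε : ℝ => (y t0 + ε) * Real.exp B) (𝓝[>] 0)
      (𝓝 ((y t0 + 0) * Real.exp B)) :=
    ((tendsto_const_nhds.add tendsto_id).mul_const _).mono_left nhdsWithin_le_nhds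
  have := le_of_tendsto_of_tendsto hlim1 hlim2 (by
    filter_upwards [self_mem_nhdsWithin] with ε hε
    exact hlog ε hε)
  simpa using this

/-- There are times close to the final time at which the enstrophy is small compared with the
inverse of the time left. -/
theorem good_time (h : IsSol ν T u p) (hν : 0 < ν) (hT : 0 < T) {κ : ℝ} (hκ : 0 < κ) :
    ∃ δ0 : ℝ, 0 < δ0 ∧ δ0 < T ∧ ∀ δ : ℝ, 0 < δ → δ ≤ δ0 →
      ∃ t0 : ℝ, T - δ ≤ t0 ∧ t0 ≤ T - δ / 2 ∧ enstrophy (u t0) * δ ≤ 4 * κ := by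
  have hy0 : ∀ s, 0 ≤ enstrophy (u s) := fun s => enstrophy_nonneg _
  set F : ℝ → ℝ := fun t => ∫ s in (0 : ℝ)..t, enstrophy (u s) with hF
  have hFb : ∀ t ∈ Ico 0 T, F t ≤ energy (u 0) / (2 * ν) := fun t ht => h.int_enstrophy hν ht
  have hci : ∀ a b : ℝ, 0 ≤ a → a ≤ b → b < T →
      IntervalIntegrable (fun s => enstrophy (u s)) volume a b := by
    intro a b ha hab hb
    refine ContinuousOn.intervalIntegrable_of_Icc hab ?_
    exact h.enstrophy_continuousOn.mono fun s hs => ⟨ha.trans hs.1, hs.2.trans_lt hb⟩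
  have hadd : ∀ a b : ℝ, 0 ≤ a → a ≤ b → b < T →
      F b - F a = ∫ s in a..b, enstrophy (u s) := by
    intro a b ha hab hb
    have h1 := intervalIntegral.integral_add_adjacent_intervals
      (hci 0 a le_rfl ha (hab.trans_lt hb)) (hci a b ha hab hb)
    simp only [hF]
    linarith
  -- the supremum
  set S : Set ℝ := F '' Ico 0 T with hS
  have hSne : S.Nonempty := ⟨F 0, 0, ⟨le_rfl, hT⟩, rfl⟩
  have hSb : BddAbove S := ⟨energy (u 0) / (2 * ν), by
    rintro _ ⟨t, ht, rfl⟩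
    exact hFb t ht⟩
  obtain ⟨_, ⟨t1, ht1, rfl⟩, hlt⟩ := exists_lt_of_lt_csSup hSne (sub_lt_self (sSup S) hκ)
  refine ⟨(T - t1) / 2, by linarith [ht1.2], by linarith [ht1.1], fun δ hδ hδ1 => ?_⟩
  have ha : t1 ≤ T - δ := by linarith [ht1.2]
  have hb : T - δ ≤ T - δ / 2 := by linarith
  have hb2 : T - δ / 2 < T := by linarith
  by_contra hcon
  push Not at hcon
  have h1 : 4 * κ / δ * (δ / 2) ≤ ∫ s in (T - δ)..(T - δ / 2), enstrophy (u s) := by
    have h2 : ∫ _ in (T - δ)..(T - δ / 2), 4 * κ / δ = 4 * κ / δ * (δ / 2) := by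
      rw [intervalIntegral.integral_const, smul_eq_mul]
      ring
    rw [← h2]
    refine intervalIntegral.integral_mono_on hb intervalIntegrable_const
      (hci _ _ (ht1.1.trans ha) hb hb2) fun s hs => ?_
    rw [div_le_iff₀ hδ]
    exact (hcon s hs.1 hs.2).le
  have e1 : 4 * κ / δ * (δ / 2) = 2 * κ := by field_simp; ring
  rw [e1] at h1
  have h2 := hadd (T - δ) (T - δ / 2) (ht1.1.trans ha) hb hb2
  have h3 : F t1 ≤ F (T - δ) := by
    have h4 := hadd t1 (T - δ) ht1.1 ha (by linarith)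
    have h5 : 0 ≤ ∫ s in t1..(T - δ), enstrophy (u s) :=
      intervalIntegral.integral_nonneg ha fun s _ => hy0 s
    linarith
  have h6 : F (T - δ / 2) ≤ sSup S :=
    le_csSup hSb ⟨T - δ / 2, ⟨by linarith [ht1.1], hb2⟩, rfl⟩
  linarith

/-- **The growth of the enstrophy with an exceptional set of times.** -/
theorem exc (h : IsSol ν T u p) (hν : 0 < ν) (hT : 0 < T) {Γ ε B : ℝ} (hΓ : 0 < Γ)
    (hε : 0 < ε) {a G : ℝ → ℝ} (ha0 : ∀ s ∈ Ioo 0 T, 0 ≤ a s)
    (hai : ∀ t ∈ Ioo 0 T, IntegrableOn a (Ioc 0 t))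
    (haB : ∀ t ∈ Ioo 0 T, ∫ s in Ioc 0 t, a s ≤ B - ε * Real.log (T - t))
    {Z : Set ℝ} (hZ : MeasurableSet Z)
    (hZi : IntegrableOn (fun s => (T - s) ^ (-(2 + 2 * ε))) (Z ∩ Ioo 0 T))
    (hG0 : ∀ s ∈ Ioo 0 T, 0 ≤ G s)
    (hGd : ∀ s ∈ Ioo 0 T,
      -(2 * ν * palin (u s)) - 2 * cub (fun i y => u s y i) ≤ G s * enstrophy (u s))
    (hGae : G =ᵐ[volume.restrict (Ioo 0 T)]
      fun s => Z.indicator (fun s => Γ * enstrophy (u s) ^ 2) s + Zᶜ.indicator a s) :
    ∃ A δ : ℝ, 0 < δ ∧ δ < T ∧ ∀ t : ℝ, T - δ < t → t < T →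
      enstrophy (u t) ≤ A * Real.exp (-ε * Real.log (T - t)) := by
  have hy0 : ∀ s, 0 ≤ enstrophy (u s) := fun s => enstrophy_nonneg _
  set ζ : ℝ := ∫ s in Z ∩ Ioo 0 T, (T - s) ^ (-(2 + 2 * ε)) with hζ
  have hζ0 : 0 ≤ ζ := setIntegral_nonneg (hZ.inter measurableSet_Ioo) fun s hs =>
    Real.rpow_nonneg (by linarith [hs.2.2]) _
  set q : ℝ := 2 * Real.exp B with hq
  have hq0 : 0 < q := by positivity
  -- the smallness
  obtain ⟨κ, hκ0, hκ⟩ : ∃ κ : ℝ, 0 < κ ∧ Γ * (q * (5 * κ)) ^ 2 * ζ ≤ 1 / 2 := by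
    refine ⟨min 1 (1 / (50 * Γ * q ^ 2 * (ζ + 1))), lt_min one_pos (by positivity), ?_⟩
    set κ := min 1 (1 / (50 * Γ * q ^ 2 * (ζ + 1))) with hκ
    have h1 : 0 < κ := lt_min one_pos (by positivity)
    have h2 : κ ≤ 1 := min_le_left _ _
    have h3 : κ ≤ 1 / (50 * Γ * q ^ 2 * (ζ + 1)) := min_le_right _ _
    rw [le_div_iff₀ (by positivity)] at h3
    have h4 : κ ^ 2 ≤ κ := by nlinarith
    have h5 : Γ * (q * (5 * κ)) ^ 2 * ζ = 25 * (Γ * q ^ 2 * ζ) * κ ^ 2 := by ring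
    rw [h5]
    have h6 : 0 ≤ Γ * q ^ 2 * ζ := by positivity
    have h7 : 0 < Γ * q ^ 2 := by positivity
    have h8 : 25 * (Γ * q ^ 2 * ζ) * κ ^ 2 ≤ 25 * (Γ * q ^ 2 * ζ) * κ :=
      mul_le_mul_of_nonneg_left h4 (by positivity)
    nlinarith
  obtain ⟨δ0, hδ00, hδ0T, hδ0⟩ := good_time h hν hT hκ0
  set δ : ℝ := min δ0 κ with hδd
  have hδ : 0 < δ := lt_min hδ00 hκ0
  have hδT : δ < T := (min_le_left _ _).trans_lt hδ0T
  have hδκ : δ ≤ κ := min_le_right _ _
  obtain ⟨t0, ht0a, ht0b, ht0y⟩ := hδ0 δ hδ (min_le_left _ _)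
  have ht00 : 0 < t0 := by linarith
  have ht0T : t0 < T := by linarith
  set Y : ℝ := enstrophy (u t0) + 1 with hY
  have hY1 : 1 ≤ Y := by have := hy0 t0; linarith
  have hYδ : Y * δ ≤ 5 * κ := by rw [hY]; linarith
  set M : ℝ := q * Y with hM
  have hM0 : 0 < M := by positivity
  refine ⟨M, δ / 2, by positivity, by linarith, fun t1 ht1 ht1T => ?_⟩
  have ht01 : t0 < t1 := by linarith
  set b : ℝ → ℝ := fun s => M * Real.exp (-ε * Real.log (T - s)) with hb
  by_contra hcon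
  push Not at hcon
  have hyc : ContinuousOn (fun s => enstrophy (u s)) (Icc t0 t1) :=
    h.enstrophy_continuousOn.mono fun s hs => ⟨ht00.le.trans hs.1, hs.2.trans_lt ht1T⟩
  have hbc : ContinuousOn b (Icc t0 t1) := by
    refine continuousOn_const.mul (Real.continuous_exp.comp_continuousOn ?_)
    refine continuousOn_const.mul (ContinuousOn.log (by fun_prop) fun s hs => ?_)
    have : 0 < T - s := by linarith [hs.2]
    exact this.ne'
  -- the first time of equality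
  set C : Set ℝ := {s ∈ Icc t0 t1 | b s ≤ enstrophy (u s)} with hC
  have hCc : IsCompact C := by
    have h1 : IsClosed C := by
      have h2 := hbc.prodMk hyc
      have h3 : C = Icc t0 t1 ∩ (fun s => (b s, enstrophy (u s))) ⁻¹' {p : ℝ × ℝ | p.1 ≤ p.2} := by
        ext s; rfl
      rw [h3]
      exact h2.preimage_isClosed_of_isClosed isClosed_Icc (isClosed_le continuous_fst continuous_snd)
    exact isCompact_Icc.of_isClosed_subset h1 fun s hs => hs.1
  have hCne : C.Nonempty := ⟨t1, ⟨ht01.le, le_rfl⟩, hcon.le⟩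
  obtain ⟨s1, hs1, hs1l⟩ := hCc.exists_isLeast hCne
  have hs1T : s1 < T := hs1.1.2.trans_lt ht1T
  have hlt : ∀ s, t0 ≤ s → s < s1 → enstrophy (u s) < b s := by
    intro s hs hss
    by_contra hc
    push Not at hc
    have : s1 ≤ s := hs1l ⟨⟨hs, hss.le.trans hs1.1.2⟩, hc⟩
    linarith
  -- the growth up to this time
  have hsub : Ioc t0 s1 ⊆ Ioo 0 T := fun s hs => ⟨ht00.trans hs.1, hs.2.trans_lt hs1T⟩
  have hsub2 : Ioc t0 s1 ⊆ Ioc 0 s1 := fun s hs => ⟨ht00.trans hs.1, hs.2⟩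
  have hs1I : s1 ∈ Ioo 0 T := ⟨ht00.trans_le hs1.1.1, hs1T⟩
  have hae : G =ᵐ[volume.restrict (Ioc t0 s1)]
      fun s => Z.indicator (fun s => Γ * enstrophy (u s) ^ 2) s + Zᶜ.indicator a s :=
    ae_mono (Measure.restrict_mono hsub le_rfl) hGae
  have iy : IntegrableOn (fun s => Γ * enstrophy (u s) ^ 2) (Ioc t0 s1) := by
    have h1 : ContinuousOn (fun s => Γ * enstrophy (u s) ^ 2) (Icc t0 s1) :=
      continuousOn_const.mul ((hyc.mono (Icc_subset_Icc_right hs1.1.2)).pow 2)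
    exact h1.integrableOn_Icc.mono_set Ioc_subset_Icc_self
  have ia0 : IntegrableOn a (Ioc 0 s1) := hai s1 hs1I
  have ia : IntegrableOn a (Ioc t0 s1) := ia0.mono_set hsub2
  have i1 : IntegrableOn (Z.indicator fun s => Γ * enstrophy (u s) ^ 2) (Ioc t0 s1) :=
    iy.indicator hZ
  have i2 : IntegrableOn (Zᶜ.indicator a) (Ioc t0 s1) := ia.indicator hZ.compl
  have iG : IntegrableOn G (Icc t0 s1) := by
    rw [integrableOn_Icc_iff_integrableOn_Ioc]
    exact (i1.add i2).congr hae.symm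
  have hA : ∫ s in Ioc t0 s1, Zᶜ.indicator a s ≤ B - ε * Real.log (T - s1) := by
    refine le_trans ?_ (haB s1 hs1I)
    rw [setIntegral_indicator hZ.compl]
    refine setIntegral_mono_set ia0 ?_ ?_
    · filter_upwards [ae_restrict_mem measurableSet_Ioc] with s hs
      exact ha0 s ⟨hs.1, hs.2.trans_lt hs1T⟩
    · exact LE.le.eventuallyLE fun s hs => hsub2 hs.1
  have hBz : ∫ s in Ioc t0 s1, Z.indicator (fun s => Γ * enstrophy (u s) ^ 2) s ≤ 1 / 2 := by
    rw [setIntegral_indicator hZ]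
    have h1 : ∫ s in Ioc t0 s1 ∩ Z, Γ * enstrophy (u s) ^ 2
        ≤ ∫ s in Ioc t0 s1 ∩ Z, Γ * (M * δ) ^ 2 * (T - s) ^ (-(2 + 2 * ε)) := by
      have i3 : IntegrableOn (fun s => Γ * (M * δ) ^ 2 * (T - s) ^ (-(2 + 2 * ε)))
          (Ioc t0 s1 ∩ Z) :=
        (hZi.mono_set fun s hs => ⟨hs.2, hsub hs.1⟩).const_mul _
      have i4 : IntegrableOn (fun s => Γ * enstrophy (u s) ^ 2) (Ioc t0 s1 ∩ Z) :=
        iy.mono_set inter_subset_left
      refine setIntegral_mono_ae_restrict i4 i3 ?_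
      have h2 : ∀ᵐ s ∂(volume.restrict (Ioc t0 s1 ∩ Z)), s ≠ s1 :=
        ae_restrict_of_ae (Measure.ae_ne volume s1)
      filter_upwards [h2, ae_restrict_mem (measurableSet_Ioc.inter hZ)] with s hs hsI
      have hsT : 0 < T - s := by linarith [hsI.1.2]
      have h3 := hlt s hsI.1.1.le (lt_of_le_of_ne hsI.1.2 hs)
      have h4 : enstrophy (u s) ^ 2 ≤ b s ^ 2 := pow_le_pow_left₀ (hy0 s) h3.le 2
      have h5 : b s ^ 2 ≤ (M * δ) ^ 2 * (T - s) ^ (-(2 + 2 * ε)) := by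
        simp only [hb]
        have e1 : Real.exp (-ε * Real.log (T - s)) ^ 2 = (T - s) ^ (-(2 * ε)) := by
          rw [← Real.exp_nat_mul, Real.rpow_def_of_pos hsT]
          congr 1
          push_cast
          ring
        have e2 : (T - s) ^ (-(2 * ε)) = (T - s) ^ 2 * (T - s) ^ (-(2 + 2 * ε)) := by
          rw [← Real.rpow_natCast, ← Real.rpow_add hsT]
          congr 1
          push_cast
          ring
        rw [mul_pow, e1, e2, mul_pow]
        have h6 : (T - s) ^ 2 ≤ δ ^ 2 := pow_le_pow_left₀ hsT.le (by linarith [hsI.1.1]) 2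
        have h7 : 0 ≤ (T - s) ^ (-(2 + 2 * ε)) := Real.rpow_nonneg hsT.le _
        have h8 := mul_le_mul_of_nonneg_right h6 h7
        have h9 := mul_le_mul_of_nonneg_left h8 (sq_nonneg M)
        linarith
      have h10 := mul_le_mul_of_nonneg_left (h4.trans h5) hΓ.le
      linarith
    refine h1.trans ?_
    rw [integral_const_mul]
    have h2 : ∫ s in Ioc t0 s1 ∩ Z, (T - s) ^ (-(2 + 2 * ε)) ≤ ζ := by
      refine setIntegral_mono_set hZi ?_ (LE.le.eventuallyLE fun s hs => ⟨hs.2, hsub hs.1⟩)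
      filter_upwards [ae_restrict_mem (hZ.inter measurableSet_Ioo)] with s hs
      exact Real.rpow_nonneg (by linarith [hs.2.2]) _
    have h3 : (M * δ) ^ 2 ≤ (q * (5 * κ)) ^ 2 := by
      refine pow_le_pow_left₀ (by positivity) ?_ 2
      rw [hM, mul_assoc]
      exact mul_le_mul_of_nonneg_left hYδ hq0.le
    calc Γ * (M * δ) ^ 2 * ∫ s in Ioc t0 s1 ∩ Z, (T - s) ^ (-(2 + 2 * ε))
        ≤ Γ * (q * (5 * κ)) ^ 2 * ζ := by
          refine mul_le_mul (mul_le_mul_of_nonneg_left h3 hΓ.le) h2 ?_ (by positivity)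
          exact setIntegral_nonneg (measurableSet_Ioc.inter hZ) fun s hs =>
            Real.rpow_nonneg (by linarith [hs.1.2]) _
      _ ≤ 1 / 2 := hκ
  have hint : ∫ s in t0..s1, G s ≤ (B - ε * Real.log (T - s1)) + 1 / 2 := by
    rw [intervalIntegral.integral_of_le hs1.1.1, integral_congr_ae hae, integral_add i1 i2]
    linarith
  have hg := gron_from h ht00.le hs1.1.1 hs1T (fun s hs => hG0 s ⟨ht00.trans hs.1,
    hs.2.trans hs1T⟩) iG hint fun s hs => hGd s ⟨ht00.trans hs.1, hs.2.trans hs1T⟩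
  have he : Real.exp ((B - ε * Real.log (T - s1)) + 1 / 2)
      = Real.exp B * Real.exp (-ε * Real.log (T - s1)) * Real.exp (1 / 2) := by
    rw [← Real.exp_add, ← Real.exp_add]
    congr 1
    ring
  have he2 : Real.exp (1 / 2) < 2 := by
    have h1 := Real.exp_one_lt_d9
    have h2 : Real.exp (1 / 2) ^ 2 = Real.exp 1 := by
      rw [← Real.exp_nat_mul]
      norm_num
    have h3 : 0 < Real.exp (1 / 2) := Real.exp_pos _
    nlinarith
  have h9 := hs1.2
  simp only [hb, hM, hq] at h9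
  rw [he] at hg
  have hX : 0 < Real.exp B * Real.exp (-ε * Real.log (T - s1)) := by positivity
  set X := Real.exp B * Real.exp (-ε * Real.log (T - s1)) with hXd
  have e3 : 2 * Real.exp B * Y * Real.exp (-ε * Real.log (T - s1)) = 2 * Y * X := by
    rw [hXd]; ring
  rw [e3] at h9
  have h10 : enstrophy (u t0) * (X * Real.exp (1 / 2)) ≤ enstrophy (u t0) * (X * 2) :=
    mul_le_mul_of_nonneg_left (mul_le_mul_of_nonneg_left he2.le hX.le) (hy0 t0)
  have h11 : 2 * Y * X = enstrophy (u t0) * (X * 2) + 2 * X := by rw [hY]; ring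
  linarith

end Pool.Agent.R211.CE
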