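import Pool.Agent.R211.CE.Prod

/-!
The estimate of the production of enstrophy at a fixed time, with the constants of the critical
scale.
-/

open MeasureTheory Set Metric Filter Topology
open scoped ContDiff
open H459R3.NS Pool.Agent.R210 Pool.Agent.R211.CD

namespace Pool.Agent.R211.CE

/-- The constant of the smallness of the parameter `a`. -/
noncomputable def cs1 (σ : ℝ) : ℝ := 1 / (72 * (CP * CL σ * (CS + 1) * AA))

theorem cs1_pos {σ : ℝ} (hσ : 0 < σ) : 0 < cs1 σ := by
  have h1 := CP_pos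
  have h2 := CL_pos hσ
  have h3 := CS_nonneg
  have h4 := AA_pos
  unfold cs1
  positivity

/-- The constant of the smallness of the sine. -/
noncomputable def cs0 (σ : ℝ) : ℝ := min 1 (cs1 σ ^ 3)

theorem cs0_pos {σ : ℝ} (hσ : 0 < σ) : 0 < cs0 σ := by
  have := cs1_pos hσ
  unfold cs0
  exact lt_min one_pos (by positivity)

/-- The constant of the critical term. -/
noncomputable def C1 (σ : ℝ) : ℝ :=
  4 * (16 * CP * CL σ + 48 * BB * CL σ + 96 * (Bd * Real.sqrt (27 * vU)))

theorem C1_pos {σ : ℝ} (hσ : 0 < σ) : 0 < C1 σ := by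
  have h1 := CP_pos
  have h2 := CL_pos hσ
  have h3 := one_le_BB
  have h4 := Bd_nonneg
  have h5 := Real.sqrt_nonneg (27 * vU)
  unfold C1
  positivity

/-- The constant of the lower order terms. -/
noncomputable def C2 : ℝ := 24 * AA * (72 * BB * vU) ^ 2 + 14

theorem C2_pos : 0 < C2 := by
  have h4 := AA_pos
  unfold C2
  positivity

/-- The final computation. -/
theorem fix_alg {X N ν P A1 A2 A3 A4 q Y y k K : ℝ} (hA1 : 0 ≤ A1) (hA2 : 0 ≤ A2) (hA3 : 0 ≤ A3)
    (hA4 : 0 ≤ A4) (hq : 0 ≤ q) (hY : Y ≤ 2 * y) (hk : 0 ≤ k) (hK : 0 ≤ K) (hy : 0 ≤ y)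
    (h1 : X ≤ 2 * N + 14 * K * y)
    (h2 : N ≤ (ν / 4 * P + A1 * q * Y) + A2 * q * Y + A3 * q * Y + (ν / 4 * P + A4 * k * Y)) :
    X ≤ ν * P + (4 * (A1 + A2 + A3) * q + (4 * A4 + 14) * (K + k)) * y := by
  have a1 : (A1 + A2 + A3) * q * Y ≤ (A1 + A2 + A3) * q * (2 * y) :=
    mul_le_mul_of_nonneg_left hY (by positivity)
  have a2 : A4 * k * Y ≤ A4 * k * (2 * y) := mul_le_mul_of_nonneg_left hY (by positivity)
  have a3 : 0 ≤ A4 * K * y := by positivity
  have a4 : 0 ≤ k * y := by positivity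
  have e1 : (4 * (A1 + A2 + A3) * q + (4 * A4 + 14) * (K + k)) * y
      = 2 * ((A1 + A2 + A3) * q * (2 * y)) + 2 * (A4 * k * (2 * y)) + 4 * (A4 * K * y)
        + 14 * (K * y) + 14 * (k * y) := by ring
  have e2 : A1 * q * Y + A2 * q * Y + A3 * q * Y = (A1 + A2 + A3) * q * Y := by ring
  rw [e1]
  linarith

/-- **The estimate at a fixed time.** -/
theorem fix_en {ν K R η σ Q : ℝ} {v : V → V} (hν : 0 < ν) (hK : 0 < K) (hσ : 0 < σ) (hσ1 : σ ≤ 1)
    (hv : ∀ i, SP (fun x => v x i)) (hdiv : ∀ x, ∑ i, pd i (fun y => v y i) x = 0)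
    (hη : 0 < η) (hηR : η ≤ R) (hR1 : R ≤ 1) (hQ : energy v ≤ Q) (hcone : Cone (cu v) K σ R)
    (hsin : Sin (cu v) K (cs0 σ * (ν / LL Q K R) ^ 3) η) :
    -(2 * cub (fun i y => v y i))
      ≤ ν * palin v + (C1 σ * (LL Q K R / η ^ 2) + C2 * (K + K ^ 2 / ν)) * enstrophy v := by
  have hCP := CP_pos
  have hCM := CL_pos hσ
  have hCS := CS_nonneg
  have hAA := AA_pos
  have hB := one_le_BB
  have hvU := vU_nonneg
  have hBd := Bd_nonneg
  have hsq := Real.sqrt_nonneg (27 * vU)
  have hc1 := cs1_pos hσ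
  have hR0 : 0 < R := hη.trans_le hηR
  have hom := sp_cu hv
  have hw := sp_cw hom K
  have hl : ∀ i, SP (fun x => (cu v x - cw K (cu v) x) i) := fun i => (hom i).sub (hw i)
  have hy0 := enstrophy_nonneg v
  have hP0' := palin_nonneg v
  have hQ0 : 0 ≤ Q := (energy_nonneg v).trans hQ
  have hL0 := LL_pos (Q := Q) hK hR0
  set L := LL Q K R with hLd
  set Λ : ℝ := CL σ * L with hΛ
  have hΛ0 : 0 < Λ := by positivity
  set a : ℝ := min 1 (cs1 σ * (ν / L)) with ha
  have ha0 : 0 < a := lt_min one_pos (by positivity)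
  have ha1 : a ≤ 1 := min_le_left _ _
  have ha2 : a * Λ ≤ cs1 σ * CL σ * ν := by
    have h1 : a ≤ cs1 σ * (ν / L) := min_le_right _ _
    calc a * Λ ≤ cs1 σ * (ν / L) * Λ := mul_le_mul_of_nonneg_right h1 hΛ0.le
      _ = cs1 σ * CL σ * ν := by rw [hΛ]; field_simp
  -- the Morrey bound
  have hb : ∀ x t, 0 < t → t ≤ R / 4 →
      ∫ z in U1, en (cw K (cu v) (x - t • z)) ≤ Λ / t ^ 2 := by
    intro x t ht htR
    have h1 := avg_en hv hK.le hR0 hR1 hσ hσ1 hQ hcone ht (by linarith) x
    have h2 : ∫ z in U1, en (cw K (cu v) (x - t • z)) ≤ ∫ z in U1, en (cu v (x - t • z)) := by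
      have g1 : Continuous fun z : V => x - t • z := by fun_prop
      have g2 : Continuous fun z : V => en (cw K (cu v) (x - t • z)) := (f_cont hw).comp g1
      have g3 : Continuous fun z : V => en (cu v (x - t • z)) := (f_cont hom).comp g1
      exact setIntegral_mono (int_U1 g2) (int_U1 g3) fun z => Real.sqrt_le_sqrt (rsq_cw_le K _)
    exact h2.trans h1
  -- the angle
  have hang : ∀ x y, en (x - y) ≤ η / 4 → en (crossProduct (cw K (cu v) x) (cw K (cu v) y))
      ≤ a ^ 3 * (en (cw K (cu v) x) * en (cw K (cu v) y)) := by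
    intro x y hxy
    have h0 : 0 ≤ en (cw K (cu v) x) * en (cw K (cu v) y) :=
      mul_nonneg (en_nonneg _) (en_nonneg _)
    rcases min_cases 1 (cs1 σ * (ν / L)) with h | h
    · have e1 : a = 1 := by rw [ha]; exact h.1
      rw [e1, one_pow, one_mul]
      exact en_cross_le _ _
    · have e1 : a = cs1 σ * (ν / L) := by rw [ha]; exact h.1
      have h2 : cs0 σ * (ν / L) ^ 3 ≤ a ^ 3 := by
        rw [e1, mul_pow]
        exact mul_le_mul_of_nonneg_right (min_le_right _ _) (by positivity)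
      have h3 := cw_sin hK hsin x y (by linarith)
      exact h3.trans (mul_le_mul_of_nonneg_right h2 h0)
  -- the large scales
  set M : ℝ := 32 * (Bd * Real.sqrt (27 * vU)) * (L / η ^ 2) with hMd
  have hMle : ∀ x i j, |mo phi (R / 4) (pd i (fun y => v y j)) x| ≤ M := by
    intro x i j
    have h1 : ∫ x in cube, v x j ^ 2 ≤ Q := by
      refine le_trans ?_ hQ
      unfold energy
      exact Finset.single_le_sum (f := fun i => ∫ x in cube, v x i ^ 2)
        (fun i _ => integral_nonneg fun x => sq_nonneg _) (Finset.mem_univ j)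
    refine (mo_pd_le (hv j) i (by positivity) (by linarith) x h1).trans ?_
    have h2 : Real.sqrt (Q / (R / 4)) / (R / 4) ^ 2 = 32 * (Real.sqrt (Q / R) / R ^ 2) := by
      have e1 : Q / (R / 4) = 2 ^ 2 * (Q / R) := by field_simp; norm_num
      rw [e1, Real.sqrt_mul (by norm_num), Real.sqrt_sq (by norm_num)]
      field_simp
      ring
    have h3 : Real.sqrt (Q / R) / R ^ 2 ≤ L / η ^ 2 := by
      refine div_le_div₀ hL0.le ?_ (by positivity) (pow_le_pow_left₀ hη.le hηR 2)
      rw [hLd]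
      unfold LL
      have : 0 ≤ K * R ^ 2 := by positivity
      linarith
    rw [h2, hMd]
    have h4 : 0 ≤ Bd * Real.sqrt (27 * vU) := by positivity
    calc Bd * Real.sqrt (27 * vU) * (32 * (Real.sqrt (Q / R) / R ^ 2))
        ≤ Bd * Real.sqrt (27 * vU) * (32 * (L / η ^ 2)) :=
          mul_le_mul_of_nonneg_left (by linarith) h4
      _ = _ := by ring
  have hr1 : ∫ x in cube, rsq (cw K (cu v) x) ≤ 2 * enstrophy v := by
    refine le_trans ?_ (int_rsq_cu hv)
    exact setIntegral_mono (sp_rsq hw).int (sp_rsq hom).int fun x => rsq_cw_le K x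
  set Y := ∫ x in cube, rsq (cw K (cu v) x) with hY
  have hY0 : 0 ≤ Y := integral_nonneg fun x => rsq_nonneg _
  set G := ∫ x in cube, G2 (cw K (cu v)) x with hG
  have hG0 : 0 ≤ G := integral_nonneg fun x => G2_nonneg _ _
  have h1 := prod_gen (v := v) (w := cw K (cu v)) (l := fun x => cu v x - cw K (cu v) x)
    (a := a) (T := R / 4) (ρ := η / 4) (Y := Y) (L := 2 * K) (Λ := Λ) (M := M) hv hw hl hdiv
    (fun x => by simp) (fun x i => cw_diff hK x i) ha0 ha1 (by positivity)
    (by linarith) hY hΛ0 hb hMle hang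
  rw [← hG] at h1
  have h2 : G ≤ AA * (6 * palin v) := by
    have h3 : G ≤ ∫ x in cube, AA * G2 (cu v) x :=
      setIntegral_mono (integrableOn_cube (G2_cont hw))
        (integrableOn_cube (continuous_const.mul (G2_cont hom))) fun x => G2_cw_le hom hK x
    rw [integral_const_mul] at h3
    exact h3.trans (mul_le_mul_of_nonneg_left (int_G2_cu hv) hAA.le)
  have h6 := abs_le.1 (Nw_diff hv hK)
  have h7 := abs_le.1 h1
  have h8 := cub_eq_Nw hv hdiv
  clear_value G Y
  set q : ℝ := L / η ^ 2 with hq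
  have hq0 : 0 < q := by positivity
  set ε' : ℝ := ν / (24 * AA) with hε'
  have hε'0 : 0 < ε' := by positivity
  set P : ℝ := 36 * BB * vU * (2 * K) with hP
  have hP0 : 0 ≤ P := by positivity
  -- the first term
  have t1 : CP * (a * Λ * (3 * CS * G + Y / (η / 4) ^ 2))
      ≤ ν / 4 * palin v + 16 * CP * CL σ * q * Y := by
    have a1 : CP * (a * Λ * (3 * CS * G)) ≤ ν / 4 * palin v := by
      have b1 : CP * (a * Λ * (3 * CS * G))
          ≤ CP * (cs1 σ * CL σ * ν * (3 * CS * (AA * (6 * palin v)))) := by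
        refine mul_le_mul_of_nonneg_left (mul_le_mul ha2 (mul_le_mul_of_nonneg_left h2
          (by positivity)) (by positivity) (by positivity)) hCP.le
      refine b1.trans ?_
      have b2 : CP * (cs1 σ * CL σ * ν * (3 * CS * (AA * (6 * palin v))))
          = ν / 4 * palin v * (CS / (CS + 1)) := by
        unfold cs1
        field_simp
        ring
      rw [b2]
      refine mul_le_of_le_one_right (by positivity) ?_
      rw [div_le_one (by positivity)]
      linarith
    have a2 : CP * (a * Λ * (Y / (η / 4) ^ 2)) ≤ 16 * CP * CL σ * q * Y := by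
      have b1 : a * Λ ≤ Λ := mul_le_of_le_one_left hΛ0.le ha1
      have b2 : 0 ≤ Y / (η / 4) ^ 2 := by positivity
      have b3 : CP * (a * Λ * (Y / (η / 4) ^ 2)) ≤ CP * (Λ * (Y / (η / 4) ^ 2)) :=
        mul_le_mul_of_nonneg_left (mul_le_mul_of_nonneg_right b1 b2) hCP.le
      refine b3.trans (le_of_eq ?_)
      rw [hΛ, hq]
      field_simp
      ring
    have e1 : CP * (a * Λ * (3 * CS * G + Y / (η / 4) ^ 2))
        = CP * (a * Λ * (3 * CS * G)) + CP * (a * Λ * (Y / (η / 4) ^ 2)) := by ring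
    rw [e1]
    exact add_le_add a1 a2
  -- the second term
  have t2 : 3 * BB * Λ * Y / (η / 4) ^ 2 = 48 * BB * CL σ * q * Y := by
    rw [hΛ, hq]
    field_simp
    ring
  -- the third term
  have t3 : 3 * M * Y = 96 * (Bd * Real.sqrt (27 * vU)) * q * Y := by
    rw [hMd]
    ring
  -- the fourth term
  have t4 : R / 4 * (P * (Real.sqrt G * Real.sqrt Y))
      ≤ ν / 4 * palin v + P ^ 2 / (4 * ε') * Y := by
    have b1 : R / 4 * (P * (Real.sqrt G * Real.sqrt Y)) ≤ P * (Real.sqrt G * Real.sqrt Y) :=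
      mul_le_of_le_one_left (by positivity) (by linarith)
    have b2 := young_sqrt (P := P) hG0 hY0 hε'0
    have b3 : ε' * G ≤ ν / 4 * palin v := by
      calc ε' * G ≤ ε' * (AA * (6 * palin v)) := mul_le_mul_of_nonneg_left h2 hε'0.le
        _ = ν / 4 * palin v := by rw [hε']; field_simp; ring
    linarith
  have t4' : P ^ 2 / (4 * ε') = 6 * AA * (72 * BB * vU) ^ 2 * (K ^ 2 / ν) := by
    rw [hP, hε']
    field_simp
    ring
  have t5 : R / 4 * (36 * BB * vU * (2 * K) * (Real.sqrt G * Real.sqrt Y))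
      = R / 4 * (P * (Real.sqrt G * Real.sqrt Y)) := rfl
  rw [t5] at h7
  have h9 := h7.2
  rw [t4'] at t4
  have h10 : -(2 * cub (fun i y => v y i)) ≤ 2 * Nw (cw K (cu v)) v + 14 * K * enstrophy v := by
    linarith [h6.2]
  have hfin := fix_alg (X := -(2 * cub (fun i y => v y i))) (N := Nw (cw K (cu v)) v) (ν := ν)
    (P := palin v) (A1 := 16 * CP * CL σ) (A2 := 48 * BB * CL σ)
    (A3 := 96 * (Bd * Real.sqrt (27 * vU))) (A4 := 6 * AA * (72 * BB * vU) ^ 2) (q := q) (Y := Y)
    (y := enstrophy v) (k := K ^ 2 / ν) (K := K) (by positivity) (by positivity) (by positivity)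
    (by positivity) hq0.le hr1 (by positivity) hK.le hy0 h10 (by
      rw [t2, t3] at h9
      linarith)
  refine hfin.trans (le_of_eq ?_)
  unfold C1 C2
  ring

end Pool.Agent.R211.CE
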