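import Pool.Agent.R211.CE.Prod2
import Pool.Agent.R211.CE.Flux2

/-!
The estimate of the production of enstrophy at a fixed time, with the constants of the critical
scale and the linear smallness of the sine.
-/

open MeasureTheory Set Metric Filter Topology
open scoped ContDiff
open H459R3.NS Pool.Agent.R210 Pool.Agent.R211.CD

namespace Pool.Agent.R211.CE

/-- The constant of the smallness of the parameter `a`. -/
noncomputable def dq (σ : ℝ) : ℝ := 1 / (144 * (CP2 * CM σ * (CS + 1) * AA))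

theorem dq_pos {σ : ℝ} (hσ : 0 < σ) : 0 < dq σ := by
  have h1 := CP2_pos
  have h2 := CM_pos hσ
  have h3 := CS_nonneg
  have h4 := AA_pos
  unfold dq
  positivity

/-- The constant of the smallness of the sine. -/
noncomputable def ds (σ : ℝ) : ℝ := dq σ / (1 + |Real.log (1 / dq σ)|)

theorem ds_pos {σ : ℝ} (hσ : 0 < σ) : 0 < ds σ := by
  have := dq_pos hσ
  have h2 := abs_nonneg (Real.log (1 / dq σ))
  unfold ds
  positivity

/-- The smallness of the sine as a function of the size. -/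
noncomputable def sl (l : ℝ) : ℝ := l / (1 + Real.log (1 + 1 / l))

theorem log_nn {l : ℝ} (hl : 0 < l) : 0 ≤ Real.log (1 + 1 / l) :=
  Real.log_nonneg (by have : 0 < 1 / l := by positivity
                      linarith)

theorem sl_pos {l : ℝ} (hl : 0 < l) : 0 < sl l := by
  have := log_nn hl
  unfold sl
  positivity

theorem sl_mono {l m : ℝ} (hl : 0 < l) (hlm : l ≤ m) : sl l ≤ sl m := by
  have hm : 0 < m := hl.trans_le hlm
  have h1 := log_nn hl
  have h2 := log_nn hm
  have h3 : Real.log (1 + 1 / m) ≤ Real.log (1 + 1 / l) := by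
    refine Real.log_le_log (by positivity) ?_
    have := one_div_le_one_div_of_le hl hlm
    linarith
  unfold sl
  exact div_le_div₀ hm.le hlm (by positivity) (by linarith)

/-- The smallness of the sine suffices for the parameter. -/
theorem sl_ok {σ l : ℝ} (hσ : 0 < σ) (hl : 0 < l) (h1 : dq σ * l ≤ 1) :
    ds σ * sl l * (1 + Real.log (1 / (dq σ * l))) ≤ dq σ * l := by
  have hq := dq_pos hσ
  have ha := abs_nonneg (Real.log (1 / dq σ))
  have hln := log_nn hl
  have e1 : Real.log (1 / (dq σ * l)) = Real.log (1 / dq σ) + Real.log (1 / l) := by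
    rw [← Real.log_mul (by positivity) (by positivity)]
    congr 1
    field_simp
  have h2 : Real.log (1 / l) ≤ Real.log (1 + 1 / l) :=
    Real.log_le_log (by positivity) (by linarith)
  have h3 : 1 + Real.log (1 / (dq σ * l))
      ≤ (1 + |Real.log (1 / dq σ)|) * (1 + Real.log (1 + 1 / l)) := by
    rw [e1]
    have h4 := le_abs_self (Real.log (1 / dq σ))
    nlinarith [mul_nonneg ha hln]
  have h5 : 0 ≤ ds σ * sl l := (mul_pos (ds_pos hσ) (sl_pos hl)).le
  refine (mul_le_mul_of_nonneg_left h3 h5).trans (le_of_eq ?_)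
  have hA : 0 < 1 + |Real.log (1 / dq σ)| := by positivity
  have hB : 0 < 1 + Real.log (1 + 1 / l) := by positivity
  unfold ds sl
  generalize 1 + |Real.log (1 / dq σ)| = A at hA
  generalize 1 + Real.log (1 + 1 / l) = B at hB
  field_simp

/-- The rate of a flux `G` below a flux `L`. -/
noncomputable def rt (G L : ℝ) : ℝ := G * (1 + Real.log (1 + L / G))

theorem log_nn2 {G L : ℝ} (hG : 0 < G) (hL : 0 < L) : 0 ≤ Real.log (1 + L / G) :=
  Real.log_nonneg (by have : 0 < L / G := by positivity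
                      linarith)

theorem rt_pos {G L : ℝ} (hG : 0 < G) (hL : 0 < L) : 0 < rt G L := by
  have := log_nn2 hG hL
  unfold rt
  positivity

theorem le_rt {G L : ℝ} (hG : 0 < G) (hL : 0 < L) : G ≤ rt G L := by
  have := mul_nonneg hG.le (log_nn2 hG hL)
  unfold rt
  linarith

theorem min_le_rt {G L : ℝ} (hG : 0 < G) (hL : 0 < L) :
    min G L * Real.log (1 + L / min G L) ≤ rt G L := by
  rcases min_cases G L with h | h
  · rw [h.1]
    unfold rt
    linarith
  · rw [h.1, div_self hL.ne']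
    have h1 : Real.log (1 + 1) ≤ 1 := by
      have := Real.log_le_sub_one_of_pos (show (0 : ℝ) < 1 + 1 by norm_num)
      linarith
    have h2 := le_rt hG hL
    have h3 : L * Real.log (1 + 1) ≤ L := mul_le_of_le_one_right hL.le h1
    linarith [h.2]

/-- The constant of the critical term. -/
noncomputable def D1 (σ : ℝ) : ℝ :=
  4 * (64 * CP2 * CM σ + 384 * BB * CM σ + 96 * (Bd * Real.sqrt (27 * vU)))

theorem D1_pos {σ : ℝ} (hσ : 0 < σ) : 0 < D1 σ := by
  have h1 := CP2_pos
  have h2 := CL_pos hσ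
  have h6 := CM_pos hσ
  have h3 := one_le_BB
  have h4 := Bd_nonneg
  have h5 := Real.sqrt_nonneg (27 * vU)
  unfold D1
  positivity

/-- The constant of the lower order terms. -/
noncomputable def D2 : ℝ := 24 * AA * (18 * BB * vU) ^ 2 + 14 + 4 * C6

theorem D2_pos : 0 < D2 := by
  have h4 := AA_pos
  have h5 := C6_pos
  unfold D2
  positivity

/-- The constant of the rate. -/
noncomputable def D3 (σ : ℝ) : ℝ := D1 σ + D2

theorem D3_pos {σ : ℝ} (hσ : 0 < σ) : 0 < D3 σ := add_pos (D1_pos hσ) D2_pos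

/-- The circulation of the field at the scale `η` near a point. -/
noncomputable def circ (w : V → V) (K η : ℝ) (x : V) : ℝ :=
  (∫ y in eb x η, en (w y)) / η + K * η ^ 2

theorem circ_pos {w : V → V} {K η : ℝ} (hK : 0 < K) (hη : 0 < η) (x : V) : 0 < circ w K η x := by
  have : 0 ≤ ∫ y in eb x η, en (w y) := integral_nonneg fun y => en_nonneg _
  unfold circ
  positivity

theorem circ_eq {w : V → V} {K η : ℝ} (hη : 0 < η) (x : V) :
    (∫ y in eb x η, en (w y)) + K * η ^ 3 ≤ circ w K η x * η := by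
  unfold circ
  refine le_of_eq ?_
  field_simp

/-- The sine bound which depends on the circulation near the point. -/
def SinC (w : V → V) (ν K c η : ℝ) : Prop := ∀ x y, K < en (w x) → K < en (w y) →
  en (x - y) ≤ η → en (crossProduct (w x) (w y)) ≤ c * sl (ν / circ w K η x) * (en (w x) * en (w y))

/-- The angle of the parts above the threshold at a point. -/
theorem cw_sin_pt {om : V → V} {K δ : ℝ} (hK : 0 < K) (x y : V)
    (h : K < en (om x) → K < en (om y) →
      en (crossProduct (om x) (om y)) ≤ δ * (en (om x) * en (om y))) :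
    en (crossProduct (cw K om x) (cw K om y)) ≤ δ * (en (cw K om x) * en (cw K om y)) := by
  have e : ∀ x, cw K om x = chi (K⁻¹ ^ 2 * rsq (om x)) • om x := fun x => rfl
  have hz : en (0 : V) = 0 := by simp [en, rsq]
  have hgt : ∀ x, K ^ 2 < rsq (om x) → K < en (om x) := by
    intro x hx
    rw [← en_sq] at hx
    exact lt_of_pow_lt_pow_left₀ 2 (en_nonneg _) hx
  rcases le_or_gt (rsq (om x)) (K ^ 2) with hx | hx
  · rw [cw_zero hK hx, hz]
    simp [hz]
  rcases le_or_gt (rsq (om y)) (K ^ 2) with hy | hy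
  · rw [cw_zero hK hy, hz]
    simp [hz]
  have h1 := h (hgt x hx) (hgt y hy)
  rw [e x, e y]
  have hcx := chi_nonneg (K⁻¹ ^ 2 * rsq (om x))
  have hcy := chi_nonneg (K⁻¹ ^ 2 * rsq (om y))
  set a := chi (K⁻¹ ^ 2 * rsq (om x))
  set b := chi (K⁻¹ ^ 2 * rsq (om y))
  have e1 : crossProduct (a • om x) (b • om y) = (a * b) • crossProduct (om x) (om y) := by
    rw [map_smul, map_smul, LinearMap.smul_apply, smul_smul, mul_comm b a]
  rw [e1, en_smul, en_smul, en_smul, abs_of_nonneg (mul_nonneg hcx hcy), abs_of_nonneg hcx,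
    abs_of_nonneg hcy]
  calc a * b * en (crossProduct (om x) (om y))
      ≤ a * b * (δ * (en (om x) * en (om y))) :=
        mul_le_mul_of_nonneg_left h1 (mul_nonneg hcx hcy)
    _ = _ := by ring

/-- The rate. -/
noncomputable def rate1 (ν K R η Γ L : ℝ) : ℝ := rt Γ L / η ^ 2 + L / R ^ 2 + (K * R) ^ 2 / ν

/-- The final computation. -/
theorem fix_alg2 {X N ν P A1 A2 A3 A4 A5 q Y y k K : ℝ} (hA1 : 0 ≤ A1) (hA2 : 0 ≤ A2)
    (hA3 : 0 ≤ A3) (hA4 : 0 ≤ A4) (hA5 : 0 ≤ A5) (hq : 0 ≤ q) (hY : Y ≤ 2 * y) (hk : 0 ≤ k)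
    (hK : 0 ≤ K) (hy : 0 ≤ y) (h1 : X ≤ 2 * N + 14 * K * y)
    (h2 : N ≤ (ν / 4 * P + A1 * q * Y + A5 * K * Y) + A2 * q * Y + A3 * q * Y
      + (ν / 4 * P + A4 * k * Y)) :
    X ≤ ν * P + (4 * (A1 + A2 + A3) * q + (4 * A4 + 14 + 4 * A5) * (K + k)) * y := by
  have a1 : (A1 + A2 + A3) * q * Y ≤ (A1 + A2 + A3) * q * (2 * y) :=
    mul_le_mul_of_nonneg_left hY (by positivity)
  have a2 : A4 * k * Y ≤ A4 * k * (2 * y) := mul_le_mul_of_nonneg_left hY (by positivity)
  have a5 : A5 * K * Y ≤ A5 * K * (2 * y) := mul_le_mul_of_nonneg_left hY (by positivity)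
  have a3 : 0 ≤ A4 * K * y := by positivity
  have a4 : 0 ≤ k * y := by positivity
  have a6 : 0 ≤ A5 * (k * y) := by positivity
  have e1 : (4 * (A1 + A2 + A3) * q + (4 * A4 + 14 + 4 * A5) * (K + k)) * y
      = 2 * ((A1 + A2 + A3) * q * (2 * y)) + 2 * (A4 * k * (2 * y)) + 4 * (A4 * K * y)
        + 14 * (K * y) + 14 * (k * y) + 2 * (A5 * K * (2 * y)) + 4 * (A5 * (k * y)) := by ring
  have e2 : A1 * q * Y + A2 * q * Y + A3 * q * Y = (A1 + A2 + A3) * q * Y := by ring
  rw [e1]
  linarith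

/-- **The estimate at a fixed time.** -/
theorem fix_en2 {ν K R η σ Q Γ : ℝ} {v : V → V} (hν : 0 < ν) (hK : 0 < K) (hσ : 0 < σ) (hσ1 : σ ≤ 1)
    (hv : ∀ i, SP (fun x => v x i)) (hdiv : ∀ x, ∑ i, pd i (fun y => v y i) x = 0)
    (hη : 0 < η) (hηR : η ≤ R) (hR1 : R ≤ 1) (hQ : energy v ≤ Q) (hcone : Cone (cu v) K σ R)
    
    (hΓ : ∀ x, circ (cu v) K η x ≤ Γ) (hsin : SinC (cu v) ν K (ds σ) η) :
    -(2 * cub (fun i y => v y i))
      ≤ ν * palin v + D3 σ * rate1 ν K R η Γ (LL Q K R) * enstrophy v := by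
  have hCP := CP2_pos
  have hC6 := C6_pos
  have hCL := CL_pos hσ
  have hCM := CM_pos hσ
  have hCS := CS_nonneg
  have hAA := AA_pos
  have hB := one_le_BB
  have hvU := vU_nonneg
  have hBd := Bd_nonneg
  have hsq := Real.sqrt_nonneg (27 * vU)
  have hc1 := dq_pos hσ
  have hR0 : 0 < R := hη.trans_le hηR
  have hom := sp_cu hv
  have hw := sp_cw hom K
  have hl : ∀ i, SP (fun x => (cu v x - cw K (cu v) x) i) := fun i => (hom i).sub (hw i)
  have hy0 := enstrophy_nonneg v
  have hP0' := palin_nonneg v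
  have hQ0 : 0 ≤ Q := (energy_nonneg v).trans hQ
  have hL0 := LL_pos (Q := Q) hK hR0
  set L := LL Q K R with hLd
  set Λ' : ℝ := CL σ * L with hΛ'
  have hΛ'0 : 0 < Λ' := by positivity
  have hΓ0 : 0 < Γ := (circ_pos hK hη 0).trans_le (hΓ 0)
  set g : ℝ := min Γ L with hg
  have hg0 : 0 < g := lt_min hΓ0 hL0
  have hgL : g ≤ L := min_le_right _ _
  set Λ : ℝ := CM σ * g with hΛ
  have hΛ0 : 0 < Λ := by positivity
  set θ : ℝ := dq σ * CM σ * ν with hθ
  have hθ0 : 0 < θ := by positivity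
  -- the Morrey bound
  have hcwle : ∀ (x : V) (t : ℝ), ∫ z in U1, en (cw K (cu v) (x - t • z))
      ≤ ∫ z in U1, en (cu v (x - t • z)) := by
    intro x t
    have g1 : Continuous fun z : V => x - t • z := by fun_prop
    have g2 : Continuous fun z : V => en (cw K (cu v) (x - t • z)) := (f_cont hw).comp g1
    have g3 : Continuous fun z : V => en (cu v (x - t • z)) := (f_cont hom).comp g1
    exact setIntegral_mono (int_U1 g2) (int_U1 g3) fun z => Real.sqrt_le_sqrt (rsq_cw_le K _)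
  have hb : ∀ x t, 0 < t → t ≤ R / 4 →
      ∫ z in U1, en (cw K (cu v) (x - t • z)) ≤ Λ' / t ^ 2 := by
    intro x t ht htR
    have h1 := avg_en hv hK.le hR0 hR1 hσ hσ1 hQ hcone ht (by linarith) x
    exact (hcwle x t).trans h1
  -- the near part
  have hpt : ∀ x, ∃ l a s : ℝ, 0 < l ∧ l ≤ Λ ∧ 0 < a ∧ a ≤ 1 ∧ a * l ≤ θ ∧ 0 ≤ s ∧
      s * (1 + Real.log (1 / a)) ≤ a ∧
      (∀ t, 0 < t → t ≤ η / 4 → ∫ z in U1, en (cw K (cu v) (x - t • z)) ≤ l / t ^ 2) ∧
      ∀ y, en (x - y) ≤ η / 4 → en (crossProduct (cw K (cu v) x) (cw K (cu v) y))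
        ≤ s * (en (cw K (cu v) x) * en (cw K (cu v) y)) := by
    intro x
    have hc0 := circ_pos (w := cu v) hK hη x
    set gx : ℝ := min (circ (cu v) K η x) L with hgx
    have hgx0 : 0 < gx := lt_min hc0 hL0
    have hgxg : gx ≤ g := min_le_min (hΓ x) le_rfl
    set a : ℝ := min 1 (dq σ * (ν / gx)) with ha
    have ha0 : 0 < a := lt_min one_pos (by positivity)
    have ha1 : a ≤ 1 := min_le_left _ _
    have ha2 : a * (CM σ * gx) ≤ θ := by
      have h1 : a ≤ dq σ * (ν / gx) := min_le_right _ _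
      calc a * (CM σ * gx) ≤ dq σ * (ν / gx) * (CM σ * gx) :=
            mul_le_mul_of_nonneg_right h1 (by positivity)
        _ = θ := by rw [hθ]; field_simp
    have hbx : ∀ t, 0 < t → t ≤ η / 4 →
        ∫ z in U1, en (cw K (cu v) (x - t • z)) ≤ CM σ * gx / t ^ 2 := by
      intro t ht htR
      have h1 := avg_w hv hK hη hηR hR1 hσ hσ1 hQ hcone x (circ_eq hη x) ht (by linarith)
      exact (hcwle x t).trans h1
    obtain ⟨s, hs0, hsa, hang⟩ : ∃ s : ℝ, 0 ≤ s ∧ s * (1 + Real.log (1 / a)) ≤ a ∧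
        ∀ y, en (x - y) ≤ η / 4 → en (crossProduct (cw K (cu v) x) (cw K (cu v) y))
          ≤ s * (en (cw K (cu v) x) * en (cw K (cu v) y)) := by
      rcases min_cases 1 (dq σ * (ν / gx)) with h | h
      · have e1 : a = 1 := by rw [ha]; exact h.1
        refine ⟨1, zero_le_one, ?_, fun y _ => ?_⟩
        · rw [e1]; norm_num
        · rw [one_mul]
          exact en_cross_le _ _
      · have e1 : a = dq σ * (ν / gx) := by rw [ha]; exact h.1
        have hgm : sl (ν / circ (cu v) K η x) ≤ sl (ν / gx) := sl_mono (by positivity)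
          (div_le_div_of_nonneg_left hν.le hgx0 (min_le_left _ _))
        refine ⟨ds σ * sl (ν / gx), (mul_pos (ds_pos hσ) (sl_pos (by positivity))).le, ?_,
          fun y hxy => cw_sin_pt hK x y fun hx hy => (hsin x y hx hy (by linarith)).trans
            (mul_le_mul_of_nonneg_right (mul_le_mul_of_nonneg_left hgm (ds_pos hσ).le)
              (mul_nonneg (en_nonneg _) (en_nonneg _)))⟩
        rw [e1]
        exact sl_ok hσ (by positivity) (by rw [← e1]; exact ha1)
    exact ⟨CM σ * gx, a, s, by positivity, mul_le_mul_of_nonneg_left hgxg hCM.le, ha0, ha1, ha2,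
      hs0, hsa, hbx, hang⟩
  -- the large scales
  set M : ℝ := 32 * (Bd * Real.sqrt (27 * vU)) * (L / R ^ 2) with hMd
  have hMle : ∀ x i j, |mo phi (R / 4) (pd i (fun y => v y j)) x| ≤ M := by
    intro x i j
    have h1 : ∫ x in cube, v x j ^ 2 ≤ Q := by
      refine le_trans ?_ hQ
      unfold energy
      exact Finset.single_le_sum (f := fun i => ∫ x in cube, v x i ^ 2)
        (fun i _ => integral_nonneg fun x => sq_nonneg _) (Finset.mem_univ j)
    refine (mo_pd_le (hv j) i (by positivity) (by linarith) x h1).trans ?_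
    have h2 : Real.sqrt (Q / (R / 4)) / (R / 4) ^ 2 = 32 * (Real.sqrt (Q / R) / R ^ 2) := by
      have e1 : Q / (R / 4) = 2 ^ 2 * (Q / R) := by field_simp; norm_num
      rw [e1, Real.sqrt_mul (by norm_num), Real.sqrt_sq (by norm_num)]
      field_simp
      ring
    have h3 : Real.sqrt (Q / R) / R ^ 2 ≤ L / R ^ 2 := by
      refine div_le_div_of_nonneg_right ?_ (by positivity)
      rw [hLd]
      unfold LL
      have : 0 ≤ K * R ^ 2 := by positivity
      linarith
    rw [h2, hMd]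
    have h4 : 0 ≤ Bd * Real.sqrt (27 * vU) := by positivity
    calc Bd * Real.sqrt (27 * vU) * (32 * (Real.sqrt (Q / R) / R ^ 2))
        ≤ Bd * Real.sqrt (27 * vU) * (32 * (L / R ^ 2)) :=
          mul_le_mul_of_nonneg_left (by linarith) h4
      _ = _ := by ring
  have hr1 : ∫ x in cube, rsq (cw K (cu v) x) ≤ 2 * enstrophy v := by
    refine le_trans ?_ (int_rsq_cu hv)
    exact setIntegral_mono (sp_rsq hw).int (sp_rsq hom).int fun x => rsq_cw_le K x
  set Y := ∫ x in cube, rsq (cw K (cu v) x) with hY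
  have hY0 : 0 ≤ Y := integral_nonneg fun x => rsq_nonneg _
  set G := ∫ x in cube, G2 (cw K (cu v)) x with hG
  have hG0 : 0 ≤ G := integral_nonneg fun x => G2_nonneg _ _
  have h1 := prod_gen2 (v := v) (w := cw K (cu v)) (l := fun x => cu v x - cw K (cu v) x)
    (θ := θ) (κ := K) (T := R / 4) (ρ := η / 4) (Y := Y) (L := 2 * K) (Λ := Λ) (Λ' := Λ')
    (M := M) hv hw hl hdiv (fun x => by simp) (fun x i => cw_diff hK x i) hθ0.le hK
    (by positivity) (by linarith) hY hΛ0 hΛ'0 hpt hb hMle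
  rw [← hG] at h1
  have h2 : G ≤ AA * (6 * palin v) := by
    have h3 : G ≤ ∫ x in cube, AA * G2 (cu v) x :=
      setIntegral_mono (integrableOn_cube (G2_cont hw))
        (integrableOn_cube (continuous_const.mul (G2_cont hom))) fun x => G2_cw_le hom hK x
    rw [integral_const_mul] at h3
    exact h3.trans (mul_le_mul_of_nonneg_left (int_G2_cu hv) hAA.le)
  have h6 := abs_le.1 (Nw_diff hv hK)
  have h7 := abs_le.1 h1
  have h8 := cub_eq_Nw hv hdiv
  clear_value G Y
  have hrt := rt_pos hΓ0 hL0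
  have hrt1 := le_rt hΓ0 hL0
  have hrt2 := min_le_rt hΓ0 hL0
  rw [← hg] at hrt2
  set q : ℝ := rt Γ L / η ^ 2 + L / R ^ 2 with hq
  have hLR : 0 < L / R ^ 2 := by positivity
  have hrη : 0 < rt Γ L / η ^ 2 := by positivity
  have hq0 : 0 < q := by positivity
  have hq1 : rt Γ L / η ^ 2 ≤ q := by rw [hq]; linarith
  have hq2 : L / R ^ 2 ≤ q := by rw [hq]; linarith
  set ε' : ℝ := ν / (24 * AA) with hε'
  have hε'0 : 0 < ε' := by positivity
  set P : ℝ := R / 4 * (36 * BB * vU * (2 * K)) with hP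
  have hP0 : 0 ≤ P := by positivity
  -- the first term
  have t1 : CP2 * (θ * (6 * CS * G) + Λ * (4 * Y / (η / 4) ^ 2)) + C6 * K * Y
      ≤ ν / 4 * palin v + 64 * CP2 * CM σ * q * Y + C6 * K * Y := by
    have a1 : CP2 * (θ * (6 * CS * G)) ≤ ν / 4 * palin v := by
      have b1 : CP2 * (θ * (6 * CS * G)) ≤ CP2 * (θ * (6 * CS * (AA * (6 * palin v)))) := by
        refine mul_le_mul_of_nonneg_left (mul_le_mul_of_nonneg_left
          (mul_le_mul_of_nonneg_left h2 (by positivity)) hθ0.le) hCP.le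
      refine b1.trans ?_
      have b2 : CP2 * (θ * (6 * CS * (AA * (6 * palin v))))
          = ν / 4 * palin v * (CS / (CS + 1)) := by
        rw [hθ]
        unfold dq
        field_simp
        ring
      rw [b2]
      refine mul_le_of_le_one_right (by positivity) ?_
      rw [div_le_one (by positivity)]
      linarith
    have a2 : CP2 * (Λ * (4 * Y / (η / 4) ^ 2)) ≤ 64 * CP2 * CM σ * q * Y := by
      have b0 : g ≤ rt Γ L := (min_le_left _ _).trans hrt1
      have b1 : Λ ≤ CM σ * rt Γ L := mul_le_mul_of_nonneg_left b0 hCM.le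
      have b2 : 0 ≤ 4 * Y / (η / 4) ^ 2 := by positivity
      have b3 : CP2 * (Λ * (4 * Y / (η / 4) ^ 2))
          ≤ CP2 * (CM σ * rt Γ L * (4 * Y / (η / 4) ^ 2)) :=
        mul_le_mul_of_nonneg_left (mul_le_mul_of_nonneg_right b1 b2) hCP.le
      refine b3.trans ?_
      have b4 : CP2 * (CM σ * rt Γ L * (4 * Y / (η / 4) ^ 2))
          = 64 * CP2 * CM σ * Y * (rt Γ L / η ^ 2) := by
        field_simp
        ring
      rw [b4]
      have b5 := mul_le_mul_of_nonneg_left hq1
        (by positivity : 0 ≤ 64 * CP2 * CM σ * Y)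
      linarith
    have e1 : CP2 * (θ * (6 * CS * G) + Λ * (4 * Y / (η / 4) ^ 2))
        = CP2 * (θ * (6 * CS * G)) + CP2 * (Λ * (4 * Y / (η / 4) ^ 2)) := by ring
    rw [e1]
    linarith
  -- the second term
  have t2 : 24 * BB * (Λ / (η / 4) ^ 2) * Real.log (1 + Λ' / (8 * Λ)) * Y
      ≤ 384 * BB * CM σ * q * Y := by
    have c1 : Λ' / (8 * Λ) ≤ L / g := by
      rw [hΛ', hΛ, div_le_div_iff₀ (by positivity) hg0]
      have c2 : CL σ ≤ CM σ := by
        have := Cf_pos
        unfold CM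
        have : 0 ≤ 3 * Cf / σ ^ 2 := by positivity
        linarith
      have c3 : CL σ * (L * g) ≤ CM σ * (L * g) := mul_le_mul_of_nonneg_right c2 (by positivity)
      have c4 : 0 ≤ CM σ * (L * g) := by positivity
      nlinarith
    have c5 : Real.log (1 + Λ' / (8 * Λ)) ≤ Real.log (1 + L / g) :=
      Real.log_le_log (by positivity) (by linarith)
    have c6 : 24 * BB * (Λ / (η / 4) ^ 2) = 384 * BB * CM σ * (g / η ^ 2) := by
      rw [hΛ]
      field_simp
      ring
    have c7 : g / η ^ 2 * Real.log (1 + L / g) ≤ q := by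
      refine le_trans ?_ hq1
      rw [div_mul_eq_mul_div]
      exact div_le_div_of_nonneg_right hrt2 (by positivity)
    rw [c6]
    calc 384 * BB * CM σ * (g / η ^ 2) * Real.log (1 + Λ' / (8 * Λ)) * Y
        ≤ 384 * BB * CM σ * (g / η ^ 2) * Real.log (1 + L / g) * Y :=
          mul_le_mul_of_nonneg_right (mul_le_mul_of_nonneg_left c5 (by positivity)) hY0
      _ = 384 * BB * CM σ * (g / η ^ 2 * Real.log (1 + L / g)) * Y := by ring
      _ ≤ 384 * BB * CM σ * q * Y :=
          mul_le_mul_of_nonneg_right (mul_le_mul_of_nonneg_left c7 (by positivity)) hY0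
  -- the third term
  have t3 : 3 * M * Y ≤ 96 * (Bd * Real.sqrt (27 * vU)) * q * Y := by
    rw [hMd]
    have c1 := mul_le_mul_of_nonneg_left hq2
      (by positivity : 0 ≤ 96 * (Bd * Real.sqrt (27 * vU)) * Y)
    linarith
  -- the fourth term
  have t4 : P * (Real.sqrt G * Real.sqrt Y) ≤ ν / 4 * palin v + P ^ 2 / (4 * ε') * Y := by
    have b2 := young_sqrt (P := P) hG0 hY0 hε'0
    have b3 : ε' * G ≤ ν / 4 * palin v := by
      calc ε' * G ≤ ε' * (AA * (6 * palin v)) := mul_le_mul_of_nonneg_left h2 hε'0.le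
        _ = ν / 4 * palin v := by rw [hε']; field_simp; ring
    linarith
  have t4' : P ^ 2 / (4 * ε') = 6 * AA * (18 * BB * vU) ^ 2 * ((K * R) ^ 2 / ν) := by
    rw [hP, hε']
    field_simp
    ring
  have t5 : R / 4 * (36 * BB * vU * (2 * K) * (Real.sqrt G * Real.sqrt Y))
      = P * (Real.sqrt G * Real.sqrt Y) := by rw [hP]; ring
  rw [t5] at h7
  have h9 := h7.2
  rw [t4'] at t4
  have h10 : -(2 * cub (fun i y => v y i)) ≤ 2 * Nw (cw K (cu v)) v + 14 * K * enstrophy v := by
    linarith [h6.2]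
  have hfin := fix_alg2 (X := -(2 * cub (fun i y => v y i))) (N := Nw (cw K (cu v)) v) (ν := ν)
    (P := palin v) (A1 := 64 * CP2 * CM σ) (A2 := 384 * BB * CM σ) (A5 := C6)
    (A3 := 96 * (Bd * Real.sqrt (27 * vU))) (A4 := 6 * AA * (18 * BB * vU) ^ 2) (q := q) (Y := Y)
    (y := enstrophy v) (k := (K * R) ^ 2 / ν) (K := K) (by positivity) (by positivity)
    (by positivity) (by positivity) hC6.le hq0.le hr1 (by positivity) hK.le hy0 h10 (by
      linarith)
  refine hfin.trans ?_
  have hKq : K ≤ q := by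
    refine le_trans ?_ hq2
    rw [le_div_iff₀ (by positivity), hLd]
    unfold LL
    have := Real.sqrt_nonneg (Q / R)
    linarith
  have hD1 := D1_pos hσ
  have hD2 := D2_pos
  have hk0 : 0 ≤ (K * R) ^ 2 / ν := by positivity
  have e1 : 4 * (64 * CP2 * CM σ + 384 * BB * CM σ + 96 * (Bd * Real.sqrt (27 * vU))) = D1 σ := rfl
  have e2 : 4 * (6 * AA * (18 * BB * vU) ^ 2) + 14 + 4 * C6 = D2 := by unfold D2; ring
  rw [e1, e2]
  have h11 : D1 σ * q + D2 * (K + (K * R) ^ 2 / ν) ≤ D3 σ * rate1 ν K R η Γ L := by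
    have e3 : rate1 ν K R η Γ L = q + (K * R) ^ 2 / ν := rfl
    rw [e3]
    unfold D3
    have a1 : D2 * (K + (K * R) ^ 2 / ν) ≤ D2 * (q + (K * R) ^ 2 / ν) :=
      mul_le_mul_of_nonneg_left (by linarith) hD2.le
    have a2 : 0 ≤ D1 σ * ((K * R) ^ 2 / ν) := by positivity
    linarith
  have h12 := mul_le_mul_of_nonneg_right h11 hy0
  linarith

end Pool.Agent.R211.CE
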