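import Pool.Agent.R211.CE.Tst

/-!
The Morrey bound of the curl of a field by the energy, when its direction lies in a cone.
-/

open MeasureTheory Set Metric Filter Topology
open scoped ContDiff RealInnerProductSpace
open H459R3.NS Pool.Agent.R210 Pool.Agent.R211.CD

namespace Pool.Agent.R211.CE

/-- The derivatives of the components. -/
noncomputable def dU (U : E → E) (j k : Fin 3) (y : E) : ℝ := fderiv ℝ (fun z => U z k) y (ei j)

/-- The curl. -/
noncomputable def cuE (U : E → E) (y : E) : E :=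
  WithLp.toLp 2 ![dU U 1 2 y - dU U 2 1 y, dU U 2 0 y - dU U 0 2 y, dU U 0 1 y - dU U 1 0 y]

/-- The radial factor of the derivative of the cutoff. -/
noncomputable def Hh (R : ℝ) (x y : E) : ℝ := deriv hh (‖y - x‖ ^ 2 / R ^ 2) * (2 / R ^ 2)

theorem dhh_smooth : ContDiff ℝ ∞ (deriv hh) := (contDiff_infty_iff_deriv.1 hh_smooth).2

theorem Hh_smooth (R : ℝ) (x : E) : ContDiff ℝ ∞ (Hh R x) := by
  unfold Hh
  refine ContDiff.mul ?_ contDiff_const
  exact dhh_smooth.comp (((contDiff_norm_sq ℝ).comp (contDiff_id.sub contDiff_const)).div_const _)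

theorem Hh_zero {R : ℝ} (hR : 0 < R) {x y : E} (h : y ∉ ball x R) : Hh R x y = 0 := by
  unfold Hh
  have h1 : R ≤ ‖y - x‖ := by
    rw [mem_ball, dist_eq_norm] at h
    exact not_lt.1 h
  rw [dhh_zero (ze_arg hR h1), zero_mul]

theorem Hh_le {R : ℝ} (hR : 0 < R) (x y : E) : |Hh R x y| ≤ 2 * HB / R ^ 2 := by
  unfold Hh
  rw [abs_mul, abs_of_pos (by positivity : 0 < 2 / R ^ 2)]
  have h1 := dhh_le (s := ‖y - x‖ ^ 2 / R ^ 2) (by positivity)
  calc _ ≤ HB * (2 / R ^ 2) := mul_le_mul_of_nonneg_right h1 (by positivity)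
    _ = _ := by ring

theorem Hh_fderiv (R : ℝ) (x y : E) : HasFDerivAt (Hh R x)
    ((deriv (deriv hh) (‖y - x‖ ^ 2 / R ^ 2) * (2 / R ^ 2) ^ 2) • innerSL ℝ (y - x)) y := by
  have h2 : HasFDerivAt (fun y : E => ‖y - x‖ ^ 2) (2 • (innerSL ℝ (y - x))) y := by
    have := (hasStrictFDerivAt_norm_sq (y - x)).hasFDerivAt
    exact this.comp y ((hasFDerivAt_id y).sub_const x)
  have h3 : HasFDerivAt (fun y : E => ‖y - x‖ ^ 2 / R ^ 2)
      ((R ^ 2)⁻¹ • (2 • (innerSL ℝ (y - x)))) y := by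
    have := h2.mul_const ((R ^ 2)⁻¹)
    exact this
  have h5 : HasDerivAt (deriv hh) (deriv (deriv hh) (‖y - x‖ ^ 2 / R ^ 2))
      (‖y - x‖ ^ 2 / R ^ 2) := (dhh_smooth.differentiable (by norm_num) _).hasDerivAt
  have h4 := (h5.comp_hasFDerivAt y h3).mul_const (2 / R ^ 2)
  refine (h4 : HasFDerivAt (Hh R x) _ y).congr_fderiv ?_
  ext v
  simp only [ContinuousLinearMap.smul_apply, smul_eq_mul, nsmul_eq_mul, Nat.cast_ofNat]
  ring

/-- The components of the cut off field. -/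
noncomputable def Fs (b R ρ : ℝ) (x e : E) (i : Fin 3) (y : E) : ℝ :=
  Gs b ρ x e y * (Hh R x y * (y - x) i)

theorem proj_smooth (x : E) (i : Fin 3) : ContDiff ℝ ∞ fun y : E => (y - x) i :=
  (EuclideanSpace.proj i : E →L[ℝ] ℝ).contDiff.comp (contDiff_id.sub contDiff_const)

theorem proj_fderiv (x : E) (i : Fin 3) (y : E) : HasFDerivAt (fun y : E => (y - x) i)
    (EuclideanSpace.proj i : E →L[ℝ] ℝ) y := by
  have h1 := (EuclideanSpace.proj i : E →L[ℝ] ℝ).hasFDerivAt (x := y - x)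
  have h2 := h1.comp y ((hasFDerivAt_id y).sub_const x)
  exact h2

section

variable {ρ : ℝ} (hρ : 0 < ρ)

include hρ in
theorem Fs_smooth (b R : ℝ) (x e : E) (i : Fin 3) : ContDiff ℝ ∞ (Fs b R ρ x e i) :=
  (Gs_smooth hρ b x e).mul ((Hh_smooth R x).mul (proj_smooth x i))

theorem Fs_zero (b : ℝ) {R : ℝ} (hR : 0 < R) (ρ : ℝ) (x e : E) (i : Fin 3) {y : E}
    (h : y ∉ ball x R) : Fs b R ρ x e i y = 0 := by
  unfold Fs
  rw [Hh_zero hR h, zero_mul, mul_zero]

theorem Fs_compact (b : ℝ) {R : ℝ} (hR : 0 < R) (ρ : ℝ) (x e : E) (i : Fin 3) :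
    HasCompactSupport (Fs b R ρ x e i) := by
  refine HasCompactSupport.of_support_subset_isCompact (isCompact_closedBall x R) ?_
  intro y hy
  by_contra hc
  exact hy (Fs_zero b hR ρ x e i fun h => hc (ball_subset_closedBall h))

theorem inner_ei (z : E) (j : Fin 3) : ⟪z, ei j⟫ = z j := by
  unfold ei
  rw [EuclideanSpace.inner_single_right]
  simp

theorem ei_apply (i j : Fin 3) : ei j i = if i = j then 1 else 0 := by
  unfold ei
  rw [PiLp.single_apply]

theorem proj_ap (i : Fin 3) (v : E) : (EuclideanSpace.proj i : E →L[ℝ] ℝ) v = v i := rfl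

include hρ in
theorem Fs_anti (b R : ℝ) (x e y : E) (i j : Fin 3) :
    fderiv ℝ (Fs b R ρ x e i) y (ei j) - fderiv ℝ (Fs b R ρ x e j) y (ei i)
      = Hh R x y * (fderiv ℝ (Gs b ρ x e) y (ei j) * (y - x) i
        - fderiv ℝ (Gs b ρ x e) y (ei i) * (y - x) j) := by
  have h1 : HasFDerivAt (Gs b ρ x e) (fderiv ℝ (Gs b ρ x e) y) y :=
    ((Gs_smooth hρ b x e).differentiable (by norm_num) y).hasFDerivAt
  have h2 := Hh_fderiv R x y
  have key : ∀ i j : Fin 3, fderiv ℝ (Fs b R ρ x e i) y (ei j)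
      = fderiv ℝ (Gs b ρ x e) y (ei j) * (Hh R x y * (y - x) i)
        + Gs b ρ x e y * ((deriv (deriv hh) (‖y - x‖ ^ 2 / R ^ 2) * (2 / R ^ 2) ^ 2
          * (y - x) j) * (y - x) i + Hh R x y * ei j i) := by
    intro i j
    have h3 := h1.mul (h2.mul (proj_fderiv x i y))
    have h4 : HasFDerivAt (Fs b R ρ x e i) _ y := h3
    rw [h4.fderiv]
    simp only [ContinuousLinearMap.add_apply, ContinuousLinearMap.smul_apply, smul_eq_mul,
      innerSL_apply_apply, inner_ei, proj_ap, Pi.mul_apply]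
    ring
  rw [key, key]
  have hs : ei j i = ei i j := by
    rw [ei_apply, ei_apply]
    by_cases h : i = j
    · rw [if_pos h, if_pos h.symm]
    · rw [if_neg h, if_neg (fun h' => h h'.symm)]
  rw [hs]
  ring

theorem coord_le (z : E) (i : Fin 3) : |z i| ≤ ‖z‖ := by
  have := PiLp.norm_apply_le z i
  rwa [Real.norm_eq_abs] at this

include hρ in
theorem Fs_anti_le (b : ℝ) {R : ℝ} (hR : 0 < R) (x : E) {e : E} (he : ‖e‖ = 1) (y : E)
    (i j : Fin 3) :
    |fderiv ℝ (Fs b R ρ x e i) y (ei j) - fderiv ℝ (Fs b R ρ x e j) y (ei i)|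
      ≤ 8 * HB / R ^ 2 := by
  have hB := one_le_HB
  rw [Fs_anti hρ, abs_mul]
  have hD := DD_pos hρ (y - x)
  have hk : ∀ i j : Fin 3, |fderiv ℝ (Gs b ρ x e) y (ei j) * (y - x) i| ≤ 2 := by
    intro i j
    rw [abs_mul]
    have h1 := Gs_fderiv_le hρ b x he y (ei j)
    rw [norm_ei] at h1
    have h2 := (coord_le (y - x) i).trans (norm_le_DD hρ (y - x))
    calc _ ≤ 2 * 1 / DD ρ (y - x) * DD ρ (y - x) := mul_le_mul h1 h2 (abs_nonneg _) (by positivity)
      _ = 2 := by field_simp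
  have h3 : |fderiv ℝ (Gs b ρ x e) y (ei j) * (y - x) i
      - fderiv ℝ (Gs b ρ x e) y (ei i) * (y - x) j| ≤ 4 := by
    have a1 := abs_le.1 (hk i j)
    have a2 := abs_le.1 (hk j i)
    rw [abs_le]
    constructor
    · linarith [a1.1, a2.2]
    · linarith [a1.2, a2.1]
  calc _ ≤ 2 * HB / R ^ 2 * 4 := mul_le_mul (Hh_le hR x y) h3 (abs_nonneg _) (by positivity)
    _ = _ := by ring

include hρ in
theorem Fs_anti_zero (b : ℝ) {R : ℝ} (hR : 0 < R) (x e : E) {y : E} (hy : y ∉ ball x R)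
    (i j : Fin 3) :
    fderiv ℝ (Fs b R ρ x e i) y (ei j) - fderiv ℝ (Fs b R ρ x e j) y (ei i) = 0 := by
  rw [Fs_anti hρ, Hh_zero hR hy, zero_mul]

include hρ in
/-- The cutoff term is bounded by the velocity. -/
theorem int_cut (b : ℝ) {R : ℝ} (hR : 0 < R) (x : E) {e : E} (he : ‖e‖ = 1) {U : E → E}
    (hU : ContDiff ℝ 1 U) : |∫ y in ball x R, Gs b ρ x e y * dZ R x y (cuE U y)|
      ≤ 24 * HB / R ^ 2 * ∫ y in ball x R, ‖U y‖ := by
  have hB := one_le_HB
  have hUi : ∀ i, ContDiff ℝ 1 fun y => U y i := fun i =>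
    (EuclideanSpace.proj i : E →L[ℝ] ℝ).contDiff.comp hU
  set F := Fs b R ρ x e with hF
  have hFs : ∀ i, ContDiff ℝ ∞ (F i) := fun i => Fs_smooth hρ b R x e i
  have hFc : ∀ i, HasCompactSupport (F i) := fun i => Fs_compact b hR ρ x e i
  have hdc : ∀ j k, Continuous (dU U j k) := fun j k =>
    ((hUi k).continuous_fderiv one_ne_zero).clm_apply continuous_const
  have hi1 : ∀ i j k, Integrable fun y => dU U j k y * F i y := fun i j k =>
    ((hdc j k).mul (hFs i).continuous).integrable_of_hasCompactSupport (hFc i).mul_left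
  have hi2 : ∀ i j k, Integrable fun y => U y k * fderiv ℝ (F i) y (ei j) := by
    intro i j k
    have h1 : Continuous fun y => fderiv ℝ (F i) y (ei j) :=
      ((hFs i).continuous_fderiv (by norm_num)).clm_apply continuous_const
    have h3 : HasCompactSupport fun y => fderiv ℝ (F i) y (ei j) :=
      ((hFc i).fderiv (𝕜 := ℝ)).comp_left (g := fun L : E →L[ℝ] ℝ => L (ei j)) (by simp)
    exact ((hUi k).continuous.mul h1).integrable_of_hasCompactSupport h3.mul_left
  have hp : ∀ i j k, ∫ y, dU U j k y * F i y = -∫ y, U y k * fderiv ℝ (F i) y (ei j) := by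
    intro i j k
    have := int_fderiv_test (hUi k) (hFs i) (hFc i) (ei j)
    have e1 : ∫ y, dU U j k y * F i y = ∫ y, fderiv ℝ (fun z => U z k) y (ei j) * F i y := rfl
    rw [e1]
    linarith
  have e0 : ∀ y, Gs b ρ x e y * dZ R x y (cuE U y)
      = (dU U 1 2 y * F 0 y - dU U 2 1 y * F 0 y) + (dU U 2 0 y * F 1 y - dU U 0 2 y * F 1 y)
        + (dU U 0 1 y * F 2 y - dU U 1 0 y * F 2 y) := by
    intro y
    have h1 : ⟪y - x, cuE U y⟫ = ∑ i, (y - x) i * cuE U y i := by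
      rw [PiLp.inner_apply]
      exact Finset.sum_congr rfl fun i _ => by simp [mul_comm]
    have h2 : dZ R x y (cuE U y) = Hh R x y * ∑ i, (y - x) i * cuE U y i := by
      unfold dZ Hh
      rw [h1]
      ring
    have c0 : cuE U y 0 = dU U 1 2 y - dU U 2 1 y := rfl
    have c1 : cuE U y 1 = dU U 2 0 y - dU U 0 2 y := rfl
    have c2 : cuE U y 2 = dU U 0 1 y - dU U 1 0 y := rfl
    rw [h2, Fin.sum_univ_three, c0, c1, c2, hF]
    simp only [Fs]
    ring
  have hz : ∀ y, y ∉ ball x R → Gs b ρ x e y * dZ R x y (cuE U y) = 0 := by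
    intro y hy
    rw [dZ_zero hR hy, mul_zero]
  rw [setIntegral_eq_integral_of_forall_compl_eq_zero hz]
  simp_rw [e0]
  have i3 : ∀ i j k j' k', Integrable fun y => dU U j k y * F i y - dU U j' k' y * F i y :=
    fun i j k j' k' => (hi1 i j k).sub (hi1 i j' k')
  have i4 : Integrable fun y => (dU U 1 2 y * F 0 y - dU U 2 1 y * F 0 y)
      + (dU U 2 0 y * F 1 y - dU U 0 2 y * F 1 y) := (i3 0 1 2 2 1).add (i3 1 2 0 0 2)
  rw [integral_add i4 (i3 2 0 1 1 0), integral_add (i3 0 1 2 2 1) (i3 1 2 0 0 2), integral_sub (hi1 0 1 2) (hi1 0 2 1),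
    integral_sub (hi1 1 2 0) (hi1 1 0 2), integral_sub (hi1 2 0 1) (hi1 2 1 0)]
  simp_rw [hp]
  set L : Fin 3 → Fin 3 → E → ℝ := fun i j y =>
    fderiv ℝ (F i) y (ei j) - fderiv ℝ (F j) y (ei i) with hL
  have hLi : ∀ i j k, Integrable fun y => U y k * L i j y := by
    intro i j k
    have h1 := (hi2 i j k).sub (hi2 j i k)
    refine h1.congr (Filter.Eventually.of_forall fun y => ?_)
    simp only [hL, Pi.sub_apply]
    ring
  have hLs : ∀ i j k, (∫ y, U y k * fderiv ℝ (F i) y (ei j))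
      - ∫ y, U y k * fderiv ℝ (F j) y (ei i) = ∫ y, U y k * L i j y := by
    intro i j k
    rw [← integral_sub (hi2 i j k) (hi2 j i k)]
    congr 1
    funext y
    simp only [hL]
    ring
  have hLb : ∀ i j k, |∫ y, U y k * L i j y| ≤ 8 * HB / R ^ 2 * ∫ y in ball x R, ‖U y‖ := by
    intro i j k
    have hz2 : ∀ y, y ∉ ball x R → U y k * L i j y = 0 := by
      intro y hy
      simp only [hL, hF]
      rw [Fs_anti_zero hρ b hR x e hy, mul_zero]
    rw [← setIntegral_eq_integral_of_forall_compl_eq_zero hz2, ← integral_const_mul,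
      ← Real.norm_eq_abs]
    refine norm_integral_le_of_norm_le ((intOn_ball hU.continuous.norm x R).const_mul _)
      (Filter.Eventually.of_forall fun y => ?_)
    rw [Real.norm_eq_abs, abs_mul, mul_comm]
    exact mul_le_mul (Fs_anti_le hρ b hR x he y i j) (coord_le (U y) k) (abs_nonneg _)
      (by positivity)
  have b1 := abs_le.1 (hLb 2 1 0)
  have b2 := abs_le.1 (hLb 0 2 1)
  have b3 := abs_le.1 (hLb 1 0 2)
  have c1 := hLs 2 1 0
  have c2 := hLs 0 2 1
  have c3 := hLs 1 0 2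
  have e2 : 24 * HB / R ^ 2 * ∫ y in ball x R, ‖U y‖
      = 3 * (8 * HB / R ^ 2 * ∫ y in ball x R, ‖U y‖) := by ring
  rw [e2, abs_le]
  constructor
  · linarith [b1.1, b2.1, b3.1]
  · linarith [b1.2, b2.2, b3.2]

end

/-- The constant of the Morrey bound. -/
noncomputable def Cf : ℝ := 384 * HB * (1 + v3) / hh (1 / 4) ^ 2

theorem Cf_pos : 0 < Cf := by
  have h1 := one_le_HB
  have h2 := v3_pos
  have h3 : 0 < hh (1 / 4) := hh_pos (by norm_num)
  unfold Cf
  positivity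

/-- The final computation. -/
theorem flux_alg {X A G J B v h r ρ κ σ R N : ℝ} (hR : 0 < R) (hr : 0 < r) (hκ : 0 ≤ κ)
    (hB : 0 ≤ B) (hv : 0 < v) (hh0 : 0 < h) (hN : 0 ≤ N) (hσ : 0 < σ) (h2 : A ≤ 4 * B * v * R ^ 2)
    (h3 : G + (σ / 2 * X - κ * A) ≤ 0) (hG : |G| ≤ 24 * B / R ^ 2 * N)
    (h4 : h ^ 2 / (2 * ρ) * J ≤ X) (hρ : ρ = 4 * r / σ) :
    J ≤ 384 * B * (1 + v) / h ^ 2 / σ ^ 2 * r * (κ * R ^ 2 + N / R ^ 2) := by
  have hρ0 : 0 < ρ := by rw [hρ]; positivity
  have g1 := (abs_le.1 hG).1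
  have h5 : σ / 2 * X ≤ 24 * (B * (1 + v) * (κ * R ^ 2 + N / R ^ 2)) := by
    have a1 : κ * A ≤ κ * (4 * B * v * R ^ 2) := mul_le_mul_of_nonneg_left h2 hκ
    have e1 : κ * (4 * B * v * R ^ 2) = 4 * (B * v * (κ * R ^ 2)) := by ring
    have e2 : 24 * B / R ^ 2 * N = 24 * (B * (N / R ^ 2)) := by ring
    have e3 : 24 * (B * (1 + v) * (κ * R ^ 2 + N / R ^ 2))
        = 24 * (B * (κ * R ^ 2)) + 24 * (B * v * (κ * R ^ 2)) + 24 * (B * (N / R ^ 2))
          + 24 * (B * v * (N / R ^ 2)) := by ring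
    rw [e1] at a1
    rw [e2] at g1
    rw [e3]
    have p1 : 0 ≤ B * (κ * R ^ 2) := by positivity
    have p2 : 0 ≤ B * v * (κ * R ^ 2) := by positivity
    have p3 : 0 ≤ B * v * (N / R ^ 2) := by positivity
    linarith
  have h6 : J ≤ 2 * ρ / h ^ 2 * X := by
    have e1 : 2 * ρ / h ^ 2 * (h ^ 2 / (2 * ρ) * J) = J := by field_simp
    rw [← e1]
    exact mul_le_mul_of_nonneg_left h4 (by positivity)
  have h7 : X ≤ 2 / σ * (24 * (B * (1 + v) * (κ * R ^ 2 + N / R ^ 2))) := by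
    have e1 : 2 / σ * (σ / 2 * X) = X := by field_simp
    rw [← e1]
    exact mul_le_mul_of_nonneg_left h5 (by positivity)
  refine h6.trans ((mul_le_mul_of_nonneg_left h7 (by positivity)).trans (le_of_eq ?_))
  rw [hρ]
  field_simp
  ring

/-- **The Morrey bound.** -/
theorem flux_ball {U w : E → E} (hU : ContDiff ℝ 1 U) (hw : ContDiff ℝ 1 w)
    (hdiv : ∀ y, dvE w y = 0) (hwU : ∀ y, w y = cuE U y) {x e : E} {R κ σ : ℝ} (hR : 0 < R)
    (hκ : 0 ≤ κ) (hσ : 0 < σ) (hσ1 : σ ≤ 1) (he : ‖e‖ = 1)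
    (hpt : ∀ y ∈ ball x R, σ * ‖w y‖ - κ ≤ ⟪e, w y⟫) {r : ℝ} (hr : 0 < r) (hrR : r ≤ R / 2) :
    ∫ y in ball x r, ‖w y‖
      ≤ Cf / σ ^ 2 * r * (κ * R ^ 2 + (∫ y in ball x R, ‖U y‖) / R ^ 2) := by
  have hB := one_le_HB
  have hv := v3_pos
  have hh0 : 0 < hh (1 / 4) := hh_pos (by norm_num)
  set ρ : ℝ := 4 * r / σ with hρd
  have hρ : 0 < ρ := by positivity
  have hσρ : σ * ρ = 4 * r := by rw [hρd]; field_simp
  set b : ℝ := 2 / σ with hb
  set φ := tps b R ρ x e with hφ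
  have hφs : ContDiff ℝ ∞ φ := tps_smooth hρ b R x e
  have hφc : HasCompactSupport φ := tps_compact b hR ρ x e
  have hfd0 : ∀ y, y ∉ ball x R → ∀ v, fderiv ℝ φ y v = 0 := by
    intro y hy v
    rw [hφ, tps_fderiv hρ, dZ_zero hR hy, ze_sub_zero hR hy]
    ring
  have hfdc : Continuous fun y => fderiv ℝ φ y := hφs.continuous_fderiv (by norm_num)
  have h0 : ∫ y in ball x R, fderiv ℝ φ y (w y) = 0 := by
    rw [setIntegral_eq_integral_of_forall_compl_eq_zero fun y hy => hfd0 y hy _]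
    exact int_dv_zero hw hdiv hφs hφc
  have hAc := As_cont hρ b R x e
  have hA0 := As_nonneg hρ b R x e
  have hwc := hw.continuous.norm
  have iA : IntegrableOn (As b R ρ x e) (ball x R) := intOn_ball hAc x R
  have iWA : IntegrableOn (fun y => ‖w y‖ * As b R ρ x e y) (ball x R) :=
    intOn_ball (hwc.mul hAc) x R
  have iw : IntegrableOn (fun y => fderiv ℝ φ y (w y)) (ball x R) :=
    intOn_ball (hfdc.clm_apply hw.continuous) x R
  have hZc : Continuous fun y => dZ R x y (w y) := by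
    unfold dZ
    have hz : Continuous fun y : E => y - x := continuous_id.sub continuous_const
    have h1 : Continuous fun y : E => ‖y - x‖ ^ 2 / R ^ 2 := (hz.norm.pow 2).div_const _
    have h2 : Continuous fun y : E => deriv hh (‖y - x‖ ^ 2 / R ^ 2) := dhh_cont.comp h1
    exact h2.mul ((continuous_const.mul (hz.inner hw.continuous)).div_const _)
  have iG : IntegrableOn (fun y => Gs b ρ x e y * dZ R x y (w y)) (ball x R) :=
    intOn_ball ((Gs_smooth hρ b x e).continuous.mul hZc) x R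
  have j1 : IntegrableOn (fun y => σ / 2 * (‖w y‖ * As b R ρ x e y)) (ball x R) :=
    iWA.const_mul _
  have j2 : IntegrableOn (fun y => κ * As b R ρ x e y) (ball x R) := iA.const_mul _
  have h3 : ∫ y in ball x R, (Gs b ρ x e y * dZ R x y (w y)
      + (σ / 2 * (‖w y‖ * As b R ρ x e y) - κ * As b R ρ x e y))
      ≤ ∫ y in ball x R, fderiv ℝ φ y (w y) := by
    refine setIntegral_mono_on (iG.add (j1.sub j2)) iw measurableSet_ball fun y hy => ?_
    have h4 := tps_ge hρ hσ hb R x (y := y) (hpt y hy)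
    rw [← hφ] at h4
    refine le_trans (le_of_eq ?_) h4
    ring
  have j3 : IntegrableOn (fun y => σ / 2 * (‖w y‖ * As b R ρ x e y) - κ * As b R ρ x e y)
    (ball x R) := j1.sub j2
  rw [integral_add iG j3, integral_sub j1 j2, integral_const_mul, integral_const_mul,
    h0] at h3
  have hG : |∫ y in ball x R, Gs b ρ x e y * dZ R x y (w y)|
      ≤ 24 * HB / R ^ 2 * ∫ y in ball x R, ‖U y‖ := by
    have := int_cut hρ b hR x he hU
    simp_rw [← hwU] at this
    exact this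
  have h2 := int_As hρ hσ hσ1 hb hR x he
  have h4 : hh (1 / 4) ^ 2 / (2 * ρ) * ∫ y in ball x r, ‖w y‖
      ≤ ∫ y in ball x R, ‖w y‖ * As b R ρ x e y := by
    have hsub : ball x r ⊆ ball x R := ball_subset_ball (by linarith)
    have h5 : ∫ y in ball x r, ‖w y‖ * As b R ρ x e y
        ≤ ∫ y in ball x R, ‖w y‖ * As b R ρ x e y :=
      setIntegral_mono_set iWA (Filter.Eventually.of_forall fun y =>
        mul_nonneg (norm_nonneg _) (hA0 y)) hsub.eventuallyLE
    refine le_trans ?_ h5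
    rw [← integral_const_mul]
    have iW : IntegrableOn (fun y => ‖w y‖) (ball x r) := intOn_ball hwc x r
    refine setIntegral_mono_on (iW.const_mul _) (iWA.mono_set hsub)
      measurableSet_ball fun y hy => ?_
    rw [mem_ball, dist_eq_norm] at hy
    have h6 := As_ge hρ hσ hσ1 hb hR (by rw [hσρ]; linarith) x he (y := y) (by rw [hσρ]; linarith)
    rw [mul_comm]
    exact mul_le_mul_of_nonneg_left h6 (norm_nonneg _)
  exact flux_alg hR hr hκ (by linarith) hv hh0 (integral_nonneg fun y => norm_nonneg _) hσ h2 h3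
    hG h4 hρd

end Pool.Agent.R211.CE
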