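import Pool.Agent.R211.CD.Near

/-!
The smooth modulus of a field and the bound of its averages at small scales.
-/

open MeasureTheory Set Filter Topology
open scoped ContDiff
open H459R3.NS Pool.Agent.R210 Pool.Agent.R211.CD

namespace Pool.Agent.R211.CE

/-- The smooth modulus. -/
noncomputable def md (κ : ℝ) (w : V → V) (x : V) : ℝ := Real.sqrt (rsq (w x) + κ ^ 2)

/-- The smooth modulus as a field. -/
noncomputable def mv (κ : ℝ) (w : V → V) (x : V) : V := ![md κ w x, 0, 0]

/-- The constant of the averages. -/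
noncomputable def b1 : ℝ := 8 * ZZ / hh (1 / 4)

theorem b1_pos : 0 < b1 := by
  have h1 := ZZ_pos
  have h2 := hh_pos (s := 1 / 4) (by norm_num)
  unfold b1
  positivity

/-- The average over a ball is bounded by the mollification at the double scale. -/
theorem avg_mo {g : V → ℝ} (hg : Continuous g) (hg0 : ∀ x, 0 ≤ g x) (t : ℝ) (x : V) :
    ∫ z in U1, g (x - t • z) ≤ b1 * mo phi (2 * t) g x := by
  have hZ := ZZ_pos
  have hh4 := hh_pos (s := 1 / 4) (by norm_num)
  set F : V → ℝ := fun z => phi z * g (x - (2 * t) • z) with hF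
  have hFi : Integrable F := mo_int phi_smooth.continuous phi_compact hg (2 * t) x
  have e1 : ∫ z, F ((1 / 2 : ℝ) • z) = 8 * ∫ z, F z := by
    have h := Measure.integral_comp_smul (volume : Measure V) F (1 / 2)
    rw [h]
    simp only [Module.finrank_fintype_fun_eq_card, Fintype.card_fin, smul_eq_mul]
    norm_num
  have e2 : ∀ z, F ((1 / 2 : ℝ) • z) = phi ((1 / 2 : ℝ) • z) * g (x - t • z) := by
    intro z
    simp only [hF]
    rw [smul_smul]
    congr 4
    ring
  have hFi2 : Integrable fun z => F ((1 / 2 : ℝ) • z) := hFi.comp_smul (by norm_num)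
  have h1 : ∫ z in U1, hh (1 / 4) / ZZ * g (x - t • z) ≤ ∫ z in U1, F ((1 / 2 : ℝ) • z) := by
    have hc : Continuous fun z : V => g (x - t • z) := hg.comp (by fun_prop)
    refine setIntegral_mono_on (int_U1 (continuous_const.mul hc)) hFi2.integrableOn
      measurable_U1 fun z hz => ?_
    rw [e2]
    refine mul_le_mul_of_nonneg_right ?_ (hg0 _)
    unfold phi
    refine div_le_div_of_nonneg_right (hh_anti ?_) hZ.le
    have h3 : rsq ((1 / 2 : ℝ) • z) = 1 / 4 * rsq z := by
      unfold rsq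
      rw [Finset.mul_sum]
      refine Finset.sum_congr rfl fun i _ => ?_
      simp only [Pi.smul_apply, smul_eq_mul]
      ring
    rw [h3]
    have h4 : rsq z < 1 := hz
    linarith
  have h2 : ∫ z in U1, F ((1 / 2 : ℝ) • z) ≤ ∫ z, F ((1 / 2 : ℝ) • z) :=
    setIntegral_le_integral hFi2 (Filter.Eventually.of_forall fun z => by
      show 0 ≤ F ((1 / 2 : ℝ) • z)
      rw [e2]
      exact mul_nonneg (phi_nonneg _) (hg0 _))
  rw [integral_const_mul] at h1
  have h3 : hh (1 / 4) / ZZ * ∫ z in U1, g (x - t • z) ≤ 8 * ∫ z, F z := by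
    rw [← e1]
    exact h1.trans h2
  have e3 : mo phi (2 * t) g x = ∫ z, F z := rfl
  rw [e3]
  have e4 : ∫ z in U1, g (x - t • z)
      = ZZ / hh (1 / 4) * (hh (1 / 4) / ZZ * ∫ z in U1, g (x - t • z)) := by
    field_simp
  rw [e4]
  refine (mul_le_mul_of_nonneg_left h3 (by positivity)).trans (le_of_eq ?_)
  unfold b1
  ring

section

variable {w : V → V} (hw : ∀ i, SP (fun x => w x i))

theorem md_nonneg (κ : ℝ) (w : V → V) (x : V) : 0 ≤ md κ w x := Real.sqrt_nonneg _

theorem en_le_md (κ : ℝ) (w : V → V) (x : V) : en (w x) ≤ md κ w x := by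
  unfold en md
  exact Real.sqrt_le_sqrt (le_add_of_nonneg_right (sq_nonneg κ))

theorem md_le {κ : ℝ} (hκ : 0 ≤ κ) (w : V → V) (x : V) : md κ w x ≤ en (w x) + κ := by
  unfold md
  have h1 := en_nonneg (w x)
  rw [Real.sqrt_le_left (by positivity), ← en_sq]
  nlinarith [mul_nonneg h1 hκ]

include hw in
theorem sp_md {κ : ℝ} (hκ : 0 < κ) : SP (md κ w) where
  smooth := by
    unfold md
    refine ContDiff.sqrt ((sp_rsq hw).smooth.add contDiff_const) fun x => ?_
    have := rsq_nonneg (w x)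
    positivity
  per := fun i x => by
    unfold md
    rw [w_per hw i x]

include hw in
theorem sp_mv {κ : ℝ} (hκ : 0 < κ) : ∀ i, SP (fun x => mv κ w x i) := by
  intro i
  have h0 : SP (fun _ : V => (0 : ℝ)) := ⟨contDiff_const, fun _ _ => rfl⟩
  fin_cases i
  · exact sp_md hw hκ
  · exact h0
  · exact h0

include hw in
theorem pd_md {κ : ℝ} (hκ : 0 < κ) (m : Fin 3) (x : V) :
    pd m (md κ w) x ^ 2 ≤ ∑ j, pd m (fun y => w y j) x ^ 2 := by
  have hr := rsq_nonneg (w x)
  have hpos : 0 < rsq (w x) + κ ^ 2 := by positivity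
  have h1 : HasFDerivAt (fun y => rsq (w y) + κ ^ 2) (fderiv ℝ (fun y => rsq (w y)) x) x :=
    ((sp_rsq hw).diff x).hasFDerivAt.add_const _
  have h2 : HasFDerivAt (md κ w) _ x := h1.sqrt hpos.ne'
  have e1 : pd m (md κ w) x = (1 / (2 * Real.sqrt (rsq (w x) + κ ^ 2)))
      * pd m (fun y => rsq (w y)) x := by
    unfold pd
    rw [h2.fderiv]
    rfl
  rw [e1, pd_rsq hw m x]
  set s := Real.sqrt (rsq (w x) + κ ^ 2) with hs
  have hs0 : 0 < s := Real.sqrt_pos.2 hpos
  have hs2 : s ^ 2 = rsq (w x) + κ ^ 2 := Real.sq_sqrt hpos.le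
  set A := ∑ j, w x j * pd m (fun y => w y j) x with hA
  have e2 : (1 / (2 * s) * (2 * A)) ^ 2 = A ^ 2 / s ^ 2 := by
    field_simp
  rw [e2, div_le_iff₀ (by positivity), hs2]
  have h3 := cs3 (w x) fun j => pd m (fun y => w y j) x
  have h4 : rsq (fun j => pd m (fun y => w y j) x) = ∑ j, pd m (fun y => w y j) x ^ 2 := rfl
  rw [h4] at h3
  have h5 : 0 ≤ ∑ j, pd m (fun y => w y j) x ^ 2 := Finset.sum_nonneg fun j _ => sq_nonneg _
  have h6 : A ^ 2 ≤ rsq (w x) * ∑ j, pd m (fun y => w y j) x ^ 2 := h3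
  nlinarith [mul_nonneg (sq_nonneg κ) h5]

include hw in
theorem G2_mv {κ : ℝ} (hκ : 0 < κ) (x : V) : G2 (mv κ w) x ≤ G2 w x := by
  have h0 : ∀ m : Fin 3, pd m (fun _ : V => (0 : ℝ)) x = 0 := by
    intro m
    unfold pd
    simp
  have e1 : G2 (mv κ w) x = ∑ m, pd m (md κ w) x ^ 2 := by
    unfold G2 gr2
    rw [Fin.sum_univ_three]
    have a0 : (fun y => mv κ w y 0) = md κ w := rfl
    have a1 : (fun y => mv κ w y 1) = fun _ => (0 : ℝ) := rfl
    have a2 : (fun y => mv κ w y 2) = fun _ => (0 : ℝ) := rfl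
    rw [a0, a1, a2]
    simp only [h0]
    simp
  have e2 : G2 w x = ∑ m, ∑ j, pd m (fun y => w y j) x ^ 2 := by
    unfold G2 gr2
    exact Finset.sum_comm
  rw [e1, e2]
  exact Finset.sum_le_sum fun m _ => pd_md hw hκ m x

include hw in
/-- The averages at small scales. -/
theorem avg_small {κ t ρ : ℝ} (hκ : 0 < κ) (ht : 0 < t) (htρ : 2 * t ≤ ρ) (x : V) :
    ∫ z in U1, en (w (x - t • z))
      ≤ b1 * (md κ w x + 4 * (t * Real.sqrt (Sf (mv κ w) ρ x))) := by
  have hb := b1_pos
  have hc := (sp_md hw hκ).cont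
  have h1 : ∫ z in U1, en (w (x - t • z)) ≤ ∫ z in U1, md κ w (x - t • z) := by
    have g2 : Continuous fun z : V => en (w (x - t • z)) := (f_cont hw).comp (by fun_prop)
    have g3 : Continuous fun z : V => md κ w (x - t • z) := hc.comp (by fun_prop)
    exact setIntegral_mono (int_U1 g2) (int_U1 g3) fun z => en_le_md κ w _
  refine h1.trans ((avg_mo hc (md_nonneg κ w) t x).trans
    (mul_le_mul_of_nonneg_left ?_ hb.le))
  have h2 := err_le (sp_mv hw hκ) (τ := 2 * t) (ρ := ρ) (by positivity) htρ 0 x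
  have h3 := (abs_le.1 h2).1
  have e1 : mv κ w x 0 = md κ w x := rfl
  have e2 : mo phi (2 * t) (fun y => mv κ w y 0) x = mo phi (2 * t) (md κ w) x := rfl
  rw [e1, e2] at h3
  linarith

end

end Pool.Agent.R211.CE
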