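import Pool.Agent.R211.CE.Md

/-!
The production of enstrophy of a field with small oscillation of the direction at a fixed scale;
the smallness of the sine is linear up to a logarithm.
-/

open MeasureTheory Set Filter Topology
open scoped ContDiff
open H459R3.NS Pool.Agent.R210 Pool.Agent.R211.CD

namespace Pool.Agent.R211.CE

section

variable {w : V → V} (hw : ∀ i, SP (fun x => w x i))

include hw in
/-- The smallest scales. -/
theorem P_small {τ ρ : ℝ} (hτ : 0 < τ) (hτρ : τ ≤ ρ) (x : V) :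
    ∫ t in (0 : ℝ)..τ, t * |Zf w w t x| ≤ 6 * rsq (w x) * (τ * Real.sqrt (Sf w ρ x)) := by
  have hS0 := Sf_nonneg w (hτ.le.trans hτρ) x
  have hZ := Zfx_cont hw x
  have hc : Continuous fun t : ℝ => t * |Zf w w t x| := continuous_id.mul hZ.abs
  have hr := rsq_nonneg (w x)
  have hbc : Continuous fun t : ℝ => Real.sqrt (bq w t x) :=
    Real.continuous_sqrt.comp (bq_cont_t hw x)
  have h2 : ∫ t in (0 : ℝ)..τ, t * |Zf w w t x|
      ≤ ∫ t in (0 : ℝ)..τ, 6 * rsq (w x) * (t * Real.sqrt (bq w t x)) := by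
    refine intervalIntegral.integral_mono_on hτ.le (hc.intervalIntegrable _ _)
      ((continuous_const.mul (continuous_id.mul hbc)).intervalIntegrable _ _) fun t ht => ?_
    have := mul_le_mul_of_nonneg_left (Zf_bq hw t x) ht.1
    linarith
  rw [intervalIntegral.integral_const_mul] at h2
  refine h2.trans (mul_le_mul_of_nonneg_left ?_ (by positivity))
  have h3 := wcs hbc hτ
  have e1 : ∫ t in (0 : ℝ)..τ, t * Real.sqrt (bq w t x) ^ 2 = Sf w τ x := by
    unfold Sf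
    congr 1
    funext t
    rw [Real.sq_sqrt (bq_nonneg _ _ _)]
  rw [e1] at h3
  refine le_of_sq_le_sq ?_ (by positivity)
  rw [mul_pow, Real.sq_sqrt hS0]
  have h4 := Sf_mono hw hτ.le hτρ x
  have h5 : τ ^ 2 / 2 * Sf w τ x ≤ τ ^ 2 * Sf w ρ x := by
    have := Sf_nonneg w hτ.le x
    nlinarith [sq_nonneg τ, mul_nonneg (sq_nonneg τ) this,
      mul_le_mul_of_nonneg_left h4 (sq_nonneg τ)]
  linarith

include hw in
/-- The large scales. -/
theorem P_large {τ ρ Λ s : ℝ} (hτ : 0 < τ) (hτρ : τ ≤ ρ) (hs : 0 ≤ s) (hΛ : 0 ≤ Λ) (x : V)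
    (hb : ∀ t, 0 < t → t ≤ ρ → ∫ z in U1, en (w (x - t • z)) ≤ Λ / t ^ 2)
    (hang : ∀ y, en (x - y) ≤ ρ → en (crossProduct (w x) (w y)) ≤ s * (en (w x) * en (w y))) :
    ∫ t in τ..ρ, t * |Zf w w t x| ≤ 3 * BB * s * Λ * rsq (w x) * (1 / τ ^ 2) := by
  have hB := one_le_BB
  have hZ := Zfx_cont hw x
  have hc : Continuous fun t : ℝ => t * |Zf w w t x| := continuous_id.mul hZ.abs
  have hr := rsq_nonneg (w x)
  have hpos : ∀ t ∈ uIcc τ ρ, 0 < t := by
    intro t ht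
    rw [uIcc_of_le hτρ] at ht
    exact hτ.trans_le ht.1
  have hci : ContinuousOn (fun t : ℝ => t⁻¹ ^ 3) (uIcc τ ρ) := by
    refine ContinuousOn.pow (continuousOn_inv₀.mono fun t ht => ?_) 3
    exact (hpos t ht).ne'
  have h3 : ∫ t in τ..ρ, t * |Zf w w t x|
      ≤ ∫ t in τ..ρ, 3 * BB * s * Λ * rsq (w x) * t⁻¹ ^ 3 := by
    refine intervalIntegral.integral_mono_on hτρ (hc.intervalIntegrable _ _)
      (hci.intervalIntegrable.const_mul _) fun t ht => ?_
    have ht0 : 0 < t := hτ.trans_le ht.1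
    exact Zf_far hw ht0 hs x (hb t ht0 ht.2) fun y hy => hang y (hy.trans ht.2)
  rw [intervalIntegral.integral_const_mul] at h3
  refine h3.trans (mul_le_mul_of_nonneg_left ?_ (by positivity))
  have h4 := int_inv3 hτ hτρ
  have h5 : 0 ≤ 1 / τ ^ 2 := by positivity
  linarith

include hw in
/-- The middle scales. -/
theorem P_mid {τ ρ a s κ : ℝ} (hτ : 0 < τ) (hτρ : 2 * τ ≤ ρ) (ha0 : 0 < a) (ha1 : a ≤ 1)
    (hs : 0 ≤ s) (hκ : 0 < κ) (x : V)
    (hang : ∀ y, en (x - y) ≤ ρ → en (crossProduct (w x) (w y)) ≤ s * (en (w x) * en (w y))) :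
    ∫ t in (a * τ)..τ, t * |Zf w w t x|
      ≤ 3 * BB * s * (b1 * (md κ w x + 4 * (τ * Real.sqrt (Sf (mv κ w) ρ x)))) * rsq (w x)
        * Real.log (1 / a) := by
  have hB := one_le_BB
  have hb1 := b1_pos
  have hZ := Zfx_cont hw x
  have hc : Continuous fun t : ℝ => t * |Zf w w t x| := continuous_id.mul hZ.abs
  have hr := rsq_nonneg (w x)
  have haτ : a * τ ≤ τ := mul_le_of_le_one_left hτ.le ha1
  have haτ0 : 0 < a * τ := by positivity
  have hmd := md_nonneg κ w x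
  set N : ℝ := 3 * BB * s * (b1 * (md κ w x + 4 * (τ * Real.sqrt (Sf (mv κ w) ρ x))))
    * rsq (w x) with hN
  have hpos : ∀ t ∈ uIcc (a * τ) τ, 0 < t := by
    intro t ht
    rw [uIcc_of_le haτ] at ht
    exact haτ0.trans_le ht.1
  have hci : ContinuousOn (fun t : ℝ => t⁻¹) (uIcc (a * τ) τ) :=
    continuousOn_inv₀.mono fun t ht => (hpos t ht).ne'
  have h3 : ∫ t in (a * τ)..τ, t * |Zf w w t x| ≤ ∫ t in (a * τ)..τ, N * t⁻¹ := by
    refine intervalIntegral.integral_mono_on haτ (hc.intervalIntegrable _ _)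
      (hci.intervalIntegrable.const_mul _) fun t ht => ?_
    have ht0 : 0 < t := haτ0.trans_le ht.1
    set A : ℝ := b1 * (md κ w x + 4 * (τ * Real.sqrt (Sf (mv κ w) ρ x))) with hA
    have h4 : ∫ z in U1, en (w (x - t • z)) ≤ A := by
      refine (avg_small hw hκ ht0 (ρ := ρ) (by linarith [ht.2]) x).trans ?_
      rw [hA]
      refine mul_le_mul_of_nonneg_left ?_ hb1.le
      have h5 := mul_le_mul_of_nonneg_right ht.2 (Real.sqrt_nonneg (Sf (mv κ w) ρ x))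
      linarith
    have h6 := Zf_far hw (Λ := A * t ^ 2) ht0 hs x (by
      rw [mul_div_assoc, div_self (by positivity), mul_one]; exact h4)
      fun y hy => hang y (hy.trans (by linarith [ht.2]))
    refine h6.trans (le_of_eq ?_)
    rw [hN]
    field_simp
  rw [intervalIntegral.integral_const_mul, integral_inv_of_pos haτ0 hτ] at h3
  have e1 : τ / (a * τ) = 1 / a := by field_simp
  rw [e1] at h3
  exact h3

/-- The constant of the leading part. -/
noncomputable def C5 : ℝ := 6 + 3 * BB * b1 * (3 * BB + 6 + 4) + 3 * BB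

/-- The constant of the bounded part. -/
noncomputable def C6 : ℝ := 3 * BB * b1

theorem C5_pos : 0 < C5 := by
  have := one_le_BB
  have := b1_pos
  unfold C5
  positivity

theorem C6_pos : 0 < C6 := by
  have := one_le_BB
  have := b1_pos
  unfold C6
  positivity

/-- The algebra of the sum of the three parts. -/
theorem sum_alg {P1 P2 P3 r2 F m κ τ s a l σ1 σ2 σ' Λ B b C1 : ℝ} (hB : 0 ≤ B) (hb : 0 ≤ b)
    (hr : 0 ≤ r2) (hτ : 0 < τ) (hs : 0 ≤ s) (ha : 0 ≤ a) (hl : 0 ≤ l)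
    (hsl : s * (1 + l) ≤ a) (h1 : 0 ≤ σ1) (h2 : 0 ≤ σ2) (h1' : σ1 ≤ σ') (h2' : σ2 ≤ σ')
    (hΛ : 0 ≤ Λ) (hm0 : 0 ≤ m) (hκ : 0 ≤ κ) (hC1 : 0 ≤ C1)
    (hm : m ≤ F + κ) (hF : F ≤ C1 * (Λ / τ ^ 2 + τ * σ'))
    (hP1 : P1 ≤ 6 * r2 * (a * τ * σ1))
    (hP2 : P2 ≤ 3 * B * s * (b * (m + 4 * (τ * σ2))) * r2 * l)
    (hP3 : P3 ≤ 3 * B * s * Λ * r2 * (1 / τ ^ 2)) :
    P1 + P2 + P3 ≤ a * ((6 + 3 * B * b * (C1 + 4) + 3 * B) * (r2 * (τ * σ' + Λ / τ ^ 2)))
      + a * (3 * B * b * (κ * r2)) := by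
  have hsl1 : s * l ≤ a := by nlinarith [mul_nonneg hs hl]
  have hsl2 : s ≤ a := by nlinarith [mul_nonneg hs hl]
  have hσ' : 0 ≤ σ' := h1.trans h1'
  set X : ℝ := τ * σ' with hX
  set Z : ℝ := Λ / τ ^ 2 with hZ
  have hX0 : 0 ≤ X := by positivity
  have hZ0 : 0 ≤ Z := by positivity
  have q1 : P1 ≤ a * (6 * (r2 * (X + Z))) := by
    have e : 6 * r2 * (a * τ * σ1) = a * (6 * (r2 * (τ * σ1))) := by ring
    rw [e] at hP1
    refine hP1.trans (mul_le_mul_of_nonneg_left (mul_le_mul_of_nonneg_left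
      (mul_le_mul_of_nonneg_left ?_ hr) (by norm_num)) ha)
    have := mul_le_mul_of_nonneg_left h1' hτ.le
    linarith
  have q3 : P3 ≤ a * (3 * B * (r2 * (X + Z))) := by
    have e : 3 * B * s * Λ * r2 * (1 / τ ^ 2) = s * (3 * B * (r2 * Z)) := by
      rw [hZ]; ring
    rw [e] at hP3
    refine hP3.trans (mul_le_mul hsl2 ?_ (by positivity) ha)
    refine mul_le_mul_of_nonneg_left (mul_le_mul_of_nonneg_left (by linarith) hr) (by positivity)
  have q2 : P2 ≤ a * (3 * B * b * ((C1 + 4) * (r2 * (X + Z)))) + a * (3 * B * b * (κ * r2)) := by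
    have e : 3 * B * s * (b * (m + 4 * (τ * σ2))) * r2 * l
        = (s * l) * (3 * B * b * ((m + 4 * (τ * σ2)) * r2)) := by ring
    rw [e] at hP2
    have h3 : m + 4 * (τ * σ2) ≤ (C1 + 4) * (X + Z) + κ := by
      have := mul_le_mul_of_nonneg_left h2' hτ.le
      nlinarith
    have h4 : 0 ≤ (m + 4 * (τ * σ2)) * r2 := by positivity
    have h5 : (m + 4 * (τ * σ2)) * r2 ≤ ((C1 + 4) * (X + Z) + κ) * r2 :=
      mul_le_mul_of_nonneg_right h3 hr
    refine hP2.trans ?_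
    calc (s * l) * (3 * B * b * ((m + 4 * (τ * σ2)) * r2))
        ≤ a * (3 * B * b * (((C1 + 4) * (X + Z) + κ) * r2)) :=
          mul_le_mul hsl1 (mul_le_mul_of_nonneg_left h5 (by positivity)) (by positivity) ha
      _ = _ := by ring
  calc P1 + P2 + P3 ≤ a * (6 * (r2 * (X + Z)))
        + (a * (3 * B * b * ((C1 + 4) * (r2 * (X + Z)))) + a * (3 * B * b * (κ * r2)))
        + a * (3 * B * (r2 * (X + Z))) := by linarith
    _ = _ := by ring

include hw in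
/-- The three ranges together. -/
theorem Pf_le2 {τ ρ Λ a s κ : ℝ} (hτ : 0 < τ) (hτρ : 2 * τ ≤ ρ) (ha0 : 0 < a) (ha1 : a ≤ 1)
    (hs : 0 ≤ s) (hsa : s * (1 + Real.log (1 / a)) ≤ a) (hκ : 0 < κ) (hΛ : 0 ≤ Λ) (x : V)
    (hb : ∀ t, 0 < t → t ≤ ρ → ∫ z in U1, en (w (x - t • z)) ≤ Λ / t ^ 2)
    (hang : ∀ y, en (x - y) ≤ ρ → en (crossProduct (w x) (w y)) ≤ s * (en (w x) * en (w y))) :
    Pf w ρ x ≤ a * (C5 * (rsq (w x) * (τ * Real.sqrt (Sf w ρ x + Sf (mv κ w) ρ x) + Λ / τ ^ 2)))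
      + a * (C6 * (κ * rsq (w x))) := by
  have hB := one_le_BB
  have hb1 := b1_pos
  have hρ : 0 < ρ := by linarith
  have hτρ' : τ ≤ ρ := by linarith
  have hS1 := Sf_nonneg w hρ.le x
  have hS2 := Sf_nonneg (mv κ w) hρ.le x
  have hZ := Zfx_cont hw x
  have hc : Continuous fun t : ℝ => t * |Zf w w t x| := continuous_id.mul hZ.abs
  have haτ : a * τ ≤ τ := mul_le_of_le_one_left hτ.le ha1
  have haτ0 : 0 < a * τ := by positivity
  have hl : 0 ≤ Real.log (1 / a) := Real.log_nonneg (by rw [le_div_iff₀ ha0]; linarith)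
  have p1 := P_small hw haτ0 (haτ.trans hτρ') x
  have p2 := P_mid hw hτ hτρ ha0 ha1 hs hκ x hang
  have p3 := P_large hw hτ hτρ' hs hΛ x hb hang
  have e1 : Pf w ρ x = (∫ t in (0 : ℝ)..(a * τ), t * |Zf w w t x|)
      + (∫ t in (a * τ)..τ, t * |Zf w w t x|) + ∫ t in τ..ρ, t * |Zf w w t x| := by
    unfold Pf
    rw [intervalIntegral.integral_add_adjacent_intervals (hc.intervalIntegrable _ _)
      (hc.intervalIntegrable _ _), intervalIntegral.integral_add_adjacent_intervals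
      (hc.intervalIntegrable _ _) (hc.intervalIntegrable _ _)]
  have hF := en_le hw hτ hτρ' x (hb τ hτ hτρ')
  have h1' : Real.sqrt (Sf w ρ x) ≤ Real.sqrt (Sf w ρ x + Sf (mv κ w) ρ x) :=
    Real.sqrt_le_sqrt (by linarith)
  have h2' : Real.sqrt (Sf (mv κ w) ρ x) ≤ Real.sqrt (Sf w ρ x + Sf (mv κ w) ρ x) :=
    Real.sqrt_le_sqrt (by linarith)
  have hF' : en (w x) ≤ (3 * BB + 6) * (Λ / τ ^ 2
      + τ * Real.sqrt (Sf w ρ x + Sf (mv κ w) ρ x)) := by
    refine hF.trans (mul_le_mul_of_nonneg_left ?_ (by linarith))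
    have := mul_le_mul_of_nonneg_left h1' hτ.le
    linarith
  rw [e1]
  unfold C5 C6
  exact sum_alg (by linarith) hb1.le (rsq_nonneg _) hτ hs ha0.le hl hsa (Real.sqrt_nonneg _)
    (Real.sqrt_nonneg _) h1' h2' hΛ (md_nonneg κ w x) hκ.le (by linarith) (md_le hκ.le w x) hF'
    p1 p2 p3

/-- The constant of the near part. -/
noncomputable def CP2 : ℝ := 8 * (3 * BB + 6) ^ 2 * C5 + 2 * C5

theorem CP2_pos : 0 < CP2 := by
  have := C5_pos
  have := one_le_BB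
  unfold CP2
  positivity

include hw in
/-- The near part of the production, pointwise. -/
theorem Pf_opt2 {ρ Λ a s κ : ℝ} (hρ : 0 < ρ) (hΛ : 0 < Λ) (ha0 : 0 < a) (ha1 : a ≤ 1)
    (hs : 0 ≤ s) (hsa : s * (1 + Real.log (1 / a)) ≤ a) (hκ : 0 < κ) (x : V)
    (hb : ∀ t, 0 < t → t ≤ ρ → ∫ z in U1, en (w (x - t • z)) ≤ Λ / t ^ 2)
    (hang : ∀ y, en (x - y) ≤ ρ → en (crossProduct (w x) (w y)) ≤ s * (en (w x) * en (w y))) :
    Pf w ρ x ≤ CP2 * (a * Λ * (Sf w ρ x + Sf (mv κ w) ρ x + 4 * rsq (w x) / ρ ^ 2))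
      + C6 * κ * rsq (w x) := by
  have hB := one_le_BB
  have hC5 := C5_pos
  have hC6 := C6_pos
  have hr := rsq_nonneg (w x)
  have hS1 := Sf_nonneg w hρ.le x
  have hS2 := Sf_nonneg (mv κ w) hρ.le x
  set S' := Sf w ρ x + Sf (mv κ w) ρ x with hS'
  set P' : ℝ := Pf w ρ x / a - C6 * (κ * rsq (w x)) with hP'
  have h := opt (F := en (w x)) (S := S') (Λ := Λ) (ρ := ρ / 2) (a := 1) (C1 := 3 * BB + 6)
    (C2 := C5) (P := P') (en_nonneg _) (by positivity) hΛ (by positivity) one_pos le_rfl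
    (by positivity) hC5.le
    (fun τ hτ hτρ => by
      have h1 := en_le hw hτ (by linarith : τ ≤ ρ) x (hb τ hτ (by linarith))
      refine h1.trans (mul_le_mul_of_nonneg_left ?_ (by linarith))
      have h2 : Real.sqrt (Sf w ρ x) ≤ Real.sqrt S' := Real.sqrt_le_sqrt (by rw [hS']; linarith)
      have := mul_le_mul_of_nonneg_left h2 hτ.le
      linarith)
    (fun τ hτ hτρ => by
      have h1 := Pf_le2 hw hτ (by linarith : 2 * τ ≤ ρ) ha0 ha1 hs hsa hκ hΛ.le x hb hang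
      rw [← hS'] at h1
      rw [hP', en_sq]
      have h2 : Pf w ρ x / a ≤ C5 * (rsq (w x) * (τ * Real.sqrt S' + Λ / τ ^ 2))
          + C6 * (κ * rsq (w x)) := by
        rw [div_le_iff₀ ha0]
        refine h1.trans (le_of_eq ?_)
        ring
      rw [one_pow, one_mul]
      refine (sub_le_iff_le_add.2 h2).trans (le_of_eq ?_)
      ring)
  have h3 : Pf w ρ x / a ≤ CP2 * (Λ * (S' + 4 * rsq (w x) / ρ ^ 2)) + C6 * (κ * rsq (w x)) := by
    have e1 : (8 * (3 * BB + 6) ^ 2 * C5 + 2 * C5)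
        * (1 * Λ * (S' + en (w x) ^ 2 / (ρ / 2) ^ 2))
        = CP2 * (Λ * (S' + 4 * rsq (w x) / ρ ^ 2)) := by
      rw [en_sq]
      unfold CP2
      field_simp
      ring
    rw [e1] at h
    linarith
  rw [div_le_iff₀ ha0] at h3
  refine h3.trans ?_
  have h4 : C6 * (κ * rsq (w x)) * a ≤ C6 * (κ * rsq (w x)) :=
    mul_le_of_le_one_right (by positivity) ha1
  have e2 : (CP2 * (Λ * (S' + 4 * rsq (w x) / ρ ^ 2)) + C6 * (κ * rsq (w x))) * a
      = CP2 * (a * Λ * (S' + 4 * rsq (w x) / ρ ^ 2)) + C6 * (κ * rsq (w x)) * a := by ring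
  rw [e2]
  linarith

include hw in
/-- The near part of the production; the parameters depend on the point. -/
theorem near_int2 {ρ Λ θ κ : ℝ} (hρ : 0 < ρ) (hκ : 0 < κ) (hθ : 0 ≤ θ)
    (hpt : ∀ x, ∃ l a s : ℝ, 0 < l ∧ l ≤ Λ ∧ 0 < a ∧ a ≤ 1 ∧ a * l ≤ θ ∧ 0 ≤ s ∧
      s * (1 + Real.log (1 / a)) ≤ a ∧
      (∀ t, 0 < t → t ≤ ρ → ∫ z in U1, en (w (x - t • z)) ≤ l / t ^ 2) ∧
      ∀ y, en (x - y) ≤ ρ → en (crossProduct (w x) (w y)) ≤ s * (en (w x) * en (w y))) :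
    |∫ t in (0 : ℝ)..ρ, t * ∫ x in cube, Zf w w t x|
      ≤ CP2 * (θ * (6 * CS * (∫ x in cube, G2 w x)) + Λ * (4 * (∫ x in cube, rsq (w x)) / ρ ^ 2))
        + C6 * κ * ∫ x in cube, rsq (w x) := by
  have hCP := CP2_pos
  have hC6 := C6_pos
  have hCS := CS_nonneg
  have h3 := Zf_cont hw hw
  have hc : Continuous fun p : ℝ × V => p.1 * Zf w w p.1 p.2 := continuous_fst.mul h3
  have e1 : ∫ t in (0 : ℝ)..ρ, t * ∫ x in cube, Zf w w t x
      = ∫ x in cube, ∫ t in (0 : ℝ)..ρ, t * Zf w w t x := by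
    rw [swap_int (H := fun t x => t * Zf w w t x) hc hρ.le]
    simp_rw [integral_const_mul]
  rw [e1, ← Real.norm_eq_abs]
  have h4 : ∀ x, ‖∫ t in (0 : ℝ)..ρ, t * Zf w w t x‖ ≤ Pf w ρ x := by
    intro x
    have hZ := Zfx_cont hw x
    unfold Pf
    refine intervalIntegral.norm_integral_le_of_norm_le hρ.le
      (Filter.Eventually.of_forall fun t ht => ?_)
      ((continuous_id.mul hZ.abs).intervalIntegrable _ _)
    rw [Real.norm_eq_abs, abs_mul, abs_of_pos ht.1]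
  refine (norm_integral_le_of_norm_le (integrableOn_cube (Pf_cont hw ρ))
    (Filter.Eventually.of_forall h4)).trans ?_
  have hrc := rsqw_cont hw
  have hSc := Sf_cont hw ρ
  have hSm := Sf_cont (sp_mv hw hκ) ρ
  have h5 : ∫ x in cube, Pf w ρ x
      ≤ ∫ x in cube, (CP2 * (θ * (Sf w ρ x + Sf (mv κ w) ρ x) + Λ * (4 * rsq (w x) / ρ ^ 2))
        + C6 * κ * rsq (w x)) := by
    refine setIntegral_mono (integrableOn_cube (Pf_cont hw ρ)) (integrableOn_cube (by fun_prop))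
      fun x => ?_
    obtain ⟨l, a, s, hl0, hlΛ, ha0, ha1, hal, hs, hsa, hb, hang⟩ := hpt x
    refine (Pf_opt2 hw hρ hl0 ha0 ha1 hs hsa hκ x hb hang).trans ?_
    have hS1 := Sf_nonneg w hρ.le x
    have hS2 := Sf_nonneg (mv κ w) hρ.le x
    have hr := rsq_nonneg (w x)
    have b1 : a * l * (Sf w ρ x + Sf (mv κ w) ρ x) ≤ θ * (Sf w ρ x + Sf (mv κ w) ρ x) :=
      mul_le_mul_of_nonneg_right hal (by positivity)
    have b2 : a * l ≤ Λ := (mul_le_of_le_one_left hl0.le ha1).trans hlΛ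
    have b3 : a * l * (4 * rsq (w x) / ρ ^ 2) ≤ Λ * (4 * rsq (w x) / ρ ^ 2) :=
      mul_le_mul_of_nonneg_right b2 (by positivity)
    have b4 : a * l * (Sf w ρ x + Sf (mv κ w) ρ x + 4 * rsq (w x) / ρ ^ 2)
        ≤ θ * (Sf w ρ x + Sf (mv κ w) ρ x) + Λ * (4 * rsq (w x) / ρ ^ 2) := by linarith
    have b5 := mul_le_mul_of_nonneg_left b4 hCP.le
    linarith
  refine h5.trans ?_
  have i1 : IntegrableOn (fun x => Sf w ρ x) cube := integrableOn_cube hSc
  have i2 : IntegrableOn (fun x => Sf (mv κ w) ρ x) cube := integrableOn_cube hSm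
  have i3 : IntegrableOn (fun x => θ * (Sf w ρ x + Sf (mv κ w) ρ x)) cube :=
    integrableOn_cube (by fun_prop)
  have i4 : IntegrableOn (fun x => Λ * (4 * rsq (w x) / ρ ^ 2)) cube :=
    integrableOn_cube (by fun_prop)
  have i5 : IntegrableOn (fun x => CP2 * (θ * (Sf w ρ x + Sf (mv κ w) ρ x)
      + Λ * (4 * rsq (w x) / ρ ^ 2))) cube := integrableOn_cube (by fun_prop)
  have i6 : IntegrableOn (fun x => C6 * κ * rsq (w x)) cube := integrableOn_cube (by fun_prop)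
  rw [integral_add i5 i6, integral_const_mul, integral_const_mul, integral_add i3 i4,
    integral_const_mul, integral_const_mul, integral_add i1 i2, integral_div, integral_const_mul]
  have h6 := int_Sf hw hρ.le
  have h7 := int_Sf (sp_mv hw hκ) hρ.le
  have h8 : ∫ x in cube, G2 (mv κ w) x ≤ ∫ x in cube, G2 w x :=
    setIntegral_mono (integrableOn_cube (G2_cont (sp_mv hw hκ)))
      (integrableOn_cube (G2_cont hw)) fun x => G2_mv hw hκ x
  have h9 : 3 * CS * ∫ x in cube, G2 (mv κ w) x ≤ 3 * CS * ∫ x in cube, G2 w x :=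
    mul_le_mul_of_nonneg_left h8 (by positivity)
  have h10 : (∫ x in cube, Sf w ρ x) + (∫ x in cube, Sf (mv κ w) ρ x)
      ≤ 6 * CS * (∫ x in cube, G2 w x) := by linarith
  have h11 := mul_le_mul_of_nonneg_left h10 hθ
  have h12 : CP2 * (θ * ((∫ x in cube, Sf w ρ x) + (∫ x in cube, Sf (mv κ w) ρ x))
      + Λ * (4 * (∫ x in cube, rsq (w x)) / ρ ^ 2))
      ≤ CP2 * (θ * (6 * CS * (∫ x in cube, G2 w x))
        + Λ * (4 * (∫ x in cube, rsq (w x)) / ρ ^ 2)) :=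
    mul_le_mul_of_nonneg_left (by linarith) hCP.le
  linarith

end

end Pool.Agent.R211.CE
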