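import Pool.Agent.R211.CE.Flux
import Pool.Agent.R211.CD.Per
import Pool.Agent.R210.M7

/-!
The critical Morrey bound of the vorticity by the energy, for periodic fields.
-/

open MeasureTheory Set Metric Filter Topology
open scoped ContDiff RealInnerProductSpace
open H459R3.NS Pool.Agent.R210 Pool.Agent.R211.CD

namespace Pool.Agent.R211.CE

/-- In every ball of radius `R` the directions of the field, where it is larger than `K`, lie in a
cone. -/
def Cone (w : V → V) (K σ R : ℝ) : Prop := ∀ x : V, ∃ e : V, en e = 1 ∧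
  ∀ y : V, en (y - x) < R → K < en (w y) → σ * en (w y) ≤ ∑ i, e i * w y i

theorem pd_lift {v : V → V} (hv : ∀ i, SP (fun x => v x i)) (j k : Fin 3) (y : E) :
    dU (lift v) j k y = pd j (fun z => v z k) (WithLp.ofLp y) := by
  unfold dU
  have h1 : HasFDerivAt (fun z : V => v z k) (fderiv ℝ (fun z : V => v z k) (WithLp.ofLp y))
      (WithLp.ofLp y) := ((hv k).smooth.differentiable (by norm_num) _).hasFDerivAt
  have h2 : HasFDerivAt (fun y : E => (WithLp.ofLp y : V))
      ((EuclideanSpace.equiv (Fin 3) ℝ : E ≃L[ℝ] V) : E →L[ℝ] V) y :=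
    (EuclideanSpace.equiv (Fin 3) ℝ).hasFDerivAt
  have h3 : HasFDerivAt (fun z : E => lift v z k)
      ((fderiv ℝ (fun z : V => v z k) (WithLp.ofLp y)).comp
        ((EuclideanSpace.equiv (Fin 3) ℝ : E ≃L[ℝ] V) : E →L[ℝ] V)) y := h1.comp y h2
  rw [h3.fderiv]
  unfold pd
  rw [ContinuousLinearMap.comp_apply]
  congr 1

theorem lift_cu {v : V → V} (hv : ∀ i, SP (fun x => v x i)) (y : E) :
    lift (cu v) y = cuE (lift v) y := by
  unfold cuE
  simp only [pd_lift hv]
  rfl

/-- The Cauchy-Schwarz inequality on a ball. -/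
theorem cs_ball {f : E → ℝ} (hf : Continuous f) (x : E) {R : ℝ} (hR : 0 < R) :
    (∫ y in ball x R, f y) ^ 2 ≤ v3 * R ^ 3 * ∫ y in ball x R, f y ^ 2 := by
  have hv := v3_pos
  set m : ℝ := v3 * R ^ 3 with hm
  have hm0 : 0 < m := by positivity
  set I := ∫ y in ball x R, f y with hI
  set Q := ∫ y in ball x R, f y ^ 2 with hQ
  have i1 : IntegrableOn f (ball x R) := intOn_ball hf x R
  have i2 : IntegrableOn (fun y => f y ^ 2) (ball x R) := intOn_ball (hf.pow 2) x R
  have i3 : IntegrableOn (fun _ : E => (I / m) ^ 2) (ball x R) :=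
    integrableOn_const (measure_ball_lt_top).ne
  have i4 : IntegrableOn (fun y => 2 * (I / m) * f y) (ball x R) := i1.const_mul _
  have i5 : IntegrableOn (fun y => f y ^ 2 - 2 * (I / m) * f y) (ball x R) := i2.sub i4
  have h1 : 0 ≤ ∫ y in ball x R, (f y ^ 2 - 2 * (I / m) * f y + (I / m) ^ 2) := by
    refine integral_nonneg fun y => ?_
    have : f y ^ 2 - 2 * (I / m) * f y + (I / m) ^ 2 = (f y - I / m) ^ 2 := by ring
    rw [this]
    exact sq_nonneg _
  have hvol : ∫ _ in ball x R, (I / m) ^ 2 = m * (I / m) ^ 2 := by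
    rw [setIntegral_const, smul_eq_mul]
    congr 1
    rw [hm, ← vol_ball x hR.le]
    rfl
  rw [integral_add i5 i3, integral_sub i2 i4, integral_const_mul, hvol, ← hI, ← hQ] at h1
  have e1 : Q - 2 * (I / m) * I + m * (I / m) ^ 2 = Q - I ^ 2 / m := by
    field_simp
    ring
  rw [e1] at h1
  have h2 : I ^ 2 / m ≤ Q := by linarith
  rwa [div_le_iff₀ hm0, mul_comm] at h2

/-- The constant of the Morrey bound of periodic fields. -/
noncomputable def CL (σ : ℝ) : ℝ := Cf / σ ^ 2 * (2 + Real.sqrt (27 * v3))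

theorem CL_pos {σ : ℝ} (hσ : 0 < σ) : 0 < CL σ := by
  have h1 := Cf_pos
  have h2 := Real.sqrt_nonneg (27 * v3)
  unfold CL
  positivity

/-- The size of the vorticity in the critical Morrey space. -/
noncomputable def LL (Q K R : ℝ) : ℝ := Real.sqrt (Q / R) + K * R ^ 2

theorem LL_pos {Q K R : ℝ} (hK : 0 < K) (hR : 0 < R) : 0 < LL Q K R := by
  have := Real.sqrt_nonneg (Q / R)
  unfold LL
  positivity

section

variable {v : V → V} (hv : ∀ i, SP (fun x => v x i))

include hv in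
/-- The Morrey bound. -/
theorem mor_en {K R σ Q : ℝ} (hK : 0 ≤ K) (hR0 : 0 < R) (hR1 : R ≤ 1) (hσ : 0 < σ) (hσ1 : σ ≤ 1)
    (hQ : energy v ≤ Q) (h : Cone (cu v) K σ R) {τ : ℝ} (hτ : 0 < τ) (hτR : τ ≤ R / 2) (x : V) :
    ∫ y in eb x τ, en (cu v y) ≤ CL σ * LL Q K R * τ := by
  have hCf := Cf_pos
  have hv3 := v3_pos
  have hcu := sp_cu hv
  have hU : ContDiff ℝ 1 (lift v) := (lift_smooth hv).of_le (by norm_cast)
  have hw : ContDiff ℝ 1 (lift (cu v)) := (lift_smooth hcu).of_le (by norm_cast)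
  have hdv : ∀ y, dvE (lift (cu v)) y = 0 := fun y => by rw [dvE_lift hcu, dv_cu hv]
  have hball : ∀ (x : E) (r : ℝ), 0 < r → ∀ F : V → ℝ, ∫ y in ball x r, F (WithLp.ofLp y)
      = ∫ y in eb (WithLp.ofLp x) r, F y := fun x r hr F => int_ball_lift x hr
  set X : E := WithLp.toLp 2 x with hX
  have hQ0 : 0 ≤ Q := (energy_nonneg v).trans hQ
  -- the energy in the ball
  have hrq : Continuous fun y => rsq (v y) := rsq_smooth.continuous.comp (w_cont hv)
  have h1 : ∫ y in ball X R, ‖lift v y‖ ^ 2 ≤ 27 * Q := by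
    have e1 : ∀ y : E, ‖lift v y‖ ^ 2 = rsq (v (WithLp.ofLp y)) := fun y => by
      rw [norm_lift, en_sq]
    simp_rw [e1]
    rw [hball X R hR0 fun y => rsq (v y)]
    have h2 := eb_int hrq (fun i x => by simp only [w_per hv i x]) (fun x => rsq_nonneg _)
      (WithLp.ofLp X)
    have h3 : ∫ y in eb (WithLp.ofLp X) R, rsq (v y) ≤ ∫ y in eb (WithLp.ofLp X) 1, rsq (v y) := by
      refine setIntegral_mono_set h2.1 (Filter.Eventually.of_forall fun y => rsq_nonneg _) ?_
      refine LE.le.eventuallyLE fun y hy => ?_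
      unfold eb at hy ⊢
      rw [mem_ofPred_eq] at hy ⊢
      nlinarith
    have h4 : ∫ x in cube, rsq (v x) = energy v := by
      unfold energy rsq
      exact integral_finsetSum _ fun i _ => integrableOn_cube ((hv i).cont.pow 2)
    rw [h4] at h2
    linarith [h2.2]
  have hN : (∫ y in ball X R, ‖lift v y‖) / R ^ 2 ≤ Real.sqrt (27 * v3) * Real.sqrt (Q / R) := by
    have h2 := cs_ball (f := fun y => ‖lift v y‖) hU.continuous.norm X hR0
    have h3 : (∫ y in ball X R, ‖lift v y‖) ^ 2 ≤ v3 * R ^ 3 * (27 * Q) :=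
      h2.trans (mul_le_mul_of_nonneg_left h1 (by positivity))
    have h4 : ∫ y in ball X R, ‖lift v y‖ ≤ Real.sqrt (v3 * R ^ 3 * (27 * Q)) :=
      (le_abs_self _).trans (Real.abs_le_sqrt h3)
    rw [div_le_iff₀ (by positivity)]
    refine h4.trans (le_of_eq ?_)
    rw [← Real.sqrt_mul (by positivity)]
    have e1 : v3 * R ^ 3 * (27 * Q) = 27 * v3 * (Q / R) * (R ^ 2) ^ 2 := by
      field_simp
    rw [e1, Real.sqrt_mul (by positivity), Real.sqrt_sq (by positivity)]
  obtain ⟨e, he, hcone⟩ := h x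
  have hpt : ∀ y ∈ ball X R, σ * ‖lift (cu v) y‖ - 2 * K
      ≤ ⟪(WithLp.toLp 2 e : E), lift (cu v) y⟫ := by
    intro y hy
    have he1 : ‖(WithLp.toLp 2 e : E)‖ = 1 := by rw [norm_toLp, he]
    rcases lt_or_ge K ‖lift (cu v) y‖ with hh1 | hh1
    · have h2 : en (WithLp.ofLp y - x) < R := by
        rw [mem_ball, dist_eq_norm] at hy
        rw [← norm_toLp]
        exact hy
      rw [norm_lift] at hh1 ⊢
      have h3 := hcone _ h2 hh1
      have h4 : ⟪(WithLp.toLp 2 e : E), lift (cu v) y⟫ = ∑ i, e i * cu v (WithLp.ofLp y) i :=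
        inner_lift e (cu v (WithLp.ofLp y))
      rw [h4]
      linarith
    · have h2 := (abs_le.1 (abs_real_inner_le_norm (WithLp.toLp 2 e : E) (lift (cu v) y))).1
      rw [he1, one_mul] at h2
      have h3 : σ * ‖lift (cu v) y‖ ≤ 1 * ‖lift (cu v) y‖ :=
        mul_le_mul_of_nonneg_right hσ1 (norm_nonneg _)
      linarith
  have h2 := flux_ball hU hw hdv (fun y => lift_cu hv y) (x := X) (e := WithLp.toLp 2 e) hR0
    (κ := 2 * K) (by positivity) hσ hσ1 (by rw [norm_toLp, he]) hpt hτ hτR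
  have e2 : ∫ y in ball X τ, ‖lift (cu v) y‖ = ∫ y in eb x τ, en (cu v y) := by
    rw [← hball X τ hτ fun y => en (cu v y)]
    simp_rw [norm_lift]
  rw [e2] at h2
  refine h2.trans ?_
  have h3 : 2 * K * R ^ 2 + (∫ y in ball X R, ‖lift v y‖) / R ^ 2
      ≤ (2 + Real.sqrt (27 * v3)) * LL Q K R := by
    have a1 := Real.sqrt_nonneg (27 * v3)
    have a2 := Real.sqrt_nonneg (Q / R)
    have a3 : 0 ≤ K * R ^ 2 := by positivity
    unfold LL
    nlinarith [mul_nonneg a1 a3]
  calc Cf / σ ^ 2 * τ * (2 * K * R ^ 2 + (∫ y in ball X R, ‖lift v y‖) / R ^ 2)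
      ≤ Cf / σ ^ 2 * τ * ((2 + Real.sqrt (27 * v3)) * LL Q K R) :=
        mul_le_mul_of_nonneg_left h3 (by positivity)
    _ = _ := by unfold CL; ring

include hv in
/-- The bound of the averages. -/
theorem avg_en {K R σ Q : ℝ} (hK : 0 ≤ K) (hR0 : 0 < R) (hR1 : R ≤ 1) (hσ : 0 < σ) (hσ1 : σ ≤ 1)
    (hQ : energy v ≤ Q) (h : Cone (cu v) K σ R) {τ : ℝ} (hτ : 0 < τ) (hτR : τ ≤ R / 2) (x : V) :
    ∫ z in U1, en (cu v (x - τ • z)) ≤ CL σ * LL Q K R / τ ^ 2 := by
  rw [int_U1_scale (f := fun y => en (cu v y)) hτ x]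
  have h1 := mor_en hv hK hR0 hR1 hσ hσ1 hQ h hτ hτR x
  have h2 := mul_le_mul_of_nonneg_left h1 (by positivity : 0 ≤ τ⁻¹ ^ 3)
  refine h2.trans (le_of_eq ?_)
  field_simp

end

/-- The sine of the angle between the field at points above the threshold at distance at most
`r`. -/
def Sin (w : V → V) (K δ r : ℝ) : Prop := ∀ x y, K < en (w x) → K < en (w y) → en (x - y) ≤ r →
  en (crossProduct (w x) (w y)) ≤ δ * (en (w x) * en (w y))

/-- The angle of the parts above the threshold. -/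
theorem cw_sin {om : V → V} {K δ r : ℝ} (hK : 0 < K) (h : Sin om K δ r) (x y : V)
    (hxy : en (x - y) ≤ r) : en (crossProduct (cw K om x) (cw K om y))
      ≤ δ * (en (cw K om x) * en (cw K om y)) := by
  have e : ∀ x, cw K om x = chi (K⁻¹ ^ 2 * rsq (om x)) • om x := fun x => rfl
  have hz : en (0 : V) = 0 := by simp [en, rsq]
  have hgt : ∀ x, K ^ 2 < rsq (om x) → K < en (om x) := by
    intro x hx
    rw [← en_sq] at hx
    exact lt_of_pow_lt_pow_left₀ 2 (en_nonneg _) hx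
  rcases le_or_gt (rsq (om x)) (K ^ 2) with hx | hx
  · rw [cw_zero hK hx, hz]
    simp [hz]
  rcases le_or_gt (rsq (om y)) (K ^ 2) with hy | hy
  · rw [cw_zero hK hy, hz]
    simp [hz]
  have h1 := h x y (hgt x hx) (hgt y hy) hxy
  rw [e x, e y]
  have hcx := chi_nonneg (K⁻¹ ^ 2 * rsq (om x))
  have hcy := chi_nonneg (K⁻¹ ^ 2 * rsq (om y))
  set a := chi (K⁻¹ ^ 2 * rsq (om x))
  set b := chi (K⁻¹ ^ 2 * rsq (om y))
  have e1 : crossProduct (a • om x) (b • om y) = (a * b) • crossProduct (om x) (om y) := by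
    rw [map_smul, map_smul, LinearMap.smul_apply, smul_smul, mul_comm b a]
  rw [e1, en_smul, en_smul, en_smul, abs_of_nonneg (mul_nonneg hcx hcy), abs_of_nonneg hcx,
    abs_of_nonneg hcy]
  calc a * b * en (crossProduct (om x) (om y))
      ≤ a * b * (δ * (en (om x) * en (om y))) :=
        mul_le_mul_of_nonneg_left h1 (mul_nonneg hcx hcy)
    _ = _ := by ring

end Pool.Agent.R211.CE
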