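import Pool.Agent.R211.CE.Per
import Pool.Agent.R211.CD.Fix

/-!
The production of enstrophy; the contribution of the large scales is bounded by the energy.
-/

open MeasureTheory Set Metric Filter Topology
open scoped ContDiff
open H459R3.NS Pool.Agent.R210 Pool.Agent.R211.CD

namespace Pool.Agent.R211.CE

theorem pd_phi (i : Fin 3) (z : V) : pd i phi z = deriv hh (rsq z) * (2 * z i) / ZZ := by
  have h1 : HasFDerivAt (fun z : V => rsq z) (∑ j, (2 * z j) • (ContinuousLinearMap.proj j : V →L[ℝ] ℝ))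
      z := by
    unfold rsq
    refine HasFDerivAt.fun_sum fun j _ => ?_
    have h2 := ((ContinuousLinearMap.proj (R := ℝ) (φ := fun _ : Fin 3 => ℝ) j).hasFDerivAt
      (x := z)).pow 2
    refine (h2 : HasFDerivAt (fun z : V => z j ^ 2) _ z).congr_fderiv ?_
    ext v
    simp
  have h2 := ((hh_hasDerivAt (rsq z)).comp_hasFDerivAt z h1).mul_const (ZZ⁻¹)
  have h3 : HasFDerivAt phi _ z := h2
  unfold pd
  rw [h3.fderiv]
  simp only [ContinuousLinearMap.smul_apply, ContinuousLinearMap.sum_apply, smul_eq_mul,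
    ContinuousLinearMap.proj_apply, Pi.single_apply, mul_ite, mul_one, mul_zero,
    Finset.sum_ite_eq', Finset.sum_ite_eq, Finset.mem_univ, if_true]
  ring

/-- A bound of the derivatives of the mollifier. -/
noncomputable def Bd : ℝ := 2 * HB / ZZ

theorem Bd_nonneg : 0 ≤ Bd := by
  have := one_le_HB
  have := ZZ_pos
  unfold Bd
  positivity

theorem pd_phi_zero (i : Fin 3) {z : V} (hz : z ∉ U1) : pd i phi z = 0 := by
  rw [pd_phi, dhh_zero (not_lt.1 hz)]
  simp

theorem pd_phi_le (i : Fin 3) (z : V) : |pd i phi z| ≤ Bd := by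
  by_cases hz : z ∈ U1
  · rw [pd_phi, abs_div, abs_of_pos ZZ_pos, abs_mul]
    unfold Bd
    refine div_le_div_of_nonneg_right ?_ ZZ_pos.le
    have h1 := dhh_le (s := rsq z) (rsq_nonneg z)
    have h2 : |2 * z i| ≤ 2 := by
      have h3 : z i ^ 2 ≤ 1 := by
        have h4 : z i ^ 2 ≤ rsq z := Finset.single_le_sum (f := fun i => z i ^ 2)
          (fun j _ => sq_nonneg _) (Finset.mem_univ i)
        have h5 : rsq z < 1 := hz
        linarith
      have h4 : |z i| ≤ 1 := by
        rw [← sq_le_one_iff_abs_le_one]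
        exact h3
      rw [abs_mul, abs_two]
      linarith
    calc _ ≤ HB * 2 := mul_le_mul h1 h2 (abs_nonneg _) (by linarith [one_le_HB])
      _ = _ := by ring
  · rw [pd_phi_zero i hz, abs_zero]
    exact Bd_nonneg

theorem vU_pos' : 0 ≤ vU := vU_nonneg

/-- The Cauchy-Schwarz inequality on the unit ball. -/
theorem cs_U1 {f : V → ℝ} (hf : Continuous f) :
    (∫ z in U1, |f z|) ^ 2 ≤ vU * ∫ z in U1, f z ^ 2 := by
  have h1 : IntegrableOn (fun z => |f z|) U1 := int_U1 hf.abs
  have h2 : IntegrableOn (fun z => f z ^ 2) U1 := int_U1 (hf.pow 2)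
  have h3 : ∀ s : ℝ, 0 ≤ vU * (s * s) + (-2 * ∫ z in U1, |f z|) * s + ∫ z in U1, f z ^ 2 := by
    intro s
    have i3 : IntegrableOn (fun _ : V => s * s) U1 := int_U1 continuous_const
    have i4 : IntegrableOn (fun z => 2 * s * |f z|) U1 := h1.const_mul _
    have i5 : IntegrableOn (fun z => f z ^ 2 - 2 * s * |f z|) U1 := h2.sub i4
    have h4 : 0 ≤ ∫ z in U1, (f z ^ 2 - 2 * s * |f z| + s * s) := by
      refine integral_nonneg fun z => ?_
      have : f z ^ 2 - 2 * s * |f z| + s * s = (|f z| - s) ^ 2 := by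
        rw [← sq_abs (f z)]; ring
      rw [this]
      exact sq_nonneg _
    have hv : ∫ _ in U1, s * s = vU * (s * s) := by
      rw [setIntegral_const, smul_eq_mul]
      rfl
    rw [integral_add i5 i3, integral_sub h2 i4, integral_const_mul, hv] at h4
    linarith
  have h5 := discrim_le_zero h3
  unfold discrim at h5
  nlinarith

/-- The large scales of the gradient are bounded by the energy. -/
theorem mo_pd_le {f : V → ℝ} (hf : SP f) (i : Fin 3) {t Q : ℝ} (ht : 0 < t) (ht1 : t ≤ 1) (x : V)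
    (hQ : ∫ x in cube, f x ^ 2 ≤ Q) :
    |mo phi t (pd i f) x| ≤ Bd * Real.sqrt (27 * vU) * (Real.sqrt (Q / t) / t ^ 2) := by
  have hB := Bd_nonneg
  have hvU := vU_nonneg
  have hQ0 : 0 ≤ Q := (integral_nonneg fun x => sq_nonneg _).trans hQ
  have h1 := mo_pd phi_smooth phi_compact hf.smooth i t x
  have hc : Continuous fun z : V => f (x - t • z) := hf.cont.comp (by fun_prop)
  have h2 : |mo (pd i phi) t f x| ≤ Bd * ∫ z in U1, |f (x - t • z)| := by
    unfold mo
    rw [← integral_const_mul, ← integral_indicator measurable_U1, ← Real.norm_eq_abs]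
    refine norm_integral_le_of_norm_le (IntegrableOn.integrable_indicator
      (int_U1 (continuous_const.mul hc.abs)) measurable_U1)
      (Filter.Eventually.of_forall fun z => ?_)
    rw [Real.norm_eq_abs, abs_mul]
    by_cases hz : z ∈ U1
    · rw [indicator_of_mem hz]
      exact mul_le_mul_of_nonneg_right (pd_phi_le i z) (abs_nonneg _)
    · rw [indicator_of_notMem hz, pd_phi_zero i hz]
      simp
  have h3 : ∫ z in U1, |f (x - t • z)| ≤ Real.sqrt (27 * vU) * (Real.sqrt (Q / t) / t) := by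
    have h4 := cs_U1 hc
    have h5 := int_U1_le (f := fun y => f y ^ 2) (hf.cont.pow 2)
      (fun i x => by simp only [hf.per i x]) (fun x => sq_nonneg _) ht ht1 x
    have h6 : (∫ z in U1, |f (x - t • z)|) ^ 2 ≤ vU * (t⁻¹ ^ 3 * (27 * Q)) := by
      refine h4.trans (mul_le_mul_of_nonneg_left (h5.trans ?_) hvU)
      refine mul_le_mul_of_nonneg_left ?_ (by positivity)
      exact mul_le_mul_of_nonneg_left hQ (by norm_num)
    refine ((le_abs_self _).trans (Real.abs_le_sqrt h6)).trans (le_of_eq ?_)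
    have e1 : vU * (t⁻¹ ^ 3 * (27 * Q)) = 27 * vU * (Q / t) * (t⁻¹) ^ 2 := by
      field_simp
    rw [e1, Real.sqrt_mul (by positivity), Real.sqrt_sq (by positivity),
      Real.sqrt_mul (by positivity)]
    ring
  have h4 : t * |mo phi t (pd i f) x| ≤ Bd * (Real.sqrt (27 * vU) * (Real.sqrt (Q / t) / t)) := by
    have : t * |mo phi t (pd i f) x| = |mo (pd i phi) t f x| := by
      rw [h1, abs_mul, abs_of_pos ht]
    rw [this]
    exact h2.trans (mul_le_mul_of_nonneg_left h3 hB)
  have h5 : |mo phi t (pd i f) x| = t⁻¹ * (t * |mo phi t (pd i f) x|) := by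
    field_simp
  rw [h5]
  refine (mul_le_mul_of_nonneg_left h4 (by positivity)).trans (le_of_eq ?_)
  field_simp

/-- **The estimate of the production.** -/
theorem prod_gen {v w l : V → V} {a T ρ Y L Λ M : ℝ} (hv : ∀ i, SP (fun x => v x i))
    (hw : ∀ i, SP (fun x => w x i)) (hl : ∀ i, SP (fun x => l x i)) (hdiv : ∀ x, dv v x = 0)
    (hwl : ∀ x, cu v x = w x + l x) (hL : ∀ x i, |l x i| ≤ L) (ha0 : 0 < a) (ha1 : a ≤ 1)
    (hρ : 0 < ρ) (hρT : ρ ≤ T) (hY : Y = ∫ x in cube, rsq (w x)) (hΛ : 0 < Λ)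
    (hb : ∀ x t, 0 < t → t ≤ T → ∫ z in U1, en (w (x - t • z)) ≤ Λ / t ^ 2)
    (hMle : ∀ x i j, |mo phi T (pd i (fun y => v y j)) x| ≤ M)
    (hang : ∀ x y, en (x - y) ≤ ρ →
      en (crossProduct (w x) (w y)) ≤ a ^ 3 * (en (w x) * en (w y))) :
    |Nw w v| ≤ CP * (a * Λ * (3 * CS * (∫ x in cube, G2 w x) + Y / ρ ^ 2))
      + 3 * BB * Λ * Y / ρ ^ 2
      + 3 * M * Y
      + T * (36 * BB * vU * L * (Real.sqrt (∫ x in cube, G2 w x) * Real.sqrt Y)) := by
  have hB := one_le_BB
  have hvU := vU_nonneg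
  have hT0 : 0 < T := hρ.trans_le hρT
  have hY0 : 0 ≤ Y := by rw [hY]; exact integral_nonneg fun x => rsq_nonneg _
  set G := ∫ x in cube, G2 w x with hGd
  -- the term of the scale of the ball
  have hterm1 : |∫ x in cube, ∑ i, ∑ j, w x i * w x j * mo phi T (pd i (fun y => v y j)) x|
      ≤ 3 * M * Y := by
    rw [hY, ← integral_const_mul, ← Real.norm_eq_abs]
    refine norm_integral_le_of_norm_le (integrableOn_cube
      (continuous_const.mul (rsqw_cont hw))) (Filter.Eventually.of_forall fun x => ?_)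
    rw [Real.norm_eq_abs]
    exact rsq_sum_le fun i j => hMle x i j
  -- continuity
  have hcw : Continuous fun t : ℝ => ∫ x in cube, Zf w w t x :=
    continuous_parametric_integral_of_continuous (μ := volume) (f := fun t x => Zf w w t x)
      (Zf_cont hw hw) isCompact_Icc
  have hcl : Continuous fun t : ℝ => ∫ x in cube, Zf w l t x :=
    continuous_parametric_integral_of_continuous (μ := volume) (f := fun t x => Zf w l t x)
      (Zf_cont hw hl) isCompact_Icc
  have hcw' : Continuous fun t : ℝ => t * ∫ x in cube, Zf w w t x := continuous_id.mul hcw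
  have hcl' : Continuous fun t : ℝ => t * ∫ x in cube, Zf w l t x := continuous_id.mul hcl
  have hnear := near_int hw hρ hΛ ha0 ha1
    (fun x t h1 h2 => hb x t h1 (h2.trans hρT)) hang
  rw [← hGd, ← hY] at hnear
  have hmid := mid_int hw hρ hρT hΛ.le hb
  rw [← hY] at hmid
  -- the bounded part
  have hlow : |∫ t in (0 : ℝ)..T, t * ∫ x in cube, Zf w l t x|
      ≤ T * (36 * BB * vU * L * (Real.sqrt G * Real.sqrt Y)) := by
    rw [← Real.norm_eq_abs]
    have h4 := intervalIntegral.norm_integral_le_of_norm_le_const (a := (0 : ℝ)) (b := T)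
      (f := fun t => t * ∫ x in cube, Zf w l t x)
      (C := 36 * BB * vU * L * (Real.sqrt G * Real.sqrt Y)) fun t ht => by
        rw [uIoc_of_le hT0.le] at ht
        rw [Real.norm_eq_abs, abs_mul, abs_of_pos ht.1, hY]
        exact Jl_le hw hl hL ht.1.le
    rw [sub_zero, abs_of_pos hT0] at h4
    linarith
  have hsum : |∫ t in (0 : ℝ)..T, (-(t * ∫ x in cube, Zf w w t x) - t * ∫ x in cube, Zf w l t x)|
      ≤ CP * (a * Λ * (3 * CS * G + Y / ρ ^ 2)) + 3 * BB * Λ * Y / ρ ^ 2
        + T * (36 * BB * vU * L * (Real.sqrt G * Real.sqrt Y)) := by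
    have e1 : ∫ t in (0 : ℝ)..T, (-(t * ∫ x in cube, Zf w w t x) - t * ∫ x in cube, Zf w l t x)
        = -((∫ t in (0 : ℝ)..ρ, t * ∫ x in cube, Zf w w t x)
          + ∫ t in ρ..T, t * ∫ x in cube, Zf w w t x)
          - ∫ t in (0 : ℝ)..T, t * ∫ x in cube, Zf w l t x := by
      rw [intervalIntegral.integral_add_adjacent_intervals (hcw'.intervalIntegrable _ _)
        (hcw'.intervalIntegrable _ _), ← intervalIntegral.integral_neg]
      exact intervalIntegral.integral_sub (hcw'.neg.intervalIntegrable _ _)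
        (hcl'.intervalIntegrable _ _)
    rw [e1]
    have a1 := abs_le.1 hnear
    have a2 := abs_le.1 hmid
    have a3 := abs_le.1 hlow
    rw [abs_le]
    constructor
    · linarith [a1.2, a2.2, a3.2]
    · linarith [a1.1, a2.1, a3.1]
  rw [Nw_eq hv hw hl hdiv hwl hT0.le]
  refine (abs_add_le _ _).trans ((add_le_add hterm1 hsum).trans ?_)
  linarith

end Pool.Agent.R211.CE
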