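import Pool.Agent.R211.CE.Prod
import Pool.Agent.R211.CE.Cov

/-!
The production of enstrophy, with the linear smallness of the sine.
-/

open MeasureTheory Set Metric Filter Topology
open scoped ContDiff
open H459R3.NS Pool.Agent.R210 Pool.Agent.R211.CD

namespace Pool.Agent.R211.CE

/-- **The estimate of the production.** -/
theorem prod_gen2 {v w l : V → V} {θ κ T ρ Y L Λ Λ' M : ℝ} (hv : ∀ i, SP (fun x => v x i))
    (hw : ∀ i, SP (fun x => w x i)) (hl : ∀ i, SP (fun x => l x i)) (hdiv : ∀ x, dv v x = 0)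
    (hwl : ∀ x, cu v x = w x + l x) (hL : ∀ x i, |l x i| ≤ L) (hθ : 0 ≤ θ)
    (hκ : 0 < κ) (hρ : 0 < ρ) (hρT : ρ ≤ T) (hY : Y = ∫ x in cube, rsq (w x)) (hΛ : 0 < Λ)
    (hΛ' : 0 < Λ') (hpt : ∀ x, ∃ l a s : ℝ, 0 < l ∧ l ≤ Λ ∧ 0 < a ∧ a ≤ 1 ∧ a * l ≤ θ ∧ 0 ≤ s ∧
      s * (1 + Real.log (1 / a)) ≤ a ∧
      (∀ t, 0 < t → t ≤ ρ → ∫ z in U1, en (w (x - t • z)) ≤ l / t ^ 2) ∧
      ∀ y, en (x - y) ≤ ρ → en (crossProduct (w x) (w y)) ≤ s * (en (w x) * en (w y)))
    (hb : ∀ x t, 0 < t → t ≤ T → ∫ z in U1, en (w (x - t • z)) ≤ Λ' / t ^ 2)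
    (hMle : ∀ x i j, |mo phi T (pd i (fun y => v y j)) x| ≤ M) :
    |Nw w v| ≤ (CP2 * (θ * (6 * CS * (∫ x in cube, G2 w x)) + Λ * (4 * Y / ρ ^ 2)) + C6 * κ * Y)
      + 24 * BB * (Λ / ρ ^ 2) * Real.log (1 + Λ' / (8 * Λ)) * Y
      + 3 * M * Y
      + T * (36 * BB * vU * L * (Real.sqrt (∫ x in cube, G2 w x) * Real.sqrt Y)) := by
  have hB := one_le_BB
  have hvU := vU_nonneg
  have hT0 : 0 < T := hρ.trans_le hρT
  have hY0 : 0 ≤ Y := by rw [hY]; exact integral_nonneg fun x => rsq_nonneg _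
  set G := ∫ x in cube, G2 w x with hGd
  -- the term of the scale of the ball
  have hterm1 : |∫ x in cube, ∑ i, ∑ j, w x i * w x j * mo phi T (pd i (fun y => v y j)) x|
      ≤ 3 * M * Y := by
    rw [hY, ← integral_const_mul, ← Real.norm_eq_abs]
    refine norm_integral_le_of_norm_le (integrableOn_cube
      (continuous_const.mul (rsqw_cont hw))) (Filter.Eventually.of_forall fun x => ?_)
    rw [Real.norm_eq_abs]
    exact rsq_sum_le fun i j => hMle x i j
  -- continuity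
  have hcw : Continuous fun t : ℝ => ∫ x in cube, Zf w w t x :=
    continuous_parametric_integral_of_continuous (μ := volume) (f := fun t x => Zf w w t x)
      (Zf_cont hw hw) isCompact_Icc
  have hcl : Continuous fun t : ℝ => ∫ x in cube, Zf w l t x :=
    continuous_parametric_integral_of_continuous (μ := volume) (f := fun t x => Zf w l t x)
      (Zf_cont hw hl) isCompact_Icc
  have hcw' : Continuous fun t : ℝ => t * ∫ x in cube, Zf w w t x := continuous_id.mul hcw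
  have hcl' : Continuous fun t : ℝ => t * ∫ x in cube, Zf w l t x := continuous_id.mul hcl
  have hnear := near_int2 hw hρ hκ hθ hpt
  rw [← hGd, ← hY] at hnear
  have hmid := mid_int2 hw hρ hρT (A := Λ / ρ ^ 2) (by positivity) hΛ'
    (fun x => by
      obtain ⟨l, a, s, hl0, hlΛ, ha0, ha1, hal, hs, hsa, hb0, hang⟩ := hpt x
      exact (hb0 ρ hρ le_rfl).trans (div_le_div_of_nonneg_right hlΛ (by positivity))) hb
  rw [← hY] at hmid
  have emid : 3 * BB * Y * (8 * (Λ / ρ ^ 2) * Real.log (1 + Λ' / (8 * (Λ / ρ ^ 2) * ρ ^ 2)))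
      = 24 * BB * (Λ / ρ ^ 2) * Real.log (1 + Λ' / (8 * Λ)) * Y := by
    have e2 : 8 * (Λ / ρ ^ 2) * ρ ^ 2 = 8 * Λ := by field_simp
    rw [e2]
    ring
  rw [emid] at hmid
  -- the bounded part
  have hlow : |∫ t in (0 : ℝ)..T, t * ∫ x in cube, Zf w l t x|
      ≤ T * (36 * BB * vU * L * (Real.sqrt G * Real.sqrt Y)) := by
    rw [← Real.norm_eq_abs]
    have h4 := intervalIntegral.norm_integral_le_of_norm_le_const (a := (0 : ℝ)) (b := T)
      (f := fun t => t * ∫ x in cube, Zf w l t x)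
      (C := 36 * BB * vU * L * (Real.sqrt G * Real.sqrt Y)) fun t ht => by
        rw [uIoc_of_le hT0.le] at ht
        rw [Real.norm_eq_abs, abs_mul, abs_of_pos ht.1, hY]
        exact Jl_le hw hl hL ht.1.le
    rw [sub_zero, abs_of_pos hT0] at h4
    linarith
  have hsum : |∫ t in (0 : ℝ)..T, (-(t * ∫ x in cube, Zf w w t x) - t * ∫ x in cube, Zf w l t x)|
      ≤ (CP2 * (θ * (6 * CS * G) + Λ * (4 * Y / ρ ^ 2)) + C6 * κ * Y) + 24 * BB * (Λ / ρ ^ 2) * Real.log (1 + Λ' / (8 * Λ)) * Y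
        + T * (36 * BB * vU * L * (Real.sqrt G * Real.sqrt Y)) := by
    have e1 : ∫ t in (0 : ℝ)..T, (-(t * ∫ x in cube, Zf w w t x) - t * ∫ x in cube, Zf w l t x)
        = -((∫ t in (0 : ℝ)..ρ, t * ∫ x in cube, Zf w w t x)
          + ∫ t in ρ..T, t * ∫ x in cube, Zf w w t x)
          - ∫ t in (0 : ℝ)..T, t * ∫ x in cube, Zf w l t x := by
      rw [intervalIntegral.integral_add_adjacent_intervals (hcw'.intervalIntegrable _ _)
        (hcw'.intervalIntegrable _ _), ← intervalIntegral.integral_neg]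
      exact intervalIntegral.integral_sub (hcw'.neg.intervalIntegrable _ _)
        (hcl'.intervalIntegrable _ _)
    rw [e1]
    have a1 := abs_le.1 hnear
    have a2 := abs_le.1 hmid
    have a3 := abs_le.1 hlow
    rw [abs_le]
    constructor
    · linarith [a1.2, a2.2, a3.2]
    · linarith [a1.1, a2.1, a3.1]
  rw [Nw_eq hv hw hl hdiv hwl hT0.le]
  refine (abs_add_le _ _).trans ((add_le_add hterm1 hsum).trans ?_)
  linarith

end Pool.Agent.R211.CE
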