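import Pool.Agent.R211.CD.Mor

/-!
Test functions for the flux of a field whose direction lies in a cone.
-/

open MeasureTheory Set Metric Filter Topology
open scoped ContDiff RealInnerProductSpace
open H459R3.NS Pool.Agent.R210 Pool.Agent.R211.CD

namespace Pool.Agent.R211.CE

/-- The profile of the sine of the elevation. -/
noncomputable def gs (b q : ℝ) : ℝ := ∫ s in (0 : ℝ)..q, hh ((b * s) ^ 2)

theorem gs_arg_smooth (b : ℝ) : ContDiff ℝ ∞ fun s : ℝ => hh ((b * s) ^ 2) :=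
  hh_smooth.comp ((contDiff_const.mul contDiff_id).pow 2)

theorem gs_hasDerivAt (b q : ℝ) : HasDerivAt (gs b) (hh ((b * q) ^ 2)) q :=
  ((gs_arg_smooth b).continuous.integral_hasStrictDerivAt 0 q).hasDerivAt

theorem gs_smooth (b : ℝ) : ContDiff ℝ ∞ (gs b) := by
  rw [contDiff_infty_iff_deriv]
  refine ⟨fun s => (gs_hasDerivAt b s).differentiableAt, ?_⟩
  have : deriv (gs b) = fun q => hh ((b * q) ^ 2) := funext fun q => (gs_hasDerivAt b q).deriv
  rw [this]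
  exact gs_arg_smooth b

theorem gs_abs (b q : ℝ) : |gs b q| ≤ |q| := by
  unfold gs
  rw [← Real.norm_eq_abs]
  refine (intervalIntegral.norm_integral_le_of_norm_le_const (C := 1) fun s _ => ?_).trans
    (le_of_eq ?_)
  · rw [Real.norm_eq_abs, abs_of_nonneg (hh_nonneg _)]
    exact hh_le_one _
  · rw [one_mul, sub_zero]

section

variable {ρ : ℝ} (hρ : 0 < ρ)

include hρ in
theorem qq_fderiv (x e y v : E) : fderiv ℝ (fun y => qq ρ e (y - x)) y v = dq ρ e (y - x) v := by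
  obtain ⟨L, hL, hLv⟩ := qq_hasFDerivAt hρ x e y
  rw [hL.fderiv]
  exact hLv v

include hρ in
theorem norm_le_DD (z : E) : ‖z‖ ≤ DD ρ z := by
  refine le_of_sq_le_sq ?_ (DD_pos hρ z).le
  rw [DD_sq hρ]
  have := sq_nonneg ρ
  linarith

include hρ in
theorem qq_abs_le {e : E} (he : ‖e‖ = 1) (z : E) : |qq ρ e z| ≤ ‖z‖ / ρ := by
  have hD := DD_pos hρ z
  unfold qq
  rw [abs_mul, abs_of_pos (inv_pos.2 hD), ← div_eq_mul_inv]
  have h1 := abs_real_inner_le_norm e z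
  rw [he, one_mul] at h1
  have h2 : ρ ≤ DD ρ z := by
    refine le_of_sq_le_sq ?_ hD.le
    rw [DD_sq hρ]
    have := sq_nonneg ‖z‖
    linarith
  exact div_le_div₀ (norm_nonneg _) h1 hρ h2

include hρ in
/-- The derivative of the sine of the elevation. -/
theorem dq_split (e z v : E) : |dq ρ e z v - ⟪e, v⟫ / DD ρ z| ≤ |qq ρ e z| * (‖v‖ / DD ρ z) := by
  have hD := DD_pos hρ z
  have e1 : dq ρ e z v - ⟪e, v⟫ / DD ρ z = -(qq ρ e z * (⟪z, v⟫ / DD ρ z ^ 2)) := by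
    unfold dq qq
    field_simp
    ring
  rw [e1, abs_neg, abs_mul]
  refine mul_le_mul_of_nonneg_left ?_ (abs_nonneg _)
  rw [abs_div, abs_of_pos (pow_pos hD 2), div_le_div_iff₀ (pow_pos hD 2) hD]
  have h1 := abs_real_inner_le_norm z v
  have h2 := norm_le_DD hρ z
  have h3 : ‖z‖ * ‖v‖ ≤ DD ρ z * ‖v‖ := mul_le_mul_of_nonneg_right h2 (norm_nonneg _)
  calc |⟪z, v⟫| * DD ρ z ≤ DD ρ z * ‖v‖ * DD ρ z :=
        mul_le_mul_of_nonneg_right (h1.trans h3) hD.le
    _ = ‖v‖ * DD ρ z ^ 2 := by ring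

include hρ in
theorem dq_abs {e : E} (he : ‖e‖ = 1) (z v : E) : |dq ρ e z v| ≤ 2 * ‖v‖ / DD ρ z := by
  have hD := DD_pos hρ z
  have h1 := dq_split hρ e z v
  have h2 : |⟪e, v⟫ / DD ρ z| ≤ ‖v‖ / DD ρ z := by
    rw [abs_div, abs_of_pos hD]
    refine div_le_div_of_nonneg_right ?_ hD.le
    have := abs_real_inner_le_norm e v
    rwa [he, one_mul] at this
  have h3 : |qq ρ e z| * (‖v‖ / DD ρ z) ≤ 1 * (‖v‖ / DD ρ z) :=
    mul_le_mul_of_nonneg_right (qq_le hρ he z) (by positivity)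
  have h4 : |dq ρ e z v| ≤ |dq ρ e z v - ⟪e, v⟫ / DD ρ z| + |⟪e, v⟫ / DD ρ z| := by
    have := abs_add_le (dq ρ e z v - ⟪e, v⟫ / DD ρ z) (⟪e, v⟫ / DD ρ z)
    rwa [sub_add_cancel] at this
  have e1 : 2 * ‖v‖ / DD ρ z = ‖v‖ / DD ρ z + ‖v‖ / DD ρ z := by ring
  rw [e1]
  linarith

/-- The test function. -/
noncomputable def tps (b R ρ : ℝ) (x e y : E) : ℝ := gs b (qq ρ e (y - x)) * ze R (y - x)

/-- The factor of the test function. -/
noncomputable def Gs (b ρ : ℝ) (x e y : E) : ℝ := gs b (qq ρ e (y - x))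

include hρ in
theorem Gs_smooth (b : ℝ) (x e : E) : ContDiff ℝ ∞ (Gs b ρ x e) :=
  (gs_smooth b).comp (qq_smooth hρ x e)

include hρ in
theorem Gs_fderiv (b : ℝ) (x e y v : E) : fderiv ℝ (Gs b ρ x e) y v
    = hh ((b * qq ρ e (y - x)) ^ 2) * dq ρ e (y - x) v := by
  obtain ⟨L, hL, hLv⟩ := qq_hasFDerivAt hρ x e y
  have h1 := (gs_hasDerivAt b (qq ρ e (y - x))).comp_hasFDerivAt y hL
  have h2 : HasFDerivAt (Gs b ρ x e) (hh ((b * qq ρ e (y - x)) ^ 2) • L) y := h1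
  rw [h2.fderiv, ContinuousLinearMap.smul_apply, hLv, smul_eq_mul]

include hρ in
theorem Gs_le (b : ℝ) (x : E) {e : E} (he : ‖e‖ = 1) (y : E) : |Gs b ρ x e y| ≤ 1 :=
  (gs_abs _ _).trans (qq_le hρ he _)

include hρ in
theorem Gs_fderiv_le (b : ℝ) (x : E) {e : E} (he : ‖e‖ = 1) (y v : E) :
    |fderiv ℝ (Gs b ρ x e) y v| ≤ 2 * ‖v‖ / DD ρ (y - x) := by
  rw [Gs_fderiv hρ, abs_mul, abs_of_nonneg (hh_nonneg _)]
  calc _ ≤ 1 * (2 * ‖v‖ / DD ρ (y - x)) :=
        mul_le_mul (hh_le_one _) (dq_abs hρ he _ v) (abs_nonneg _) zero_le_one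
    _ = _ := one_mul _

include hρ in
theorem tps_smooth (b R : ℝ) (x e : E) : ContDiff ℝ ∞ (tps b R ρ x e) :=
  (Gs_smooth hρ b x e).mul ((ze_smooth R).comp (contDiff_id.sub contDiff_const))

theorem tps_supp (b : ℝ) {R : ℝ} (hR : 0 < R) (ρ : ℝ) (x e : E) :
    Function.support (tps b R ρ x e) ⊆ ball x R := by
  intro y hy
  by_contra hc
  refine hy ?_
  simp only [tps]
  rw [ze_sub_zero hR hc, mul_zero]

theorem tps_compact (b : ℝ) {R : ℝ} (hR : 0 < R) (ρ : ℝ) (x e : E) :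
    HasCompactSupport (tps b R ρ x e) :=
  HasCompactSupport.of_support_subset_isCompact (isCompact_closedBall x R)
    ((tps_supp b hR ρ x e).trans ball_subset_closedBall)

theorem ze_fderiv (R : ℝ) (x y : E) : HasFDerivAt (fun y : E => ze R (y - x))
    ((deriv hh (‖y - x‖ ^ 2 / R ^ 2) * (2 / R ^ 2)) • innerSL ℝ (y - x)) y := by
  have h2 : HasFDerivAt (fun y : E => ‖y - x‖ ^ 2) (2 • (innerSL ℝ (y - x))) y := by
    have := (hasStrictFDerivAt_norm_sq (y - x)).hasFDerivAt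
    exact this.comp y ((hasFDerivAt_id y).sub_const x)
  have h3 : HasFDerivAt (fun y : E => ‖y - x‖ ^ 2 / R ^ 2)
      ((R ^ 2)⁻¹ • (2 • (innerSL ℝ (y - x)))) y := by
    have := h2.mul_const ((R ^ 2)⁻¹)
    exact this
  have h4 := (hh_hasDerivAt (‖y - x‖ ^ 2 / R ^ 2)).comp_hasFDerivAt y h3
  refine (h4 : HasFDerivAt (fun y : E => ze R (y - x)) _ y).congr_fderiv ?_
  ext v
  simp only [ContinuousLinearMap.smul_apply, smul_eq_mul, nsmul_eq_mul, Nat.cast_ofNat]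
  ring

include hρ in
theorem tps_fderiv (b R : ℝ) (x e y v : E) : fderiv ℝ (tps b R ρ x e) y v
    = Gs b ρ x e y * dZ R x y v
      + ze R (y - x) * (hh ((b * qq ρ e (y - x)) ^ 2) * dq ρ e (y - x) v) := by
  have h1 : HasFDerivAt (Gs b ρ x e) (fderiv ℝ (Gs b ρ x e) y) y :=
    ((Gs_smooth hρ b x e).differentiable (by norm_num) y).hasFDerivAt
  have h2 := ze_fderiv R x y
  have h3 := h1.mul h2
  have h4 : HasFDerivAt (tps b R ρ x e) _ y := h3
  rw [h4.fderiv]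
  simp only [ContinuousLinearMap.add_apply, ContinuousLinearMap.smul_apply, smul_eq_mul,
    innerSL_apply_apply]
  rw [Gs_fderiv hρ]
  unfold dZ
  ring

/-- The weight. -/
noncomputable def As (b R ρ : ℝ) (x e y : E) : ℝ :=
  ze R (y - x) * (hh ((b * qq ρ e (y - x)) ^ 2) / DD ρ (y - x))

include hρ in
theorem As_nonneg (b R : ℝ) (x e y : E) : 0 ≤ As b R ρ x e y :=
  mul_nonneg (ze_nonneg _ _) (div_nonneg (hh_nonneg _) (DD_pos hρ _).le)

include hρ in
theorem As_cont (b R : ℝ) (x e : E) : Continuous (As b R ρ x e) := by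
  have hz : Continuous fun y : E => y - x := continuous_id.sub continuous_const
  have h1 : Continuous fun y => DD ρ (y - x) := by
    unfold DD
    exact Real.continuous_sqrt.comp ((hz.norm.pow 2).add continuous_const)
  unfold As
  exact ((ze_smooth R).continuous.comp hz).mul ((hh_smooth.continuous.comp
    ((continuous_const.mul (qq_smooth hρ x e).continuous).pow 2)).div h1
      fun y => (DD_pos hρ _).ne')

include hρ in
/-- The main inequality. -/
theorem tps_ge {b σ : ℝ} (hσ : 0 < σ) (hb : b = 2 / σ) (R : ℝ) (x : E) {e : E} {y w : E}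
    {κ : ℝ} (hw : σ * ‖w‖ - κ ≤ ⟪e, w⟫) :
    Gs b ρ x e y * dZ R x y w + As b R ρ x e y * (σ / 2 * ‖w‖ - κ)
      ≤ fderiv ℝ (tps b R ρ x e) y w := by
  have hD := DD_pos hρ (y - x)
  rw [tps_fderiv hρ]
  have hz := ze_nonneg R (y - x)
  set q := qq ρ e (y - x) with hq
  unfold As
  rw [← hq]
  set D := DD ρ (y - x) with hDd
  rcases le_or_gt 1 ((b * q) ^ 2) with h | h
  · rw [hh_zero h]
    simp
  · have h1 : |q| ≤ σ / 2 := by
      have h2 : |b * q| < 1 := by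
        rw [← sq_lt_one_iff_abs_lt_one]
        exact h
      rw [abs_mul, hb, abs_of_pos (by positivity : 0 < 2 / σ)] at h2
      have h3 : 2 / σ * |q| * σ < 1 * σ := mul_lt_mul_of_pos_right h2 hσ
      have h4 : 2 / σ * |q| * σ = 2 * |q| := by field_simp
      linarith
    have h2 := (abs_le.1 (dq_split hρ e (y - x) w)).1
    rw [← hq, ← hDd] at h2
    have h3 : |q| * (‖w‖ / D) ≤ σ / 2 * (‖w‖ / D) :=
      mul_le_mul_of_nonneg_right h1 (by positivity)
    have h4 : (σ * ‖w‖ - κ) / D ≤ ⟪e, w⟫ / D := div_le_div_of_nonneg_right hw hD.le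
    have h5 : (σ / 2 * ‖w‖ - κ) / D ≤ dq ρ e (y - x) w := by
      have e1 : (σ / 2 * ‖w‖ - κ) / D = (σ * ‖w‖ - κ) / D - σ / 2 * (‖w‖ / D) := by
        field_simp
        ring
      rw [e1]
      linarith
    have h6 : hh ((b * q) ^ 2) * ((σ / 2 * ‖w‖ - κ) / D)
        ≤ hh ((b * q) ^ 2) * dq ρ e (y - x) w := mul_le_mul_of_nonneg_left h5 (hh_nonneg _)
    have h7 := mul_le_mul_of_nonneg_left h6 hz
    have e2 : ze R (y - x) * (hh ((b * q) ^ 2) / D) * (σ / 2 * ‖w‖ - κ)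
        = ze R (y - x) * (hh ((b * q) ^ 2) * ((σ / 2 * ‖w‖ - κ) / D)) := by ring
    rw [e2]
    linarith

include hρ in
/-- The lower bound of the weight near the centre. -/
theorem As_ge {b σ : ℝ} (hσ : 0 < σ) (hσ1 : σ ≤ 1) (hb : b = 2 / σ) {R : ℝ} (hR : 0 < R)
    (hρR : σ * ρ ≤ 2 * R) (x : E) {e : E} (he : ‖e‖ = 1) {y : E} (hy : ‖y - x‖ ≤ σ * ρ / 4) :
    hh (1 / 4) ^ 2 / (2 * ρ) ≤ As b R ρ x e y := by
  have hD := DD_pos hρ (y - x)
  have hh0 : 0 < hh (1 / 4) := hh_pos (by norm_num)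
  have hn := norm_nonneg (y - x)
  have hyρ : ‖y - x‖ ≤ ρ := by nlinarith
  have h1 : DD ρ (y - x) ≤ 2 * ρ := by
    refine le_of_sq_le_sq ?_ (by positivity)
    rw [DD_sq hρ]
    nlinarith
  have h2 : hh (1 / 4) ≤ ze R (y - x) := ze_ge hR (by linarith)
  have h3 : hh (1 / 4) ≤ hh ((b * qq ρ e (y - x)) ^ 2) := by
    refine hh_anti ?_
    have h4 := qq_abs_le hρ he (y - x)
    have h5 : |qq ρ e (y - x)| ≤ σ / 4 := by
      refine h4.trans ?_
      rw [div_le_iff₀ hρ]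
      linarith
    have h6 : |b * qq ρ e (y - x)| ≤ 1 / 2 := by
      rw [abs_mul, hb, abs_of_pos (by positivity : 0 < 2 / σ)]
      calc 2 / σ * |qq ρ e (y - x)| ≤ 2 / σ * (σ / 4) :=
            mul_le_mul_of_nonneg_left h5 (by positivity)
        _ = 1 / 2 := by field_simp; norm_num
    rw [← sq_abs]
    nlinarith [abs_nonneg (b * qq ρ e (y - x))]
  unfold As
  have h4 : hh (1 / 4) / (2 * ρ) ≤ hh ((b * qq ρ e (y - x)) ^ 2) / DD ρ (y - x) :=
    div_le_div₀ (hh_nonneg _) h3 hD h1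
  calc hh (1 / 4) ^ 2 / (2 * ρ) = hh (1 / 4) * (hh (1 / 4) / (2 * ρ)) := by ring
    _ ≤ _ := mul_le_mul h2 h4 (by positivity) (ze_nonneg _ _)

include hρ in
/-- The integral of the weight. -/
theorem int_As {b σ : ℝ} (hσ : 0 < σ) (hσ1 : σ ≤ 1) (hb : b = 2 / σ) {R : ℝ} (hR : 0 < R) (x : E)
    {e : E} (he : ‖e‖ = 1) : ∫ y in ball x R, As b R ρ x e y ≤ 4 * HB * v3 * R ^ 2 := by
  have hB := one_le_HB
  have hv := v3_pos
  set φ := tps b R ρ x e with hφ
  have hφs : ContDiff ℝ ∞ φ := tps_smooth hρ b R x e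
  have hφc : HasCompactSupport φ := tps_compact b hR ρ x e
  have hfdc : Continuous fun y => fderiv ℝ φ y := hφs.continuous_fderiv (by norm_num)
  have hfd0 : ∀ y, y ∉ ball x R → ∀ v, fderiv ℝ φ y v = 0 := by
    intro y hy v
    rw [hφ, tps_fderiv hρ, dZ_zero hR hy, ze_sub_zero hR hy]
    ring
  have h1 : ∫ y in ball x R, fderiv ℝ φ y e = 0 := by
    rw [setIntegral_eq_integral_of_forall_compl_eq_zero fun y hy => hfd0 y hy _]
    refine int_dv_zero (w := fun _ => e) contDiff_const (fun y => ?_) hφs hφc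
    unfold dvE
    simp
  have ie : IntegrableOn (fun y => fderiv ℝ φ y e) (ball x R) :=
    intOn_ball (hfdc.clm_apply continuous_const) x R
  have iA : IntegrableOn (As b R ρ x e) (ball x R) := intOn_ball (As_cont hρ b R x e) x R
  have i1 : IntegrableOn (fun _ : E => (1 : ℝ)) (ball x R) :=
    integrableOn_const (measure_ball_lt_top).ne
  have hvol : ∫ _ in ball x R, (1 : ℝ) = v3 * R ^ 3 := by
    rw [setIntegral_const, smul_eq_mul, mul_one, ← vol_ball x hR.le]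
    rfl
  have h3 : ∫ y in ball x R, 1 / 2 * As b R ρ x e y
      ≤ ∫ y in ball x R, (2 * HB / R * 1 + fderiv ℝ φ y e) := by
    refine setIntegral_mono (iA.const_mul _) ((i1.const_mul _).add ie) fun y => ?_
    show 1 / 2 * As b R ρ x e y ≤ 2 * HB / R * 1 + fderiv ℝ φ y e
    have h4 := tps_ge hρ hσ hb R x (e := e) (y := y) (w := e) (κ := σ - 1) (by
      rw [he, real_inner_self_eq_norm_sq, he]; norm_num)
    rw [he, ← hφ] at h4
    have h5 := dZ_le hR x y e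
    rw [he] at h5
    have h6 : |Gs b ρ x e y * dZ R x y e| ≤ 1 * (2 * HB / R * 1) := by
      rw [abs_mul]
      exact mul_le_mul (Gs_le hρ b x he y) h5 (abs_nonneg _) zero_le_one
    have h7 := (abs_le.1 h6).1
    have h8 := As_nonneg hρ b R x e y
    have h9 : 1 / 2 * As b R ρ x e y ≤ As b R ρ x e y * (σ / 2 * 1 - (σ - 1)) := by
      have : (1 : ℝ) / 2 ≤ σ / 2 * 1 - (σ - 1) := by linarith
      calc 1 / 2 * As b R ρ x e y = As b R ρ x e y * (1 / 2) := by ring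
        _ ≤ _ := mul_le_mul_of_nonneg_left this h8
    linarith
  rw [integral_add (i1.const_mul _) ie, integral_const_mul, integral_const_mul, hvol, h1,
    add_zero] at h3
  have e1 : 2 * HB / R * (v3 * R ^ 3) = 2 * HB * v3 * R ^ 2 := by
    field_simp
  rw [e1] at h3
  linarith

end

end Pool.Agent.R211.CE
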